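import Pool.Agent.Work.MP_584b0c_al.Stab.Defs

set_option autoImplicit false

/-! MP_584b0c_al, item COMP: a unimodular vector is the first vector of a basis. -/

namespace Pool.Agent.StabComm

namespace XCOMP

/-- the linear form `x ↦ ψ ⬝ᵥ x` -/
def form (k : ℕ) (ψ : Fin (k + 1) → ℤ) : (Fin (k + 1) → ℤ) →ₗ[ℤ] ℤ where
  toFun x := ψ ⬝ᵥ x
  map_add' x y := dotProduct_add ψ x y
  map_smul' c x := dotProduct_smul c ψ x

theorem form_apply (k : ℕ) (ψ x : Fin (k + 1) → ℤ) : form k ψ x = ψ ⬝ᵥ x := rfl

theorem finrank_ker (k : ℕ) (ψ y : Fin (k + 1) → ℤ) (h : ψ ⬝ᵥ y = 1) :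
    Module.finrank ℤ (LinearMap.ker (form k ψ)) = k := by
  have h1 := Submodule.finrank_quotient_add_finrank (LinearMap.ker (form k ψ))
  rw [(form k ψ).quotKerEquivRange.finrank_eq] at h1
  have h2 : LinearMap.range (form k ψ) = ⊤ := by
    rw [LinearMap.range_eq_top]
    intro c
    exact ⟨c • y, by rw [map_smul, form_apply, h, smul_eq_mul, mul_one]⟩
  rw [h2, finrank_top, Module.finrank_self, Module.finrank_fin_fun] at h1
  omega

end XCOMP

open XCOMP in
theorem I_Comp : StComp := by
  intro k ψ y h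
  let b : Module.Basis (Fin k) ℤ (LinearMap.ker (form k ψ)) :=
    Module.finBasisOfFinrankEq ℤ _ (finrank_ker k ψ y h)
  let pr : (Fin (k + 1) → ℤ) →ₗ[ℤ] LinearMap.ker (form k ψ) :=
    LinearMap.codRestrict _ (LinearMap.id - (form k ψ).smulRight y) (by
      intro x
      rw [LinearMap.mem_ker, LinearMap.sub_apply, LinearMap.smulRight_apply, map_sub, map_smul,
        form_apply k ψ y, h, smul_eq_mul, mul_one, LinearMap.id_apply, sub_self])
  have hpr : ∀ x, ((pr x : LinearMap.ker (form k ψ)) : Fin (k + 1) → ℤ) = x - (ψ ⬝ᵥ x) • y :=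
    fun x => rfl
  let F : (Fin (k + 1) → ℤ) →ₗ[ℤ] (Unit ⊕ Fin k → ℤ) :=
    { toFun := fun x => Sum.elim (fun _ => ψ ⬝ᵥ x) (b.equivFun (pr x))
      map_add' := by
        intro x z
        funext i
        rcases i with i | i
        · exact dotProduct_add ψ x z
        · show b.equivFun (pr (x + z)) i = b.equivFun (pr x) i + b.equivFun (pr z) i
          rw [map_add, map_add]
          rfl
      map_smul' := by
        intro c x
        funext i
        rcases i with i | i
        · exact dotProduct_smul c ψ x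
        · show b.equivFun (pr (c • x)) i = c * b.equivFun (pr x) i
          rw [map_smul, map_smul]
          rfl }
  let G : (Unit ⊕ Fin k → ℤ) →ₗ[ℤ] (Fin (k + 1) → ℤ) :=
    { toFun := fun w => w (Sum.inl ()) • y +
        ((b.equivFun.symm (fun i => w (Sum.inr i)) : LinearMap.ker (form k ψ)) :
          Fin (k + 1) → ℤ)
      map_add' := by
        intro w z
        have h1 : (fun i => (w + z) (Sum.inr i)) =
            (fun i => w (Sum.inr i)) + (fun i => z (Sum.inr i)) := rfl
        rw [h1, map_add, Submodule.coe_add, Pi.add_apply, add_smul]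
        abel
      map_smul' := by
        intro c w
        have h1 : (fun i => (c • w) (Sum.inr i)) = c • (fun i => w (Sum.inr i)) := rfl
        rw [h1, map_smul, Submodule.coe_smul, Pi.smul_apply, smul_assoc, ← smul_add]
        rfl }
  have hφG : ∀ w, ψ ⬝ᵥ G w = w (Sum.inl ()) := by
    intro w
    show ψ ⬝ᵥ (w (Sum.inl ()) • y + _) = _
    rw [dotProduct_add, dotProduct_smul, h, smul_eq_mul, mul_one]
    have h1 : ψ ⬝ᵥ ((b.equivFun.symm (fun i => w (Sum.inr i)) : LinearMap.ker (form k ψ)) :
        Fin (k + 1) → ℤ) = 0 :=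
      LinearMap.mem_ker.1 (b.equivFun.symm (fun i => w (Sum.inr i))).2
    rw [h1, add_zero]
  have hFG : F ∘ₗ G = LinearMap.id := by
    apply LinearMap.ext
    intro w
    funext i
    rcases i with i | i
    · exact hφG w
    · show b.equivFun (pr (G w)) i = w (Sum.inr i)
      have h1 : pr (G w) = b.equivFun.symm (fun i => w (Sum.inr i)) := by
        apply Subtype.ext
        rw [hpr, hφG]
        exact add_sub_cancel_left _ _
      rw [h1, LinearEquiv.apply_symm_apply]
  have hGF : G ∘ₗ F = LinearMap.id := by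
    apply LinearMap.ext
    intro x
    show (ψ ⬝ᵥ x) • y + ((b.equivFun.symm (b.equivFun (pr x)) : LinearMap.ker (form k ψ)) :
      Fin (k + 1) → ℤ) = x
    rw [LinearEquiv.symm_apply_apply, hpr]
    abel
  refine ⟨LinearMap.toMatrix' F, LinearMap.toMatrix' G, ?_, ?_, ?_, ?_⟩
  · rw [← LinearMap.toMatrix'_comp, hFG, LinearMap.toMatrix'_id]
  · rw [← LinearMap.toMatrix'_comp, hGF, LinearMap.toMatrix'_id]
  · rw [LinearMap.toMatrix'_mulVec]
    show Sum.elim (fun _ => ψ ⬝ᵥ y) (b.equivFun (pr y)) = _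
    have h1 : pr y = 0 := by
      apply Subtype.ext
      rw [hpr, h, one_smul, sub_self]
      rfl
    rw [h1, h, map_zero]
    rfl
  · intro x
    rw [LinearMap.toMatrix'_mulVec]
    rfl

end Pool.Agent.StabComm
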