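import Pool.Agent.Work.MP_584b0c_al.Stab.Defs

set_option autoImplicit false

/-!
MP_584b0c_al (integral commutators), item DROP.
-/

namespace Pool.Agent.StabComm

theorem I_Drop : StDrop := by
  intro V W _ _ _ _ g hg
  obtain ⟨j, hj⟩ := hg
  let b : (W × (Fin j → ℤ)) ≃ₗ[ℤ] (Fin (Module.finrank ℤ (W × (Fin j → ℤ))) → ℤ) :=
    (Module.finBasis ℤ (W × (Fin j → ℤ))).equivFun
  let e : ((V × W) × (Fin j → ℤ)) ≃ₗ[ℤ]
      (V × (Fin (Module.finrank ℤ (W × (Fin j → ℤ))) → ℤ)) :=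
    (LinearEquiv.prodAssoc ℤ V W (Fin j → ℤ)).trans ((LinearEquiv.refl ℤ V).prodCongr b)
  refine ⟨Module.finrank ℤ (W × (Fin j → ℤ)), IsC.conj e ?_ hj⟩
  rintro ⟨⟨v, w⟩, t⟩
  rfl

end Pool.Agent.StabComm
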