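import Pool.Agent.Work.MP_584b0c_al.Stab.Defs

set_option autoImplicit false

namespace Pool.Agent.StabComm

open Polynomial

namespace XFIN

theorem mst_one {n : Type} [Fintype n] [DecidableEq n] : MSt (1 : Matrix n n ℤ) := by
  refine ⟨0, LinearEquiv.refl ℤ _, LinearEquiv.refl ℤ _, fun v => ?_⟩
  rcases v with ⟨v, t⟩
  refine Prod.ext ?_ (Subsingleton.elim _ _)
  simp

theorem all (hR : StRed) (hT : StTwo) : ∀ (k : ℕ) (C : Matrix (Fin k) (Fin k) ℤ), C.det = 1 →
    MSt C := by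
  intro k
  induction k with
  | zero =>
    intro C _
    have : C = 1 := Subsingleton.elim _ _
    rw [this]; exact mst_one
  | succ k ih =>
    intro C hC
    match k, ih, C, hC with
    | 0, _, C, hC =>
      have : C = 1 := by
        ext i j
        have hi : i = 0 := Fin.fin_one_eq_zero i
        have hj : j = 0 := Fin.fin_one_eq_zero j
        subst hi hj
        have h1 := Matrix.det_fin_one C
        rw [hC] at h1
        rw [← h1]; rfl
      rw [this]; exact mst_one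
    | 1, _, C, hC => exact hT C hC
    | (k + 2), ih, C, hC =>
      obtain ⟨C', h1, h2⟩ := hR (k + 2) (by omega) C hC
      exact h2 (ih C' h1)

end XFIN

theorem I_Fin (hR : StRed) (hT : StTwo) (hF : StMfin) :
    ∀ (k : ℕ) (C : Matrix (Fin k) (Fin k) ℤ), C.det = 1 → ∃ j₀ : ℕ, ∀ j, j₀ ≤ j →
      ∃ A B : (Matrix (Fin k ⊕ Fin j) (Fin k ⊕ Fin j) ℤ)ˣ,
        ((A * B * A⁻¹ * B⁻¹ : (Matrix (Fin k ⊕ Fin j) (Fin k ⊕ Fin j) ℤ)ˣ) :
          Matrix (Fin k ⊕ Fin j) (Fin k ⊕ Fin j) ℤ) = Matrix.fromBlocks C 0 0 1 :=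
  fun k C hC => hF k C (XFIN.all hR hT k C hC)

end Pool.Agent.StabComm
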