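import Pool.Agent.Work.MP_584b0c_al.Stab.Defs

set_option autoImplicit false

/-! MP_584b0c_al, stable commutators: GLUE. -/

namespace Pool.Agent.StabComm

namespace XGLUE

variable {V W : Type} [AddCommGroup V] [AddCommGroup W]

/-- the shear `(y, z) ↦ (y + Z z, z)` -/
def up (Z : W →ₗ[ℤ] V) : (V × W) ≃ₗ[ℤ] (V × W) where
  toFun p := (p.1 + Z p.2, p.2)
  invFun p := (p.1 - Z p.2, p.2)
  map_add' p q := by
    refine Prod.ext ?_ rfl
    simp only [Prod.fst_add, Prod.snd_add, map_add]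
    abel
  map_smul' c p := by
    refine Prod.ext ?_ rfl
    simp [smul_add]
  left_inv p := by simp
  right_inv p := by simp

/-- the shear `(y, z) ↦ (y, z - Z' y)` -/
def lo (Z' : V →ₗ[ℤ] W) : (V × W) ≃ₗ[ℤ] (V × W) where
  toFun p := (p.1, p.2 - Z' p.1)
  invFun p := (p.1, p.2 + Z' p.1)
  map_add' p q := by
    refine Prod.ext rfl ?_
    simp only [Prod.fst_add, Prod.snd_add, map_add]
    abel
  map_smul' c p := by
    refine Prod.ext rfl ?_
    simp [smul_sub]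
  left_inv p := by simp
  right_inv p := by simp

theorem up_apply (Z : W →ₗ[ℤ] V) (p : V × W) : up Z p = (p.1 + Z p.2, p.2) := rfl

theorem lo_apply (Z' : V →ₗ[ℤ] W) (p : V × W) : lo Z' p = (p.1, p.2 - Z' p.1) := rfl

/-- the automorphism `(y, z) ↦ (X₁ y - R (X₂ z), X₂ z)` -/
def xx (X₁ : V ≃ₗ[ℤ] V) (X₂ : W ≃ₗ[ℤ] W) (R : W →ₗ[ℤ] V) : (V × W) ≃ₗ[ℤ] (V × W) :=
  (X₁.prodCongr X₂).trans (up (-R))

theorem xx_apply (X₁ : V ≃ₗ[ℤ] V) (X₂ : W ≃ₗ[ℤ] W) (R : W →ₗ[ℤ] V) (p : V × W) :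
    xx X₁ X₂ R p = (X₁ p.1 - R (X₂ p.2), X₂ p.2) := by
  unfold xx
  rw [LinearEquiv.trans_apply, up_apply]
  simp [sub_eq_add_neg]

end XGLUE

open XGLUE in
theorem I_Glue : StGlue := by
  intro V W _ _ X₁ X₂ D₁ D₂ T R Z S Z' g hT hZ hZ' hg
  refine ⟨xx X₁ X₂ R, ((up Z).trans T).trans (lo Z'), fun v => ?_⟩
  have h1 : (((up Z).trans T).trans (lo Z')) (xx X₁ X₂ R v) =
      (D₁ (T (v.1 + Z v.2, v.2)).1, D₂ (T (v.1 + Z v.2, v.2)).2 -
        Z' (D₁ (T (v.1 + Z v.2, v.2)).1)) := by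
    rw [LinearEquiv.trans_apply, LinearEquiv.trans_apply, xx_apply, up_apply, lo_apply]
    have h2 : X₁ v.1 - R (X₂ v.2) + Z (X₂ v.2) = X₁ (v.1 + Z v.2) := by
      rw [map_add, sub_eq_add_neg, ← hZ v.2]
      abel
    simp only
    rw [h2]
    have h3 := hT (v.1 + Z v.2, v.2)
    simp only at h3
    rw [h3]
  rw [h1, LinearEquiv.trans_apply, LinearEquiv.trans_apply, up_apply, lo_apply, xx_apply]
  simp only
  rw [hg, map_sub, ← hZ']
  refine Prod.ext rfl ?_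
  simp only
  abel

end Pool.Agent.StabComm
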