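import Pool.Agent.Work.MP_584b0c_al.Stab.Defs

/-! MP_584b0c_al, item GLUE1: gluing with an identity block. -/

set_option autoImplicit false

namespace Pool.Agent.StabComm

open Polynomial

namespace XGLUE1

/-- intertwining maps and polynomials -/
theorem aeval_inter {M N : Type} [AddCommGroup M] [AddCommGroup N] [Module ℤ M] [Module ℤ N]
    (A : M →ₗ[ℤ] M) (B : N →ₗ[ℤ] N) (e : M →ₗ[ℤ] N) (h : ∀ w, B (e w) = e (A w)) (p : ℤ[X]) :
    ∀ w, aeval B p (e w) = e (aeval A p w) := by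
  induction p using Polynomial.induction_on' with
  | add p q hp hq =>
    intro w
    rw [map_add, map_add, LinearMap.add_apply, LinearMap.add_apply, map_add, hp, hq]
  | monomial n a =>
    have hn : ∀ w, (B ^ n) (e w) = e ((A ^ n) w) := by
      induction n with
      | zero => intro w; rfl
      | succ n ih => intro w; rw [pow_succ, pow_succ, Module.End.mul_apply, Module.End.mul_apply, h, ih]
    intro w
    rw [aeval_monomial, aeval_monomial, Module.End.mul_apply, Module.End.mul_apply, hn]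
    simp

/-- an automorphism of a free module with a prescribed annihilator -/
theorem exists_auto (V : Type) [AddCommGroup V] [Module.Free ℤ V] [Module.Finite ℤ V] (q : ℤ[X])
    (hq : q.Monic) (h0 : q.coeff 0 = 1) (hd : q.natDegree = Module.finrank ℤ V) :
    ∃ X₁ : V ≃ₗ[ℤ] V, aeval (X₁ : V →ₗ[ℤ] V) q = 0 := by
  let pb := AdjoinRoot.powerBasis' hq
  have : Module.Free ℤ (AdjoinRoot q) := Module.Free.of_basis pb.basis
  have : Module.Finite ℤ (AdjoinRoot q) := Module.Finite.of_basis pb.basis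
  have hr : Module.finrank ℤ (AdjoinRoot q) = q.natDegree := by
    rw [pb.finrank]
    rfl
  let e : V ≃ₗ[ℤ] AdjoinRoot q := LinearEquiv.ofFinrankEq V (AdjoinRoot q) (by rw [hr, hd])
  have hroot : aeval (AdjoinRoot.root q) q = 0 := by rw [AdjoinRoot.aeval_eq, AdjoinRoot.mk_self]
  obtain ⟨s, hs⟩ : ∃ s : AdjoinRoot q, AdjoinRoot.root q * s = 1 := by
    refine ⟨-(aeval (AdjoinRoot.root q) q.divX), ?_⟩
    have h1 := congrArg (aeval (AdjoinRoot.root q)) (divX_mul_X_add q)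
    rw [map_add, map_mul, aeval_X, h0, map_one, map_one, hroot] at h1
    rw [mul_neg, mul_comm]
    exact (eq_neg_of_add_eq_zero_right h1).symm
  have hs' : s * AdjoinRoot.root q = 1 := by rw [mul_comm, hs]
  let μ : AdjoinRoot q ≃ₗ[ℤ] AdjoinRoot q :=
    LinearEquiv.ofLinearMap (LinearMap.mulLeft ℤ (AdjoinRoot.root q)) (LinearMap.mulLeft ℤ s)
      (by ext x; simp [← mul_assoc, hs]) (by ext x; simp [← mul_assoc, hs'])
  refine ⟨(e.trans μ).trans e.symm, ?_⟩
  ext v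
  apply e.injective
  have h2 := aeval_inter ((((e.trans μ).trans e.symm : V ≃ₗ[ℤ] V)) : V →ₗ[ℤ] V)
    (LinearMap.mulLeft ℤ (AdjoinRoot.root q)) (e : V →ₗ[ℤ] AdjoinRoot q) (fun w => by
      simp [μ]) q v
  have h3 : aeval (LinearMap.mulLeft ℤ (AdjoinRoot.root q)) q = 0 := by
    have h4 := aeval_algHom_apply (Algebra.lmul ℤ (AdjoinRoot q)) (AdjoinRoot.root q) q
    rw [hroot, map_zero] at h4
    exact h4
  rw [h3] at h2
  rw [LinearMap.zero_apply, map_zero]
  exact h2.symm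

end XGLUE1

theorem I_Glue1 (hG : StGlue) (hS : StSylv) : StGlue1 := by
  intro V W _ _ _ _ _ _ hr h hC R S g hg
  obtain ⟨X₂, P₂, h1⟩ := hC
  set F : ℤ[X] := LinearMap.charpoly (X₂ : W →ₗ[ℤ] W) with hF
  have hFm : F.Monic := LinearMap.charpoly_monic _
  have hFd : F.natDegree = Module.finrank ℤ W := LinearMap.charpoly_natDegree _
  have hF0 : aeval (X₂ : W →ₗ[ℤ] W) F = 0 := LinearMap.aeval_self_charpoly _
  obtain ⟨i, hi⟩ := Nat.exists_eq_add_of_le hr
  have hm : (X ^ (i + 1) * F).Monic := (monic_X_pow _).mul hFm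
  have hmd : (X ^ (i + 1) * F).natDegree = Module.finrank ℤ V := by
    rw [(monic_X_pow _).natDegree_mul hFm, natDegree_X_pow, hFd, hi]
    ring
  have hlt : (1 : ℤ[X]).degree < (X ^ (i + 1) * F).degree := by
    rw [degree_eq_natDegree hm.ne_zero, hmd, degree_one]
    have : 0 < Module.finrank ℤ V := by omega
    exact_mod_cast this
  have hqm : (X ^ (i + 1) * F + 1).Monic := hm.add_of_left hlt
  have hqd : (X ^ (i + 1) * F + 1).natDegree = Module.finrank ℤ V := by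
    rw [← hmd]
    exact natDegree_eq_of_degree_eq (degree_add_eq_left_of_degree_lt hlt)
  have hq0 : (X ^ (i + 1) * F + 1).coeff 0 = 1 := by
    rw [coeff_add, coeff_one_zero, mul_coeff_zero, coeff_X_pow, if_neg (by omega), zero_mul,
      zero_add]
  have hcop : IsCoprime (X ^ (i + 1) * F + 1) F := ⟨1, -X ^ (i + 1), by ring⟩
  obtain ⟨X₁, hX₁⟩ := XGLUE1.exists_auto V _ hqm hq0 hqd
  set D₂ : W →ₗ[ℤ] W := h ∘ₗ (X₂ : W →ₗ[ℤ] W) with hD₂
  have hD₂F : aeval D₂ F = 0 := by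
    ext w
    obtain ⟨w, rfl⟩ := P₂.surjective w
    have h2 := XGLUE1.aeval_inter (X₂ : W →ₗ[ℤ] W) D₂ (P₂ : W →ₗ[ℤ] W) (fun w => h1 w) F w
    rw [hF0, LinearMap.zero_apply, map_zero] at h2
    rw [LinearMap.zero_apply]
    exact h2
  obtain ⟨Z, hZ⟩ := hS V W X₁ X₂ _ F hX₁ hF0 hcop (-(R ∘ₗ (X₂ : W →ₗ[ℤ] W)))
  obtain ⟨Z', hZ'⟩ := hS W V D₂ X₁ F _ hD₂F hX₁ hcop.symm (S ∘ₗ (X₁ : V →ₗ[ℤ] V))
  refine hG V W X₁ X₂ X₁ D₂ ((LinearEquiv.refl ℤ V).prodCongr P₂) R Z S Z' g ?_ ?_ ?_ ?_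
  · rintro ⟨y, z⟩
    simp [hD₂, h1]
  · intro y
    exact hZ y
  · intro y
    exact hZ' y
  · intro y z
    rw [hg]
    simp only [hD₂, map_sub, LinearMap.comp_apply, LinearEquiv.coe_coe, sub_add_cancel,
      Prod.mk.injEq, true_and]
    abel

end Pool.Agent.StabComm
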