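import Pool.Agent.Work.MP_584b0c_al.Stab.Defs

/-! MP_584b0c_al, KRY. -/

set_option autoImplicit false

namespace Pool.Agent.StabComm

open Polynomial

namespace XKRY

theorem finL (m : ℕ) : Module.Finite ℤ (L m) :=
  Module.Finite.equiv (Polynomial.degreeLTEquiv ℤ m).symm

/-- the map `y ↦ y(D) g` -/
noncomputable def kr (m : ℕ) (D : L m →ₗ[ℤ] L m) (g : L m) : L m →ₗ[ℤ] L m where
  toFun y := aeval D (y : ℤ[X]) g
  map_add' y z := by
    rw [Submodule.coe_add, map_add, LinearMap.add_apply]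
  map_smul' n y := by
    rw [Submodule.coe_smul, map_smul, LinearMap.smul_apply]
    rfl

theorem kr_apply (m : ℕ) (D : L m →ₗ[ℤ] L m) (g y : L m) : kr m D g y = aeval D (y : ℤ[X]) g := rfl

theorem ae_mul {V : Type} [AddCommGroup V] (D : V →ₗ[ℤ] V) (p q : ℤ[X]) (v : V) :
    aeval D (p * q) v = aeval D p (aeval D q v) := by
  rw [map_mul, Module.End.mul_apply]

theorem ae_C {V : Type} [AddCommGroup V] (D : V →ₗ[ℤ] V) (n : ℤ) (v : V) :
    aeval D (C n) v = n • v := by
  rw [aeval_C, Module.algebraMap_end_apply]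

theorem ae_X {V : Type} [AddCommGroup V] (D : V →ₗ[ℤ] V) (v : V) :
    aeval D (X : ℤ[X]) v = D v := by
  rw [aeval_X]

theorem stable {V : Type} [AddCommGroup V] (D : V →ₗ[ℤ] V) (M : Submodule ℤ V)
    (h : ∀ v ∈ M, D v ∈ M) (q : ℤ[X]) : ∀ v ∈ M, aeval D q v ∈ M := by
  induction q using Polynomial.induction_on' with
  | add p q hp hq =>
    intro v hv
    rw [map_add, LinearMap.add_apply]
    exact M.add_mem (hp v hv) (hq v hv)
  | monomial n a =>
    intro v hv
    rw [← C_mul_X_pow_eq_monomial, ae_mul, ae_C]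
    refine M.smul_mem _ ?_
    induction n with
    | zero => simpa using hv
    | succ n ih =>
      rw [pow_succ', ae_mul, ae_X]
      exact h _ ih

theorem main (hR : StRel) : StKry := by
  intro m a b c d u w X₁ X₂ D₂ hm hu hud hwd hu0 hw0 huw hX₁ hX₂ hD
  have he : (1 : ℤ[X]) ∈ degreeLT ℤ m := by
    rw [mem_degreeLT]
    refine lt_of_le_of_lt degree_one_le ?_
    exact_mod_cast (by omega : 0 < m)
  have hg : (C c - u : ℤ[X]) ∈ degreeLT ℤ m := by
    rw [mem_degreeLT]
    refine lt_of_le_of_lt (degree_sub_le _ _) (max_lt ?_ ?_)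
    · refine lt_of_le_of_lt degree_C_le ?_
      exact_mod_cast (by omega : 0 < m)
    · refine lt_of_le_of_lt degree_le_natDegree ?_
      rw [hud]
      exact_mod_cast (by omega : m - 1 < m)
  set e : L m := ⟨1, he⟩ with hee
  set g : L m := ⟨C c - u, hg⟩ with hgg
  obtain ⟨h1, h2, h3⟩ := hR m a b c d u w X₂ D₂ e g hm hu hud hwd hu0 hw0 hX₂ hD rfl rfl
  have hf : aeval D₂ (C a * w - (C b + X) * u) g = 0 := by
    have e1 : aeval D₂ w (a • g + aeval D₂ u e) = 0 := by rw [h2, map_zero]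
    have e2 : aeval D₂ u (b • g + D₂ g + aeval D₂ w e) = 0 := by rw [h3, map_zero]
    have e3 : aeval D₂ w (aeval D₂ u e) = aeval D₂ u (aeval D₂ w e) := by
      rw [← ae_mul, ← ae_mul, mul_comm]
    rw [map_add, map_smul, e3] at e1
    rw [map_add, map_add, map_smul] at e2
    have e4 : aeval D₂ u (D₂ g) = aeval D₂ (X * u) g := by
      rw [mul_comm, ae_mul, ae_X]
    rw [map_sub, LinearMap.sub_apply, add_mul, map_add, LinearMap.add_apply, ae_mul, ae_C, ae_mul,
      ae_C, ← e4]
    have e5 : a • aeval D₂ w g = - aeval D₂ u (aeval D₂ w e) := eq_neg_of_add_eq_zero_left e1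
    have e6 : b • aeval D₂ u g + aeval D₂ u (D₂ g) = - aeval D₂ u (aeval D₂ w e) :=
      eq_neg_of_add_eq_zero_left e2
    rw [e5, e6, sub_self]
  have hK : ∀ y, D₂ (kr m D₂ g y) = kr m D₂ g (X₁ y) := by
    intro y
    rw [kr_apply, kr_apply, hX₁ y, map_sub, LinearMap.sub_apply, ae_mul D₂ (C _), hf, map_zero,
      sub_zero, ae_mul, ae_X]
  set M : Submodule ℤ (L m) := LinearMap.range (kr m D₂ g) with hM
  have hst : ∀ v ∈ M, D₂ v ∈ M := by
    rintro _ ⟨y, rfl⟩
    exact ⟨X₁ y, (hK y).symm⟩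
  have hgM : g ∈ M := ⟨e, by
    rw [kr_apply]
    show aeval D₂ (1 : ℤ[X]) g = g
    rw [map_one]; rfl⟩
  have hqM : ∀ q : ℤ[X], ∀ v ∈ M, aeval D₂ q v ∈ M := stable D₂ M hst
  have heM : e ∈ M := by
    obtain ⟨α, β, hαβ⟩ := huw
    have e1 : e = aeval D₂ α (aeval D₂ u e) + aeval D₂ β (aeval D₂ w e) := by
      rw [← ae_mul, ← ae_mul, ← LinearMap.add_apply, ← map_add, hαβ, map_one]; rfl
    have e2 : aeval D₂ u e = -(a • g) := eq_neg_of_add_eq_zero_right h2
    have e3 : aeval D₂ w e = -(b • g + D₂ g) := eq_neg_of_add_eq_zero_right h3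
    rw [e1, e2, e3]
    exact M.add_mem (hqM _ _ (M.neg_mem (M.smul_mem _ hgM)))
      (hqM _ _ (M.neg_mem (M.add_mem (M.smul_mem _ hgM) (hst _ hgM))))
  have hpow : ∀ i, (D₂ ^ i) e ∈ M := by
    intro i
    induction i with
    | zero => exact heM
    | succ i ih => rw [pow_succ']; exact hst _ ih
  have htop : ∀ y : L m, y ∈ M := by
    intro y
    set k := (y : ℤ[X]).coeff (m - 1) with hk
    have hgc : (g : ℤ[X]).coeff (m - 1) = 1 := by
      show (C c - u).coeff (m - 1) = 1
      have h4 : (-u).coeff (m - 1) = 1 := by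
        have h5 := hu.coeff_natDegree
        rwa [natDegree_neg, hud] at h5
      rw [coeff_sub, coeff_C, if_neg (by omega), zero_sub, ← coeff_neg, h4]
    have h4 : y - k • g = ∑ i ∈ Finset.range (m - 1), ((y - k • g : L m) : ℤ[X]).coeff i •
        (D₂ ^ i) e := by
      apply Subtype.ext
      have h5 : ((y - k • g : L m) : ℤ[X]).natDegree < m - 1 := by
        rw [Nat.lt_iff_le_pred (by omega), natDegree_le_iff_coeff_eq_zero]
        intro N hN
        have h6 : ((y - k • g : L m) : ℤ[X]) = (y : ℤ[X]) - k • (g : ℤ[X]) := rfl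
        by_cases hN' : N = m - 1
        · rw [h6, hN', coeff_sub, coeff_smul, hgc, hk, smul_eq_mul, mul_one, sub_self]
        · have h7 := (y - k • g : L m).2
          rw [mem_degreeLT] at h7
          exact coeff_eq_zero_of_degree_lt (lt_of_lt_of_le h7 (by exact_mod_cast (by omega : m ≤ N)))
      have h6 := as_sum_range' ((y - k • g : L m) : ℤ[X]) (m - 1) h5
      conv_lhs => rw [h6]
      rw [Submodule.coe_sum]
      refine Finset.sum_congr rfl fun i hi => ?_
      rw [Finset.mem_range] at hi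
      rw [Submodule.coe_smul, h1 i (by omega), ← C_mul_X_pow_eq_monomial, smul_eq_C_mul]
    have h5 : y = k • g + (y - k • g) := by abel
    rw [h5, h4]
    exact M.add_mem (M.smul_mem _ hgM) (M.sum_mem fun i _ => M.smul_mem _ (hpow i))
  have hsurj : Function.Surjective (kr m D₂ g) := fun y => htop y
  have := finL m
  have hinj : Function.Injective (kr m D₂ g) :=
    OrzechProperty.injective_of_surjective_endomorphism _ hsurj
  exact ⟨LinearEquiv.ofBijective (kr m D₂ g) ⟨hinj, hsurj⟩, hK⟩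

end XKRY

theorem I_Kry (hR : StRel) : StKry := XKRY.main hR

end Pool.Agent.StabComm
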