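import Pool.Agent.Work.MP_584b0c_al.Stab.Defs

/-!
# Item LIFT: unimodular vectors modulo `a` lift
-/

set_option autoImplicit false

namespace Pool.Agent.StabComm

namespace XLIFT

/-- `gcd (A, y, a) = 1`, `A ≠ 0`: some `y + t a` is coprime to `A` -/
theorem exists_t (A y a : ℤ) (hA : A ≠ 0)
    (h : ∀ p : ℕ, p.Prime → (p : ℤ) ∣ A → (p : ℤ) ∣ y → (p : ℤ) ∣ a → False) :
    ∃ t : ℤ, IsCoprime A (y + t * a) := by
  classical
  let S : Finset ℕ := A.natAbs.primeFactors.filter (fun p => ¬ (p : ℤ) ∣ y)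
  refine ⟨((∏ p ∈ S, p : ℕ) : ℤ), ?_⟩
  rw [Int.isCoprime_iff_gcd_eq_one]
  by_contra hne
  obtain ⟨p, hp, hpd⟩ := Nat.exists_prime_and_dvd hne
  have hpA : (p : ℤ) ∣ A := (Int.natCast_dvd_natCast.2 hpd).trans (Int.gcd_dvd_left ..)
  have hpB : (p : ℤ) ∣ y + ((∏ p ∈ S, p : ℕ) : ℤ) * a :=
    (Int.natCast_dvd_natCast.2 hpd).trans (Int.gcd_dvd_right ..)
  have hpZ : Prime (p : ℤ) := Nat.prime_iff_prime_int.1 hp
  by_cases hy : (p : ℤ) ∣ y
  · have h1 : (p : ℤ) ∣ ((∏ p ∈ S, p : ℕ) : ℤ) * a := (dvd_add_right hy).1 hpB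
    rcases hpZ.dvd_or_dvd h1 with h2 | h2
    · have h3 : p ∣ ∏ p ∈ S, p := Int.natCast_dvd_natCast.1 h2
      obtain ⟨q, hq, hpq⟩ := (hp.prime.dvd_finset_prod_iff _).1 h3
      have hq' := Finset.mem_filter.1 hq
      have hqp : q.Prime := Nat.prime_of_mem_primeFactors hq'.1
      have : p = q := (Nat.prime_dvd_prime_iff_eq hp hqp).1 hpq
      exact hq'.2 (this ▸ hy)
    · exact h p hp hpA hy h2
  · have hmem : p ∈ S := by
      refine Finset.mem_filter.2 ⟨?_, hy⟩
      exact Nat.mem_primeFactors.2 ⟨hp, Int.natCast_dvd.1 hpA, Int.natAbs_ne_zero.2 hA⟩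
    have h1 : (p : ℤ) ∣ ((∏ p ∈ S, p : ℕ) : ℤ) :=
      Int.natCast_dvd_natCast.2 (Finset.dvd_prod_of_mem _ hmem)
    exact hy ((dvd_add_left (h1.mul_right a)).1 hpB)

end XLIFT

open XLIFT in
theorem I_Lift : StLift := by
  intro k hk a c₀ h c hc
  classical
  by_cases ha : a = 0
  · refine ⟨0, c, ?_⟩
    subst ha
    simpa using hc
  let i0 : Fin k := ⟨0, by omega⟩
  let i1 : Fin k := ⟨1, by omega⟩
  have h01 : i0 ≠ i1 := by
    intro h
    have := congrArg Fin.val h
    simp [i0, i1] at this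
  -- the first entry
  obtain ⟨w, hw⟩ : ∃ w : ℤ, h i0 - a * w ≠ 0 := by
    by_cases h0 : h i0 = 0
    · exact ⟨1, by rw [h0]; simpa using ha⟩
    · exact ⟨0, by simpa using h0⟩
  let s : Fin k → ℤ := fun i => if i = i1 then 0 else if i = i0 then h i0 - a * w else h i
  obtain ⟨A, hA⟩ := (IsPrincipalIdealRing.principal (Ideal.span (Set.range s))).principal
  have hAs : ∀ i, A ∣ s i := by
    intro i
    have h1 : s i ∈ Ideal.span (Set.range s) := Ideal.subset_span ⟨i, rfl⟩
    rw [hA] at h1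
    exact Ideal.mem_span_singleton.1 h1
  obtain ⟨θ', hθ'⟩ : ∃ θ' : Fin k → ℤ, ∑ i, θ' i * s i = A := by
    apply (Ideal.mem_span_range_iff_exists_fun).1
    rw [hA]
    exact Ideal.mem_span_singleton_self A
  have hs0 : s i0 = h i0 - a * w := by simp [s, h01]
  have hA0 : A ≠ 0 := by
    intro h0
    apply hw
    have := hAs i0
    rw [h0, hs0] at this
    exact zero_dvd_iff.1 this
  obtain ⟨t, u, v, huv⟩ := exists_t A (h i1) a hA0 (by
    intro p hp hpA hpy hpa
    have hpall : ∀ i, (p : ℤ) ∣ h i := by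
      intro i
      by_cases h1 : i = i1
      · rw [h1]; exact hpy
      by_cases h0 : i = i0
      · have h2 := hpA.trans (hAs i0)
        rw [hs0] at h2
        rw [h0]
        exact (dvd_sub_left (hpa.mul_right w)).1 h2
      · have h2 := hpA.trans (hAs i)
        simpa [s, h1, h0] using h2
    have h3 : (p : ℤ) ∣ 1 := by
      rw [← hc]
      refine dvd_add (hpa.mul_left _) ?_
      exact Finset.dvd_sum fun i _ => (hpall i).mul_left _
    have h4 : p ∣ 1 := by exact_mod_cast h3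
    exact hp.one_lt.ne' (Nat.dvd_one.1 h4))
  refine ⟨fun i => if i = i1 then -t else if i = i0 then w else 0,
    fun i => if i = i1 then v else u * θ' i, ?_⟩
  have key : ∀ i, (if i = i1 then v else u * θ' i) *
      (h i - a * (if i = i1 then -t else if i = i0 then w else 0)) =
      u * (θ' i * s i) + if i = i1 then v * (h i1 + t * a) else 0 := by
    intro i
    by_cases h1 : i = i1
    · subst h1
      have h2 : h i1 - a * (-t) = h i1 + t * a := by ring
      simp only [if_true, s, h2, mul_zero, zero_add]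
    · by_cases h0 : i = i0
      · subst h0
        simp [s, h01]
        ring
      · simp [s, h1, h0]
        ring
  simp only [dotProduct, Pi.sub_apply, Pi.smul_apply, smul_eq_mul]
  rw [Finset.sum_congr rfl (fun i _ => key i), Finset.sum_add_distrib, ← Finset.mul_sum, hθ',
    Finset.sum_ite_eq' Finset.univ i1]
  simpa using huv

end Pool.Agent.StabComm
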