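import Pool.Agent.Work.MP_584b0c_al.Stab.Defs

set_option autoImplicit false

/-!
MP_584b0c_al, item MCONJ: stability is invariant under conjugation of matrices.
-/

namespace Pool.Agent.StabComm

theorem I_Mconj : StMconj := by
  intro n m _ _ _ _ C D P Q hPQ hQP hPC hD
  have hQD : Q * D = C * Q := by
    calc Q * D = Q * D * (P * Q) := by rw [hPQ, Matrix.mul_one]
      _ = Q * (D * P) * Q := by simp only [Matrix.mul_assoc]
      _ = Q * (P * C) * Q := by rw [hPC]
      _ = (Q * P) * C * Q := by simp only [Matrix.mul_assoc]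
      _ = C * Q := by rw [hQP, Matrix.one_mul]
  have hD' : St (Matrix.toLin' D) := hD
  have hgoal : St (Matrix.toLin' C) := by
    refine St.conj (Matrix.toLin'OfInv hPQ hQP) ?_ hD'
    intro v
    simp [Matrix.toLin'OfInv, hQD]
  exact hgoal

end Pool.Agent.StabComm
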