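import Pool.Agent.Work.MP_584b0c_al.Stab.Defs

set_option autoImplicit false

/-!
MP_584b0c_al, block ST, item MFIN.
-/

namespace Pool.Agent.StabComm

namespace XMFIN

/-- Rearrangement of the blocks. -/
def eqv (k i j : ℕ) : (((Fin k → ℤ) × (Fin i → ℤ)) × (Fin j → ℤ)) ≃ₗ[ℤ]
    (Fin k ⊕ Fin (i + j) → ℤ) where
  toFun x := Sum.elim x.1.1 (fun t => Sum.elim x.1.2 x.2 (finSumFinEquiv.symm t))
  invFun y := ((fun s => y (Sum.inl s), fun s => y (Sum.inr (finSumFinEquiv (Sum.inl s)))),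
    fun s => y (Sum.inr (finSumFinEquiv (Sum.inr s))))
  left_inv x := by
    refine Prod.ext (Prod.ext ?_ ?_) ?_
    · funext s; rfl
    · funext s; simp
    · funext s; simp
  right_inv y := by
    funext s
    rcases s with s | s
    · rfl
    · obtain ⟨t, rfl⟩ := finSumFinEquiv.surjective s
      rcases t with t | t <;> simp
  map_add' x y := by
    funext s
    rcases s with s | s
    · rfl
    · obtain ⟨t, rfl⟩ := finSumFinEquiv.surjective s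
      rcases t with t | t <;> simp
  map_smul' c x := by
    funext s
    rcases s with s | s
    · rfl
    · obtain ⟨t, rfl⟩ := finSumFinEquiv.surjective s
      rcases t with t | t <;> simp

theorem eqv_comm (k i j : ℕ) (C : Matrix (Fin k) (Fin k) ℤ)
    (v : ((Fin k → ℤ) × (Fin i → ℤ)) × (Fin j → ℤ)) :
    eqv k i j ((((Matrix.toLin' C).prodMap
      (LinearMap.id : (Fin i → ℤ) →ₗ[ℤ] (Fin i → ℤ))).prodMap
      (LinearMap.id : (Fin j → ℤ) →ₗ[ℤ] (Fin j → ℤ))) v) =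
    (Matrix.fromBlocks C 0 0 (1 : Matrix (Fin (i + j)) (Fin (i + j)) ℤ)).mulVec
      (eqv k i j v) := by
  obtain ⟨⟨x, y⟩, z⟩ := v
  show Sum.elim (C.mulVec x) (fun t => Sum.elim y z (finSumFinEquiv.symm t)) =
    (Matrix.fromBlocks C 0 0 (1 : Matrix (Fin (i + j)) (Fin (i + j)) ℤ)).mulVec
      (Sum.elim x (fun t => Sum.elim y z (finSumFinEquiv.symm t)))
  rw [Matrix.fromBlocks_mulVec]
  simp

theorem fin_aux {n : Type} [Fintype n] [DecidableEq n] (M : Matrix n n ℤ)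
    (X P : (n → ℤ) ≃ₗ[ℤ] (n → ℤ)) (h : ∀ v, M.mulVec (X (P v)) = P (X v)) :
    ∃ A B : (Matrix n n ℤ)ˣ, ((A * B * A⁻¹ * B⁻¹ : (Matrix n n ℤ)ˣ) : Matrix n n ℤ) = M := by
  have hu : ∀ Y : (n → ℤ) ≃ₗ[ℤ] (n → ℤ),
      LinearMap.toMatrix' (Y : (n → ℤ) →ₗ[ℤ] (n → ℤ)) *
        LinearMap.toMatrix' (Y.symm : (n → ℤ) →ₗ[ℤ] (n → ℤ)) = 1 := by
    intro Y
    rw [← LinearMap.toMatrix'_comp]
    have h1 : (Y : (n → ℤ) →ₗ[ℤ] (n → ℤ)) ∘ₗ (Y.symm : (n → ℤ) →ₗ[ℤ] (n → ℤ)) =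
        LinearMap.id := by
      apply LinearMap.ext
      intro v
      simp
    rw [h1, LinearMap.toMatrix'_id]
  have hu' : ∀ Y : (n → ℤ) ≃ₗ[ℤ] (n → ℤ),
      LinearMap.toMatrix' (Y.symm : (n → ℤ) →ₗ[ℤ] (n → ℤ)) *
        LinearMap.toMatrix' (Y : (n → ℤ) →ₗ[ℤ] (n → ℤ)) = 1 := by
    intro Y
    rw [← LinearMap.toMatrix'_comp]
    have h1 : (Y.symm : (n → ℤ) →ₗ[ℤ] (n → ℤ)) ∘ₗ (Y : (n → ℤ) →ₗ[ℤ] (n → ℤ)) =
        LinearMap.id := by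
      apply LinearMap.ext
      intro v
      simp
    rw [h1, LinearMap.toMatrix'_id]
  let A : (Matrix n n ℤ)ˣ := ⟨LinearMap.toMatrix' (P : (n → ℤ) →ₗ[ℤ] (n → ℤ)),
    LinearMap.toMatrix' (P.symm : (n → ℤ) →ₗ[ℤ] (n → ℤ)), hu P, hu' P⟩
  let B : (Matrix n n ℤ)ˣ := ⟨LinearMap.toMatrix' (X : (n → ℤ) →ₗ[ℤ] (n → ℤ)),
    LinearMap.toMatrix' (X.symm : (n → ℤ) →ₗ[ℤ] (n → ℤ)), hu X, hu' X⟩
  have hAB : M * ((B * A : (Matrix n n ℤ)ˣ) : Matrix n n ℤ) =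
      ((A * B : (Matrix n n ℤ)ˣ) : Matrix n n ℤ) := by
    show M * (LinearMap.toMatrix' (X : (n → ℤ) →ₗ[ℤ] (n → ℤ)) *
      LinearMap.toMatrix' (P : (n → ℤ) →ₗ[ℤ] (n → ℤ))) =
      LinearMap.toMatrix' (P : (n → ℤ) →ₗ[ℤ] (n → ℤ)) *
      LinearMap.toMatrix' (X : (n → ℤ) →ₗ[ℤ] (n → ℤ))
    have hM : M = LinearMap.toMatrix' (Matrix.toLin' M) := (LinearMap.toMatrix'_toLin' M).symm
    rw [← LinearMap.toMatrix'_comp, ← LinearMap.toMatrix'_comp]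
    conv_lhs => rw [hM]
    rw [← LinearMap.toMatrix'_comp]
    congr 1
    apply LinearMap.ext
    intro v
    show (Matrix.toLin' M) (X (P v)) = P (X v)
    rw [Matrix.toLin'_apply]
    exact h v
  refine ⟨A, B, ?_⟩
  have h2 : A * B * A⁻¹ * B⁻¹ = (A * B) * (B * A)⁻¹ := by
    rw [mul_inv_rev]
    simp only [mul_assoc]
  rw [h2, Units.val_mul, ← hAB, Units.mul_inv_cancel_right]

end XMFIN

theorem I_Mfin (h : StPad) : StMfin := by
  intro k C hC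
  obtain ⟨i, hi⟩ := hC
  refine ⟨i + (k + i + 1), fun j hj => ?_⟩
  obtain ⟨j', rfl⟩ : ∃ j', j = i + j' := ⟨j - i, by omega⟩
  have hj' : k + i + 1 ≤ j' := by omega
  have hfr : Module.finrank ℤ ((Fin k → ℤ) × (Fin i → ℤ)) + 1 ≤ j' := by
    have h1 : Module.finrank ℤ ((Fin k → ℤ) × (Fin i → ℤ)) = k + i := by
      rw [Module.finrank_prod, Module.finrank_fin_fun, Module.finrank_fin_fun]
    rw [h1]
    exact hj'
  have h1 := h ((Fin k → ℤ) × (Fin i → ℤ)) _ hi j' hfr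
  have h2 : IsC (Matrix.toLin'
      (Matrix.fromBlocks C 0 0 (1 : Matrix (Fin (i + j')) (Fin (i + j')) ℤ))) := by
    refine IsC.conj (XMFIN.eqv k i j') ?_ h1
    intro v
    exact XMFIN.eqv_comm k i j' C v
  obtain ⟨X, P, hXP⟩ := h2
  exact XMFIN.fin_aux _ X P (fun v => hXP v)

end Pool.Agent.StabComm
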