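import Pool.Agent.Work.MP_584b0c_al.Stab.Defs

/-!
MP_584b0c_al, item MPIVOT.
-/

set_option autoImplicit false

namespace Pool.Agent.StabComm

namespace XMPIVOT

variable {p n : Type} [Fintype p] [DecidableEq p] [Fintype n] [DecidableEq n]

/-- the matrix as a map of the product -/
noncomputable def gm (M : Matrix (p ⊕ n) (p ⊕ n) ℤ) :
    (p → ℤ) × (n → ℤ) →ₗ[ℤ] (p → ℤ) × (n → ℤ) where
  toFun x := (fun i => M.mulVec (Sum.elim x.1 x.2) (Sum.inl i),
    fun i => M.mulVec (Sum.elim x.1 x.2) (Sum.inr i))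
  map_add' x y := by
    have h : Sum.elim (x + y).1 (x + y).2 = Sum.elim x.1 x.2 + Sum.elim y.1 y.2 := by
      funext i
      rcases i with i | i <;> rfl
    rw [h, Matrix.mulVec_add]
    rfl
  map_smul' c x := by
    have h : Sum.elim (c • x).1 (c • x).2 = c • Sum.elim x.1 x.2 := by
      funext i
      rcases i with i | i <;> rfl
    rw [h, Matrix.mulVec_smul]
    rfl

/-- the product and the sum -/
def eq : ((p → ℤ) × (n → ℤ)) ≃ₗ[ℤ] (p ⊕ n → ℤ) where
  toFun x := Sum.elim x.1 x.2
  invFun y := (fun i => y (Sum.inl i), fun i => y (Sum.inr i))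
  left_inv x := rfl
  right_inv y := by
    funext i
    rcases i with i | i <;> rfl
  map_add' x y := by
    funext i
    rcases i with i | i <;> rfl
  map_smul' c x := by
    funext i
    rcases i with i | i <;> rfl

theorem gm_apply (R : Matrix p n ℤ) (S : Matrix n p ℤ) (C : Matrix n n ℤ) (y : p → ℤ)
    (z : n → ℤ) : gm (Matrix.fromBlocks 1 R S (C + S * R)) (y, z) =
      (y + Matrix.toLin' R z, Matrix.toLin' S y + Matrix.toLin' C z +
        Matrix.toLin' S (Matrix.toLin' R z)) := by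
  have h : (Matrix.fromBlocks 1 R S (C + S * R)).mulVec (Sum.elim y z) =
      Sum.elim (y + R.mulVec z) (S.mulVec y + C.mulVec z + S.mulVec (R.mulVec z)) := by
    rw [Matrix.fromBlocks_mulVec]
    have h1 : (Sum.elim y z) ∘ Sum.inl = y := rfl
    have h2 : (Sum.elim y z) ∘ Sum.inr = z := rfl
    rw [h1, h2, Matrix.one_mulVec, Matrix.add_mulVec, Matrix.mulVec_mulVec, add_assoc]
  apply Prod.ext
  · funext i
    show (Matrix.fromBlocks 1 R S (C + S * R)).mulVec (Sum.elim y z) (Sum.inl i) = _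
    rw [h]
    rfl
  · funext i
    show (Matrix.fromBlocks 1 R S (C + S * R)).mulVec (Sum.elim y z) (Sum.inr i) = _
    rw [h]
    rfl

end XMPIVOT

theorem I_Mpivot (h : StPivot) : StMpivot := by
  intro p n _ _ _ _ R S C hC
  have h1 : St (XMPIVOT.gm (Matrix.fromBlocks 1 R S (C + S * R))) :=
    h (p → ℤ) (n → ℤ) (Matrix.toLin' C) (Matrix.toLin' R) (Matrix.toLin' S) _
      (fun y z => XMPIVOT.gm_apply R S C y z) hC
  refine St.conj (XMPIVOT.eq (p := p) (n := n)) ?_ h1
  intro v
  funext i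
  rcases i with i | i <;> rfl

end Pool.Agent.StabComm
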