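import Pool.Agent.Work.MP_584b0c_al.Stab.Defs

set_option autoImplicit false

namespace Pool.Agent.StabComm

open Polynomial

namespace XMULQ

theorem key {m : ℕ} {f : ℤ[X]} {Xf : L m →ₗ[ℤ] L m} (hf : f.Monic) (hd : f.natDegree = m)
    (h : IsMul m f Xf) (y : L m) : ((Xf y : L m) : ℤ[X]) = (X * (y : ℤ[X])) %ₘ f := by
  have hdeg : f.degree = (m : WithBot ℕ) := by
    rw [degree_eq_natDegree hf.ne_zero, hd]
  have h1 : ((Xf y : L m) : ℤ[X]).degree < f.degree := by
    rw [hdeg]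
    exact Polynomial.mem_degreeLT.1 (Xf y).2
  have h2 : ((Xf y : L m) : ℤ[X]) + f * C ((y : ℤ[X]).coeff (m - 1)) = X * (y : ℤ[X]) := by
    rw [h y]
    ring
  exact (div_modByMonic_unique _ _ hf ⟨h2, h1⟩).2.symm

theorem mulmod {f : ℤ[X]} (hf : f.Monic) (p q : ℤ[X]) :
    (p * (q %ₘ f)) %ₘ f = (p * q) %ₘ f := by
  conv_rhs => rw [← modByMonic_add_div q f]
  rw [mul_add, add_modByMonic]
  have : p * (f * (q /ₘ f)) = f * (p * (q /ₘ f)) := by ring
  rw [this]
  have h0 : (f * (p * (q /ₘ f))) %ₘ f = 0 := (modByMonic_eq_zero_iff_dvd hf).2 (dvd_mul_right _ _)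
  rw [h0, add_zero]

end XMULQ

theorem I_MulQ : StMulQ := by
  intro m f Xf _ hf hd h q
  induction q using Polynomial.induction_on with
  | C a =>
    intro y
    have h1 : (aeval Xf (C a)) y = a • y := by
      rw [aeval_C]
      rfl
    rw [h1, ← smul_eq_C_mul, smul_modByMonic]
    have h2 : (y : ℤ[X]) %ₘ f = (y : ℤ[X]) := by
      rw [modByMonic_eq_self_iff hf, degree_eq_natDegree hf.ne_zero, hd]
      exact Polynomial.mem_degreeLT.1 y.2
    rw [h2]
    rfl
  | add p q hp hq =>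
    intro y
    rw [map_add, LinearMap.add_apply, Submodule.coe_add, hp y, hq y, add_mul, add_modByMonic]
  | monomial n a ih =>
    intro y
    have h1 : (aeval Xf (C a * X ^ (n + 1))) y = Xf ((aeval Xf (C a * X ^ n)) y) := by
      have e : (C a * X ^ (n + 1) : ℤ[X]) = X * (C a * X ^ n) := by ring
      rw [e, map_mul, aeval_X]
      rfl
    rw [h1, XMULQ.key hf hd h, ih y, XMULQ.mulmod hf]
    congr 1
    ring

end Pool.Agent.StabComm
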