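import Pool.Agent.Work.MP_584b0c_al.Stab.Defs

set_option autoImplicit false

/-!
MP_584b0c_al, item MULX: multiplication by `X` modulo a monic polynomial with constant
coefficient `1` is bijective.
-/

namespace Pool.Agent.StabComm

namespace XMULX

open Polynomial

theorem mem_iff (m : ℕ) (p : ℤ[X]) : p ∈ Polynomial.degreeLT ℤ m ↔ ∀ k, m ≤ k → p.coeff k = 0 := by
  rw [Polynomial.mem_degreeLT, Polynomial.degree_lt_iff_coeff_zero]

theorem coeff_zero_of_ge {m : ℕ} (y : L m) {k : ℕ} (hk : m ≤ k) : (y : ℤ[X]).coeff k = 0 :=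
  (mem_iff m y).1 y.2 k hk

theorem fwd_mem {m : ℕ} {f : ℤ[X]} (hm : 1 ≤ m) (hf : f.Monic) (hd : f.natDegree = m) (y : L m) :
    X * (y : ℤ[X]) - C ((y : ℤ[X]).coeff (m - 1)) * f ∈ Polynomial.degreeLT ℤ m := by
  rw [mem_iff]
  intro k hk
  obtain ⟨j, rfl⟩ : ∃ j, k = j + 1 := ⟨k - 1, by omega⟩
  rw [coeff_sub, coeff_X_mul, coeff_C_mul]
  rcases Nat.lt_or_ge m (j + 1) with h | h
  · have h1 : (y : ℤ[X]).coeff j = 0 := coeff_zero_of_ge y (by omega)
    have h2 : f.coeff (j + 1) = 0 := Polynomial.coeff_eq_zero_of_natDegree_lt (by omega)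
    rw [h1, h2]
    ring
  · have h3 : j + 1 = m := by omega
    have h4 : f.coeff (j + 1) = 1 := by
      rw [h3, ← hd]
      exact hf
    have h5 : m - 1 = j := by omega
    rw [h4, h5]
    ring

theorem bwd_mem {m : ℕ} {f : ℤ[X]} (_hm : 1 ≤ m) (hd : f.natDegree = m) (y : L m) :
    ((y : ℤ[X]) - C ((y : ℤ[X]).coeff 0) * f).divX ∈ Polynomial.degreeLT ℤ m := by
  rw [mem_iff]
  intro k hk
  rw [coeff_divX, coeff_sub, coeff_C_mul]
  have h1 : (y : ℤ[X]).coeff (k + 1) = 0 := coeff_zero_of_ge y (by omega)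
  have h2 : f.coeff (k + 1) = 0 := Polynomial.coeff_eq_zero_of_natDegree_lt (by omega)
  rw [h1, h2]
  ring

theorem divX_X_mul (p : ℤ[X]) : (X * p).divX = p := by
  ext n
  rw [coeff_divX, coeff_X_mul]

theorem X_mul_divX {p : ℤ[X]} (h : p.coeff 0 = 0) : X * p.divX = p := by
  have h1 := Polynomial.X_mul_divX_add p
  rw [h, C_0, add_zero] at h1
  exact h1

/-- The linear map. -/
noncomputable def fwd (m : ℕ) (f : ℤ[X]) (hm : 1 ≤ m) (hf : f.Monic) (hd : f.natDegree = m) :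
    L m →ₗ[ℤ] L m where
  toFun y := ⟨X * (y : ℤ[X]) - C ((y : ℤ[X]).coeff (m - 1)) * f, fwd_mem hm hf hd y⟩
  map_add' y z := by
    apply Subtype.ext
    simp only [Submodule.coe_add, coeff_add, C_add]
    ring
  map_smul' c y := by
    apply Subtype.ext
    simp only [Submodule.coe_smul, coeff_smul, smul_eq_mul, RingHom.id_apply, C_mul]
    rw [Polynomial.smul_eq_C_mul, Polynomial.smul_eq_C_mul]
    ring

theorem fwd_apply (m : ℕ) (f : ℤ[X]) (hm : 1 ≤ m) (hf : f.Monic) (hd : f.natDegree = m) (y : L m) :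
    ((fwd m f hm hf hd y : L m) : ℤ[X]) = X * (y : ℤ[X]) - C ((y : ℤ[X]).coeff (m - 1)) * f := rfl

theorem fwd_bij (m : ℕ) (f : ℤ[X]) (hm : 1 ≤ m) (hf : f.Monic) (hd : f.natDegree = m)
    (h0 : f.coeff 0 = 1) : Function.Bijective (fwd m f hm hf hd) := by
  constructor
  · rw [injective_iff_map_eq_zero]
    intro y hy
    have h1 : X * (y : ℤ[X]) - C ((y : ℤ[X]).coeff (m - 1)) * f = 0 := by
      rw [← fwd_apply m f hm hf hd y, hy]
      rfl
    have h2 : (y : ℤ[X]).coeff (m - 1) = 0 := by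
      have h3 := congrArg (fun p => Polynomial.coeff p 0) h1
      simp only [coeff_sub, coeff_X_mul_zero, coeff_C_mul, h0, coeff_zero] at h3
      linarith
    rw [h2, C_0, zero_mul, sub_zero] at h1
    have h4 : (y : ℤ[X]) = 0 := by
      rw [← divX_X_mul (y : ℤ[X]), h1, divX_zero]
    exact Subtype.ext h4
  · intro y
    refine ⟨⟨((y : ℤ[X]) - C ((y : ℤ[X]).coeff 0) * f).divX, bwd_mem hm hd y⟩, ?_⟩
    apply Subtype.ext
    rw [fwd_apply]
    have h1 : ((y : ℤ[X]) - C ((y : ℤ[X]).coeff 0) * f).coeff 0 = 0 := by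
      rw [coeff_sub, coeff_C_mul, h0]
      ring
    have h2 : (((y : ℤ[X]) - C ((y : ℤ[X]).coeff 0) * f).divX).coeff (m - 1) =
        -(y : ℤ[X]).coeff 0 := by
      rw [coeff_divX, coeff_sub, coeff_C_mul, Nat.sub_add_cancel hm]
      have h3 : (y : ℤ[X]).coeff m = 0 := coeff_zero_of_ge y le_rfl
      have h4 : f.coeff m = 1 := by
        rw [← hd]
        exact hf
      rw [h3, h4]
      ring
    simp only
    rw [X_mul_divX h1, h2, C_neg]
    ring

end XMULX

theorem I_MulX : StMulX := by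
  intro m f hm hf hd h0
  refine ⟨LinearEquiv.ofBijective (XMULX.fwd m f hm hf hd) (XMULX.fwd_bij m f hm hf hd h0), ?_⟩
  intro y
  rw [LinearEquiv.ofBijective_apply]
  exact XMULX.fwd_apply m f hm hf hd y

end Pool.Agent.StabComm
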