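import Pool.Agent.Work.MP_584b0c_al.Stab.Defs

set_option autoImplicit false

/-!
MP_584b0c_al, project STAB, item NF: normal form of a matrix of size two.
-/

namespace Pool.Agent.StabComm

namespace XNF

open Matrix

/-- the matrix part: a basis in which `N` has the required form -/
theorem basis (N : Matrix (Fin 2) (Fin 2) ℤ) (ψ v : Fin 2 → ℤ) (h : ψ ⬝ᵥ N.mulVec v = 1) :
    ∃ (E Y : Matrix (Fin 2) (Fin 2) ℤ) (δ : ℤ), E.det = 1 ∧ Y.det = 1 ∧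
      N * E = Y * !![1, 1; 0, δ] := by
  have h1 : ψ 0 * (N 0 0 * v 0 + N 0 1 * v 1) + ψ 1 * (N 1 0 * v 0 + N 1 1 * v 1) = 1 := by
    have := h
    simp only [dotProduct, Matrix.mulVec, Fin.sum_univ_two] at this
    exact this
  -- `al`, `be`: the row `ψ N`
  obtain ⟨al, hal⟩ : ∃ al : ℤ, al = ψ 0 * N 0 0 + ψ 1 * N 1 0 := ⟨_, rfl⟩
  obtain ⟨be, hbe⟩ : ∃ be : ℤ, be = ψ 0 * N 0 1 + ψ 1 * N 1 1 := ⟨_, rfl⟩
  obtain ⟨y0, hy0⟩ : ∃ y0 : ℤ, y0 = N 0 0 * v 0 + N 0 1 * v 1 := ⟨_, rfl⟩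
  obtain ⟨y1, hy1⟩ : ∃ y1 : ℤ, y1 = N 1 0 * v 0 + N 1 1 * v 1 := ⟨_, rfl⟩
  -- `N v' `, `v' = (-be, al)`
  obtain ⟨n0, hn0⟩ : ∃ n0 : ℤ, n0 = N 0 0 * (-be) + N 0 1 * al := ⟨_, rfl⟩
  obtain ⟨n1, hn1⟩ : ∃ n1 : ℤ, n1 = N 1 0 * (-be) + N 1 1 * al := ⟨_, rfl⟩
  obtain ⟨a, ha⟩ : ∃ a : ℤ, a = ψ 0 * n0 + ψ 1 * n1 := ⟨_, rfl⟩
  obtain ⟨δ, hδ⟩ : ∃ δ : ℤ, δ = y0 * n1 - y1 * n0 := ⟨_, rfl⟩
  have k1 : al * v 0 + be * v 1 = 1 := by rw [← h1, hal, hbe]; ring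
  have k2 : ψ 0 * y0 + ψ 1 * y1 = 1 := by rw [← h1, hy0, hy1]
  have k3 : n0 = a * y0 + δ * (-ψ 1) := by
    have : a * y0 + δ * (-ψ 1) = n0 * (ψ 0 * y0 + ψ 1 * y1) := by rw [ha, hδ]; ring
    rw [this, k2, mul_one]
  have k4 : n1 = a * y1 + δ * ψ 0 := by
    have : a * y1 + δ * ψ 0 = n1 * (ψ 0 * y0 + ψ 1 * y1) := by rw [ha, hδ]; ring
    rw [this, k2, mul_one]
  refine ⟨!![v 0, -be - a * v 0 + v 0; v 1, al - a * v 1 + v 1], !![y0, -ψ 1; y1, ψ 0], δ,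
    ?_, ?_, ?_⟩
  · rw [Matrix.det_fin_two_of, ← k1]; ring
  · rw [Matrix.det_fin_two_of, ← k2]; ring
  · have hN : N = !![N 0 0, N 0 1; N 1 0, N 1 1] := Matrix.eta_fin_two N
    have e00 : N 0 0 * v 0 + N 0 1 * v 1 = y0 := hy0.symm
    have e10 : N 1 0 * v 0 + N 1 1 * v 1 = y1 := hy1.symm
    have e01 : N 0 0 * (-be - a * v 0 + v 0) + N 0 1 * (al - a * v 1 + v 1) =
        y0 + -ψ 1 * δ := by
      have : N 0 0 * (-be - a * v 0 + v 0) + N 0 1 * (al - a * v 1 + v 1) =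
        (N 0 0 * (-be) + N 0 1 * al) - a * (N 0 0 * v 0 + N 0 1 * v 1) +
          (N 0 0 * v 0 + N 0 1 * v 1) := by ring
      rw [this, ← hn0, e00, k3]; ring
    have e11 : N 1 0 * (-be - a * v 0 + v 0) + N 1 1 * (al - a * v 1 + v 1) =
        y1 + ψ 0 * δ := by
      have : N 1 0 * (-be - a * v 0 + v 0) + N 1 1 * (al - a * v 1 + v 1) =
        (N 1 0 * (-be) + N 1 1 * al) - a * (N 1 0 * v 0 + N 1 1 * v 1) +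
          (N 1 0 * v 0 + N 1 1 * v 1) := by ring
      rw [this, ← hn1, e10, k4]; ring
    conv_lhs => rw [hN]
    rw [Matrix.mul_fin_two, Matrix.mul_fin_two, e00, e10, e01, e11]
    simp

end XNF

theorem I_Nf (hB : StBil) (hK : StComp) : StNf := by
  intro K
  by_cases h0 : K = 0
  · exact ⟨1, 1, 0, 0, by simp [h0]⟩
  obtain ⟨ℓ, N, ψ, v, hKN, hv⟩ := hB (Fin 2) K h0
  obtain ⟨E, Y, δ, hE, hY, hNE⟩ := XNF.basis N ψ v hv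
  obtain ⟨Eu, rfl⟩ : IsUnit E := (Matrix.isUnit_iff_isUnit_det E).2 (by rw [hE]; exact isUnit_one)
  obtain ⟨Yu, rfl⟩ : IsUnit Y := (Matrix.isUnit_iff_isUnit_det Y).2 (by rw [hY]; exact isUnit_one)
  refine ⟨Eu⁻¹, Eu⁻¹ * Yu, ℓ, δ, ?_⟩
  have h1 : N = (Yu : Matrix (Fin 2) (Fin 2) ℤ) * !![1, 1; 0, δ] *
      ((Eu⁻¹ : (Matrix (Fin 2) (Fin 2) ℤ)ˣ) : Matrix (Fin 2) (Fin 2) ℤ) := by
    rw [← hNE, mul_assoc, Units.mul_inv, mul_one]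
  rw [hKN, h1, Units.val_mul]
  simp only [Matrix.mul_smul, Matrix.smul_mul, Matrix.mul_assoc]

end Pool.Agent.StabComm
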