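import Pool.Agent.Work.MP_584b0c_al.Stab.Defs

set_option autoImplicit false

namespace Pool.Agent.StabComm

theorem I_Pad (h : StGlue1) : StPad := by
  intro V _ _ _ g hg j hj
  have h1 := h (Fin j → ℤ) V (by rw [Module.finrank_fin_fun]; exact hj) g hg 0 0
    ((LinearMap.id : (Fin j → ℤ) →ₗ[ℤ] (Fin j → ℤ)).prodMap g) (by intro y z; simp)
  refine IsC.conj (LinearEquiv.prodComm ℤ (Fin j → ℤ) V) ?_ h1
  rintro ⟨y, z⟩
  simp

end Pool.Agent.StabComm
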