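import Pool.Agent.Work.MP_584b0c_al.Stab.Defs

/-!
# MP_584b0c_al, project Stab, item PAIR

Coprime integers `c, d` are the values at `0` of comaximal polynomials `u, w` with
`u(1) = w(1) = 1`, `-u` monic of degree `m - 1 ≥ 3` and `deg w ≤ m - 2`.
-/

namespace Pool.Agent.StabComm

open Polynomial

namespace XPAIR

/-- A monic polynomial plus something of smaller degree. -/
theorem monic_add {p q : ℤ[X]} (hp : p.Monic) (h : q.natDegree < p.natDegree) :
    (p + q).Monic ∧ (p + q).natDegree = p.natDegree := by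
  constructor
  · exact hp.add_of_left (degree_lt_degree h)
  · exact natDegree_add_eq_left_of_natDegree_lt h

/-- `x ^ j + (a x + b)` is monic for `j ≥ 2`. -/
theorem monic_Q (a b : ℤ) {j : ℕ} (hj : 2 ≤ j) :
    ((X : ℤ[X]) ^ j + (C a * X + C b)).Monic ∧
      ((X : ℤ[X]) ^ j + (C a * X + C b)).natDegree = j := by
  have h1 : (C a * X + C b : ℤ[X]).natDegree < ((X : ℤ[X]) ^ j).natDegree := by
    rw [natDegree_X_pow]
    exact lt_of_le_of_lt natDegree_linear_le (by omega)
  have := monic_add (monic_X_pow (R := ℤ) j) h1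
  rwa [natDegree_X_pow] at this

/-- The monic pairs. -/
def Good (c d : ℤ) : Prop := ∃ u w : ℤ[X], u.Monic ∧ w.Monic ∧ IsCoprime u w ∧ u.eval 0 = c ∧
  w.eval 0 = d ∧ ((u.eval 1 = 1 ∧ w.eval 1 = 0) ∨ (u.eval 1 = 0 ∧ w.eval 1 = 1))

theorem good_base (c : ℤ) (hc : IsUnit c) : Good c 0 := by
  rcases Int.isUnit_iff.1 hc with h | h
  · subst h
    refine ⟨X ^ 2 + (C (-1) * X + C 1), X ^ 2 + (C (-1) * X + C 0), (monic_Q _ _ le_rfl).1,
      (monic_Q _ _ le_rfl).1, ⟨1, -1, ?_⟩, ?_, ?_, Or.inl ⟨?_, ?_⟩⟩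
    · simp only [map_neg, map_one, map_zero]
      ring
    all_goals simp
  · subst h
    refine ⟨X ^ 2 + (C 1 * X + C (-1)), X ^ 2 + (C (-1) * X + C 0), (monic_Q _ _ le_rfl).1,
      (monic_Q _ _ le_rfl).1, ⟨2 * X - 1, -(2 * X + 3), ?_⟩, ?_, ?_, Or.inl ⟨?_, ?_⟩⟩
    · simp only [map_neg, map_one, map_zero]
      ring
    all_goals simp

theorem good_step (c d q r : ℤ) (h : c = q * d + r) (hg : Good d r) : Good c d := by
  obtain ⟨u, w, hu, hw, hc, hu0, hw0, h1⟩ := hg
  set j := w.natDegree + 2 with hj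
  set Q : ℤ[X] := X ^ j + (C (-q - 1) * X + C q) with hQ
  have hQm : Q.Monic := (monic_Q _ _ (by omega)).1
  have hQd : Q.natDegree = j := (monic_Q _ _ (by omega)).2
  have hQu : (Q * u).natDegree = j + u.natDegree := by rw [hQm.natDegree_mul hu, hQd]
  have hQ0 : Q.eval 0 = q := by
    simp [hQ, hj]
  have hQ1 : Q.eval 1 = 0 := by
    simp [hQ]
    ring
  have hmon := monic_add (hQm.mul hu) (q := w) (by rw [hQu]; omega)
  refine ⟨Q * u + w, u, hmon.1, hu, ?_, ?_, hu0, ?_⟩
  · have := hc.symm.add_mul_right_left Q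
    rwa [add_comm] at this
  · rw [eval_add, eval_mul, hQ0, hu0, hw0, h]
  · rw [eval_add, eval_mul, hQ1, zero_mul, zero_add]
    tauto

theorem good_all : ∀ (n : ℕ) (c d : ℤ), d.natAbs ≤ n → IsCoprime c d → Good c d := by
  intro n
  induction n with
  | zero =>
    intro c d hd hc
    have : d = 0 := by omega
    subst this
    exact good_base c (isCoprime_zero_right.1 hc)
  | succ n ih =>
    intro c d hd hc
    by_cases h0 : d = 0
    · subst h0
      exact good_base c (isCoprime_zero_right.1 hc)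
    · refine good_step c d (c / d) (c % d) (by rw [mul_comm]; exact (Int.mul_ediv_add_emod c d).symm)
        (ih d (c % d) ?_ ?_)
      · have h1 := Int.emod_nonneg c h0
        have h2 := Int.emod_lt_abs c h0
        have h3 : |d| = (d.natAbs : ℤ) := Int.abs_eq_natAbs d
        omega
      · have h1 : c % d = c + d * (-(c / d)) := by
          have := Int.mul_ediv_add_emod c d
          linarith
        rw [h1]
        exact (hc.add_mul_left_left _).symm

end XPAIR

open XPAIR in
theorem I_Pair : StPair := by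
  intro c d hcd
  -- first make `w (1) = 1`
  have key : ∃ (u w : ℤ[X]) (e : ℤ), w.Monic ∧ IsCoprime u w ∧ u.eval 0 = c ∧ w.eval 0 = d ∧
      w.eval 1 = 1 ∧ u.eval 1 + (e - 1) = 1 := by
    obtain ⟨u, w, hu, hw, hc, hu0, hw0, h1⟩ := good_all _ c d le_rfl hcd
    rcases h1 with ⟨h1, h2⟩ | ⟨h1, h2⟩
    · set j := w.natDegree + 1 with hj
      have hm := monic_add ((monic_X_pow (R := ℤ) j).mul hu) (q := w)
        (by rw [(monic_X_pow (R := ℤ) j).natDegree_mul hu, natDegree_X_pow]; omega)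
      refine ⟨u, X ^ j * u + w, 1, hm.1, ?_, hu0, ?_, ?_, ?_⟩
      · have := hc.add_mul_right_right (X ^ j)
        rwa [add_comm] at this
      · simp [hj, hw0]
      · simp [h1, h2]
      · rw [h1]; norm_num
    · exact ⟨u, w, 2, hw, hc, hu0, hw0, h2, by rw [h1]; norm_num⟩
  obtain ⟨u, w, e, hw, hc, hu0, hw0, hw1, hu1⟩ := key
  set i := u.natDegree + 3 with hi
  set Q : ℤ[X] := X ^ i + (C (-e) * X + C 0) with hQ
  have hQm : Q.Monic := (monic_Q _ _ (by omega)).1
  have hQd : Q.natDegree = i := (monic_Q _ _ (by omega)).2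
  have hQw : (Q * w).natDegree = i + w.natDegree := by rw [hQm.natDegree_mul hw, hQd]
  have hmon := monic_add (hQm.mul hw) (q := -u) (by rw [hQw, natDegree_neg]; omega)
  have hQ0 : Q.eval 0 = 0 := by
    simp [hQ, hi]
  have hQ1 : Q.eval 1 = 1 - e := by
    simp [hQ]; ring
  have hneg : -(u - Q * w) = Q * w + -u := by ring
  refine ⟨i + w.natDegree + 1, u - Q * w, w, by omega, ?_, ?_, ?_, by omega, ?_, ?_, ?_, hw1⟩
  · have := hc.add_mul_right_left (-Q)
    have h2 : u + -Q * w = u - Q * w := by ring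
    rwa [h2] at this
  · rw [hneg]; exact hmon.1
  · rw [← natDegree_neg, hneg, hmon.2, hQw]; omega
  · rw [coeff_zero_eq_eval_zero, eval_sub, eval_mul, hQ0, hu0]; ring
  · rw [coeff_zero_eq_eval_zero, hw0]
  · rw [eval_sub, eval_mul, hQ1, hw1]; linarith

end Pool.Agent.StabComm
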