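import Pool.Agent.Work.MP_584b0c_al.Stab.Defs

set_option autoImplicit false

namespace Pool.Agent.StabComm

namespace XPIVOT

/-- concatenation of tuples -/
noncomputable def cat (i j : ℕ) : ((Fin i → ℤ) × (Fin j → ℤ)) ≃ₗ[ℤ] (Fin (i + j) → ℤ) :=
  (LinearEquiv.sumArrowLequivProdArrow (Fin i) (Fin j) ℤ ℤ).symm.trans
    (LinearEquiv.funCongrLeft ℤ ℤ finSumFinEquiv.symm)

/-- the rearrangement -/
noncomputable def rearr (V W : Type) [AddCommGroup V] [AddCommGroup W] (i j : ℕ) :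
    ((V × (Fin i → ℤ)) × (W × (Fin j → ℤ))) ≃ₗ[ℤ] ((V × W) × (Fin (i + j) → ℤ)) :=
  (LinearEquiv.prodProdProdComm ℤ V (Fin i → ℤ) W (Fin j → ℤ)).trans
    ((LinearEquiv.refl ℤ (V × W)).prodCongr (cat i j))

theorem rearr_apply {V W : Type} [AddCommGroup V] [AddCommGroup W] (i j : ℕ)
    (y : V) (s : Fin i → ℤ) (z : W) (t : Fin j → ℤ) :
    rearr V W i j ((y, s), (z, t)) = ((y, z), cat i j (s, t)) := rfl

end XPIVOT

open XPIVOT

theorem I_Pivot (h : StGlue1) : StPivot := by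
  intro V W _ _ _ _ _ _ k R S g hg hk
  obtain ⟨j, hj⟩ := hk
  set i : ℕ := Module.finrank ℤ W + j + 1 with hi
  refine ⟨i + j, ?_⟩
  have h1 : Module.finrank ℤ (W × (Fin j → ℤ)) + 1 ≤ Module.finrank ℤ (V × (Fin i → ℤ)) := by
    rw [Module.finrank_prod, Module.finrank_prod, Module.finrank_fin_fun, Module.finrank_fin_fun]
    omega
  let R' : (W × (Fin j → ℤ)) →ₗ[ℤ] (V × (Fin i → ℤ)) :=
    (LinearMap.inl ℤ V (Fin i → ℤ)).comp (R.comp (LinearMap.fst ℤ W (Fin j → ℤ)))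
  let S' : (V × (Fin i → ℤ)) →ₗ[ℤ] (W × (Fin j → ℤ)) :=
    (LinearMap.inl ℤ W (Fin j → ℤ)).comp (S.comp (LinearMap.fst ℤ V (Fin i → ℤ)))
  let G : ((V × (Fin i → ℤ)) × (W × (Fin j → ℤ))) →ₗ[ℤ]
      ((V × (Fin i → ℤ)) × (W × (Fin j → ℤ))) :=
    ((rearr V W i j).symm.toLinearMap.comp
      ((g.prodMap (LinearMap.id : (Fin (i + j) → ℤ) →ₗ[ℤ] (Fin (i + j) → ℤ))).comp
        (rearr V W i j).toLinearMap))
  have hG : ∀ (y : V) (s : Fin i → ℤ) (z : W) (t : Fin j → ℤ),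
      G ((y, s), (z, t)) = ((y + R z, s), (S y + k z + S (R z), t)) := by
    intro y s z t
    apply (rearr V W i j).injective
    change rearr V W i j ((rearr V W i j).symm _) = _
    rw [LinearEquiv.apply_symm_apply, rearr_apply]
    change (g (y, z), cat i j (s, t)) = _
    rw [hg]
  have h2 := h (V × (Fin i → ℤ)) (W × (Fin j → ℤ)) h1 _ hj R' S' G (by
    rintro ⟨y, s⟩ ⟨z, t⟩
    rw [hG]
    simp [R', S'])
  refine IsC.conj (rearr V W i j) ?_ h2
  intro v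
  change rearr V W i j ((rearr V W i j).symm _) = _
  rw [LinearEquiv.apply_symm_apply]
  rfl

end Pool.Agent.StabComm
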