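import Pool.Agent.Work.MP_584b0c_al.Stab.Defs

set_option autoImplicit false

/-! Item POLY: Sylvester's equation, polynomial form. -/

namespace Pool.Agent.StabComm

open Polynomial

namespace XPOLY

variable {V W : Type} [AddCommGroup V] [AddCommGroup W]

theorem pow_step (A : V →ₗ[ℤ] V) (D : W →ₗ[ℤ] W) (Y : W →ₗ[ℤ] V) (k : ℕ) :
    ∃ Z : W →ₗ[ℤ] V, ∀ y, A (Z y) - Z (D y) = (A ^ k) (Y y) - Y ((D ^ k) y) := by
  induction k with
  | zero => exact ⟨0, fun y => by simp⟩
  | succ k ih =>
    obtain ⟨Z, hZ⟩ := ih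
    refine ⟨Z.comp D + (A ^ k).comp Y, fun y => ?_⟩
    have h1 := hZ (D y)
    have h2 : (A ^ (k + 1)) (Y y) = A ((A ^ k) (Y y)) := by
      rw [pow_succ', Module.End.mul_apply]
    have h3 : (D ^ (k + 1)) y = (D ^ k) (D y) := by
      rw [pow_succ, Module.End.mul_apply]
    rw [h2, h3]
    simp only [LinearMap.add_apply, LinearMap.comp_apply, map_add]
    have h4 : A (Z (D y)) = Z (D (D y)) + ((A ^ k) (Y (D y)) - Y ((D ^ k) (D y))) := by
      rw [← h1]; abel
    rw [h4]
    abel

end XPOLY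

theorem I_Poly : StPoly := by
  intro V W _ _ A D f Y
  induction f using Polynomial.induction_on' with
  | add p q hp hq =>
    obtain ⟨Z, hZ⟩ := hp
    obtain ⟨Z', hZ'⟩ := hq
    refine ⟨Z + Z', fun y => ?_⟩
    simp only [LinearMap.add_apply, map_add]
    rw [add_sub_add_comm, hZ, hZ']
    abel
  | monomial k a =>
    obtain ⟨Z, hZ⟩ := XPOLY.pow_step A D Y k
    refine ⟨a • Z, fun y => ?_⟩
    have h1 : (aeval A (monomial k a)) (Y y) = a • (A ^ k) (Y y) := by
      rw [aeval_monomial, Algebra.algebraMap_eq_smul_one, smul_mul_assoc, one_mul,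
        LinearMap.smul_apply]
    have h2 : (aeval D (monomial k a)) y = a • (D ^ k) y := by
      rw [aeval_monomial, Algebra.algebraMap_eq_smul_one, smul_mul_assoc, one_mul,
        LinearMap.smul_apply]
    rw [h1, h2]
    simp only [LinearMap.smul_apply, map_smul]
    rw [← smul_sub, hZ, smul_sub]

end Pool.Agent.StabComm
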