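import Pool.Agent.Work.MP_584b0c_al.Stab.Defs

set_option autoImplicit false

/-!
MP_584b0c_al (integral commutators), item RANK, written by helper10.
-/

namespace Pool.Agent.StabComm

namespace XRANK

/-- The kernel of a split surjection, with explicit coordinates. -/
theorem exists_coord (n : ℕ) (U : Type) [AddCommGroup U] [Module.Free ℤ U] [Module.Finite ℤ U]
    (V : (Fin n → ℤ) →ₗ[ℤ] U) (Φ : U →ₗ[ℤ] (Fin n → ℤ)) (h : ∀ t, Φ (V t) = t) :
    ∃ (j : ℕ) (ι : (Fin j → ℤ) →ₗ[ℤ] U) (ρ : U →ₗ[ℤ] (Fin j → ℤ)),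
      (∀ t, Φ (ι t) = 0) ∧ (∀ t, ρ (ι t) = t) ∧ (∀ t, ρ (V t) = 0) ∧
        (∀ y, V (Φ y) + ι (ρ y) = y) := by
  have b := Module.finBasis ℤ (LinearMap.ker Φ)
  have hmem : ∀ y : U, (LinearMap.id - V.comp Φ : U →ₗ[ℤ] U) y ∈ LinearMap.ker Φ := by
    intro y
    simp [LinearMap.mem_ker, h]
  refine ⟨_, (LinearMap.ker Φ).subtype.comp b.equivFun.symm.toLinearMap,
    b.equivFun.toLinearMap.comp (LinearMap.codRestrict (LinearMap.ker Φ)
      (LinearMap.id - V.comp Φ) hmem), ?_, ?_, ?_, ?_⟩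
  · intro t
    exact (b.equivFun.symm t).2
  · intro t
    have h0 : Φ ((b.equivFun.symm t : LinearMap.ker Φ) : U) = 0 := (b.equivFun.symm t).2
    have h1 : LinearMap.codRestrict (LinearMap.ker Φ) (LinearMap.id - V.comp Φ) hmem
        ((b.equivFun.symm t : LinearMap.ker Φ) : U) = b.equivFun.symm t := by
      apply Subtype.ext
      rw [LinearMap.codRestrict_apply]
      simp only [LinearMap.sub_apply, LinearMap.id_apply, LinearMap.comp_apply, h0, map_zero,
        sub_zero]
    simp only [LinearMap.comp_apply, LinearEquiv.coe_coe, Submodule.subtype_apply]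
    rw [h1, LinearEquiv.apply_symm_apply]
  · intro t
    have h1 : LinearMap.codRestrict (LinearMap.ker Φ) (LinearMap.id - V.comp Φ) hmem (V t) = 0 := by
      apply Subtype.ext
      rw [LinearMap.codRestrict_apply]
      simp only [LinearMap.sub_apply, LinearMap.id_apply, LinearMap.comp_apply, h, sub_self]
      rfl
    simp only [LinearMap.comp_apply]
    rw [h1, map_zero]
  · intro y
    simp only [LinearMap.comp_apply, LinearEquiv.coe_coe, Submodule.subtype_apply,
      LinearEquiv.symm_apply_apply, LinearMap.codRestrict_apply, LinearMap.sub_apply,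
      LinearMap.id_apply]
    abel

end XRANK

theorem I_Rank : StRank := by
  intro n U _ _ _ M V Φ g h hg hC
  obtain ⟨j, ι, ρ, h1, h2, h3, h4⟩ := XRANK.exists_coord n U V Φ h
  let e : U ≃ₗ[ℤ] ((Fin n → ℤ) × (Fin j → ℤ)) :=
    LinearEquiv.ofLinearMap (Φ.prod ρ) (V.coprod ι)
      (by
        apply LinearMap.ext
        rintro ⟨s, t⟩
        simp [h, h1, h2, h3])
      (by
        apply LinearMap.ext
        intro y
        simp [h4])
  refine ⟨j, IsC.conj e ?_ hC⟩
  intro y
  have e1 : e (g y) = (Φ (g y), ρ (g y)) := rfl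
  have e2 : e y = (Φ y, ρ y) := rfl
  rw [e1, e2, hg]
  simp [h, h3, Matrix.toLin'_apply]

end Pool.Agent.StabComm
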