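import Pool.Agent.Work.MP_584b0c_al.Stab.Defs

set_option autoImplicit false

/-!
MP_584b0c_al, block Stab, item RED: the reduction step from size `k + 1` to size `k`.
-/

namespace Pool.Agent.StabComm

open Polynomial Matrix

namespace XRED

/-- the identity is a commutator -/
theorem mst_one (n : Type) [Fintype n] [DecidableEq n] : MSt (1 : Matrix n n ℤ) := by
  refine ⟨0, LinearEquiv.refl ℤ _, LinearEquiv.refl ℤ _, fun v => ?_⟩
  refine Prod.ext ?_ (Subsingleton.elim _ _)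
  simp [Matrix.toLin'_one]

/-- the first unit vector -/
abbrev e1 (k : ℕ) : Unit ⊕ Fin k → ℤ := Sum.elim (fun _ => 1) (fun _ => 0)

theorem dot_e1 {k : ℕ} (x : Unit ⊕ Fin k → ℤ) : x ⬝ᵥ e1 k = x (Sum.inl ()) := by
  simp [dotProduct, e1]

/-- the reduction step in coordinates with `N v = e₁` -/
theorem step (hL : StLift) (h1 : StRed1) (h2 : StRed2) (k : ℕ) (hk : 2 ≤ k)
    (D N : Matrix (Unit ⊕ Fin k) (Unit ⊕ Fin k) ℤ) (l : ℤ) (v : Unit ⊕ Fin k → ℤ)
    (hD : D = 1 + l • N) (hN : N.mulVec v = e1 k) (hdet : D.det = 1) :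
    ∃ C' : Matrix (Fin k) (Fin k) ℤ, C'.det = 1 ∧ (MSt C' → MSt D) := by
  have hDa : D * D.adjugate = 1 := by rw [Matrix.mul_adjugate, hdet, one_smul]
  have haD : D.adjugate * D = 1 := by rw [Matrix.adjugate_mul, hdet, one_smul]
  set h : Unit ⊕ Fin k → ℤ := D.adjugate.mulVec (e1 k) with hh
  have hDh : D.mulVec h = e1 k := by rw [hh, Matrix.mulVec_mulVec, hDa, Matrix.one_mulVec]
  have hrow : D (Sum.inl ()) (Sum.inl ()) * h (Sum.inl ()) +
      (fun i => D (Sum.inl ()) (Sum.inr i)) ⬝ᵥ (fun i => h (Sum.inr i)) = 1 := by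
    have h3 := congrFun hDh (Sum.inl ())
    simpa [Matrix.mulVec, dotProduct, e1] using h3
  obtain ⟨ω, θ, hθ⟩ := hL k hk _ _ _ _ hrow
  set a : ℤ := h (Sum.inl ()) with ha
  set w : Unit ⊕ Fin k → ℤ := Sum.elim (fun _ => 1) ω with hw
  set τ : Unit ⊕ Fin k → ℤ := Sum.elim (fun _ => 1 + a * (θ ⬝ᵥ ω)) (-(a • θ)) with hτ
  have hτw : τ ⬝ᵥ w = 1 := by
    have h3 : τ ⬝ᵥ w = (1 + a * (θ ⬝ᵥ ω)) * 1 + (-(a • θ)) ⬝ᵥ ω := by
      simp [hτ, hw, dotProduct]
    rw [h3, neg_dotProduct, smul_dotProduct, smul_eq_mul]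
    ring
  have hτh : τ ⬝ᵥ h = 0 := by
    have h3 : τ ⬝ᵥ h = (1 + a * (θ ⬝ᵥ ω)) * a + (-(a • θ)) ⬝ᵥ (fun i => h (Sum.inr i)) := by
      simp [hτ, ha, dotProduct]
    rw [dotProduct_sub, dotProduct_smul, smul_eq_mul] at hθ
    rw [h3, neg_dotProduct, smul_dotProduct, smul_eq_mul]
    linear_combination (-a) * hθ
  set μ : ℤ := N.mulVec w (Sum.inl ()) with hμ
  set ψ : Unit ⊕ Fin k → ℤ := Matrix.vecMul (μ • τ) D.adjugate with hψ
  have hψD : Matrix.vecMul ψ D = μ • τ := by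
    rw [hψ, Matrix.vecMul_vecMul, haD, Matrix.vecMul_one]
  have hψ1 : ψ (Sum.inl ()) = 0 := by
    rw [← dot_e1 ψ, hψ, ← Matrix.dotProduct_mulVec, ← hh, smul_dotProduct, hτh, smul_zero]
  set Cn : Matrix (Unit ⊕ Fin k) (Unit ⊕ Fin k) ℤ :=
    D - l • Matrix.vecMulVec (e1 k) (Matrix.vecMul ψ D) with hCn
  have hfac : Cn = (1 - Matrix.replicateCol Unit (l • e1 k) * Matrix.replicateRow Unit ψ) * D := by
    rw [hCn, Matrix.sub_mul, Matrix.one_mul]
    congr 1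
    ext i j
    have h3 : ∀ x, (Matrix.replicateCol Unit (l • e1 k) * Matrix.replicateRow Unit ψ) i x =
        l * (e1 k i * ψ x) := by
      intro x
      simp [Matrix.mul_apply, mul_assoc]
    rw [Matrix.mul_apply, Matrix.smul_apply, Matrix.vecMulVec_apply]
    simp only [h3, Matrix.vecMul, dotProduct, smul_eq_mul, Finset.mul_sum, mul_assoc]
  have hCdet : Cn.det = 1 := by
    rw [hfac, Matrix.det_mul, hdet, mul_one, sub_eq_add_neg, ← Matrix.neg_mul,
      Matrix.det_one_add_mul_comm]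
    simp [Matrix.mul_apply, hψ1]
  have hCw : Cn.mulVec w (Sum.inl ()) = 1 := by
    have h3 : Cn.mulVec w = w + l • N.mulVec w - (l * μ) • e1 k := by
      rw [hCn, Matrix.sub_mulVec, hψD, Matrix.smul_mulVec]
      congr 1
      · rw [hD, Matrix.add_mulVec, Matrix.one_mulVec, Matrix.smul_mulVec]
      · have h4 : (Matrix.vecMulVec (e1 k) (μ • τ)).mulVec w = μ • e1 k := by
          ext i
          have h5 : (Matrix.vecMulVec (e1 k) (μ • τ)).mulVec w i = e1 k i * ((μ • τ) ⬝ᵥ w) := by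
            simp only [Matrix.mulVec, dotProduct, Matrix.vecMulVec_apply, Finset.mul_sum, mul_assoc]
          rw [h5, smul_dotProduct, hτw, smul_eq_mul, mul_one, Pi.smul_apply, smul_eq_mul, mul_comm]
        rw [h4, smul_smul]
    rw [h3]
    simp only [Pi.sub_apply, Pi.add_apply, Pi.smul_apply, smul_eq_mul]
    rw [← hμ]
    simp [hw, e1]
  obtain ⟨C', hC'det, hC'⟩ := h2 k Cn w hCdet (by simp [hw]) hCw
  exact ⟨C', hC'det, fun h3 => h1 k D N l v ψ hD hN hψ1 (hC' h3)⟩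

end XRED

open XRED in
theorem I_Red (hB : StBil) (hK : StComp) (hL : StLift) (hC : StMconj) (h1 : StRed1)
    (h2 : StRed2) : StRed := by
  intro k hk C hdet
  by_cases hC1 : C - 1 = 0
  · refine ⟨1, Matrix.det_one, fun _ => ?_⟩
    rw [sub_eq_zero.1 hC1]
    exact mst_one _
  · obtain ⟨l, N, ψ, v, hN, hψ⟩ := hB (Fin (k + 1)) (C - 1) hC1
    obtain ⟨P, Q, hPQ, hQP, hPy, -⟩ := hK k ψ (N.mulVec v) hψ
    have hCl : C = 1 + l • N := by rw [← hN]; abel
    have hD : P * C * Q = 1 + l • (P * N * Q) := by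
      rw [hCl, Matrix.mul_add, Matrix.add_mul, Matrix.mul_one, hPQ, Matrix.mul_smul,
        Matrix.smul_mul]
    have hNv : (P * N * Q).mulVec (P.mulVec v) = e1 k := by
      rw [Matrix.mulVec_mulVec, Matrix.mul_assoc, hQP, Matrix.mul_one, ← Matrix.mulVec_mulVec, hPy]
    have hdetD : (P * C * Q).det = 1 := by
      rw [Matrix.det_conj_of_mul_eq_one hPQ hQP, hdet]
    obtain ⟨C', hC'det, hC'⟩ := step hL h1 h2 k hk (P * C * Q) (P * N * Q) l (P.mulVec v) hD hNv hdetD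
    refine ⟨C', hC'det, fun h3 => hC (Fin (k + 1)) (Unit ⊕ Fin k) C (P * C * Q) P Q hPQ hQP ?_
      (hC' h3)⟩
    rw [Matrix.mul_assoc (P * C), hQP, Matrix.mul_one]

end Pool.Agent.StabComm
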