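import Pool.Agent.Work.MP_584b0c_al.Stab.Defs

set_option autoImplicit false

/-!
MP_584b0c_al (integral commutators), item RED1: one adds a transvection.
-/

namespace Pool.Agent.StabComm

open Matrix

namespace XRED1

variable {n : Type} [Fintype n] [DecidableEq n]

/-- the reduction with rows and columns as matrices -/
theorem main (hC : StMconj) (hP : StMpivot) (hD : StMdrop) (C N : Matrix n n ℤ) (ℓ : ℤ)
    (vc ec : Matrix n Unit ℤ) (pr : Matrix Unit n ℤ) (h : C = 1 + ℓ • N) (hN : N * vc = ec)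
    (hp : pr * ec = 0) (hM : MSt (C - ℓ • (ec * (pr * C)))) : MSt C := by
  have hRv : pr * (C - 1) * vc = 0 := by
    rw [h, add_sub_cancel_left, Matrix.mul_smul, Matrix.smul_mul, Matrix.mul_assoc, hN, hp,
      smul_zero]
  have hCv : C * vc = vc + ℓ • ec := by
    rw [h, Matrix.add_mul, Matrix.one_mul, Matrix.smul_mul, hN]
  refine hD n Unit C ?_
  refine hC (n ⊕ Unit) (Unit ⊕ n) (Matrix.fromBlocks C 0 0 1)
    (Matrix.fromBlocks 1 (pr * (C - 1)) (ℓ • ec)
      ((C - ℓ • (ec * (pr * C))) + (ℓ • ec) * (pr * (C - 1))))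
    (Matrix.fromBlocks pr (1 - pr * vc) 1 (-vc))
    (Matrix.fromBlocks vc (1 - vc * pr) 1 (-pr)) ?_ ?_ ?_
    (hP Unit n (pr * (C - 1)) (ℓ • ec) (C - ℓ • (ec * (pr * C))) hM)
  · rw [Matrix.fromBlocks_multiply, ← Matrix.fromBlocks_one]
    congr 1
    · rw [Matrix.mul_one]; abel
    · rw [Matrix.mul_sub, Matrix.mul_one, Matrix.mul_neg, Matrix.sub_mul, Matrix.one_mul,
        Matrix.mul_assoc]; abel
    · rw [Matrix.mul_one, Matrix.one_mul]; abel
    · rw [Matrix.one_mul, Matrix.neg_mul, Matrix.mul_neg, neg_neg]; abel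
  · rw [Matrix.fromBlocks_multiply, ← Matrix.fromBlocks_one]
    congr 1
    · rw [Matrix.mul_one]; abel
    · rw [Matrix.mul_sub, Matrix.mul_one, Matrix.mul_neg, Matrix.sub_mul, Matrix.one_mul,
        Matrix.mul_assoc]; abel
    · rw [Matrix.one_mul, Matrix.mul_one]; abel
    · rw [Matrix.one_mul, Matrix.neg_mul, Matrix.mul_neg, neg_neg]; abel
  · rw [Matrix.fromBlocks_multiply, Matrix.fromBlocks_multiply]
    congr 1
    · rw [Matrix.mul_zero, add_zero, Matrix.one_mul, Matrix.mul_one, Matrix.mul_sub,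
        Matrix.mul_one]; abel
    · rw [Matrix.mul_zero, zero_add, Matrix.mul_one, Matrix.one_mul, Matrix.mul_neg, hRv, neg_zero,
        add_zero]
    · rw [Matrix.one_mul, Matrix.mul_zero, add_zero, Matrix.mul_one, Matrix.smul_mul,
        Matrix.smul_mul, Matrix.mul_sub, Matrix.mul_sub, Matrix.mul_one, smul_sub]; abel
    · have e1 : (C - ℓ • (ec * (pr * C)) + (ℓ • ec) * (pr * (C - 1))) * vc =
          vc + ℓ • ec - ℓ • (ec * (pr * vc)) := by
        rw [Matrix.add_mul, Matrix.mul_assoc (ℓ • ec), hRv, Matrix.mul_zero, add_zero,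
          Matrix.sub_mul, hCv, Matrix.smul_mul, Matrix.mul_assoc ec, Matrix.mul_assoc pr, hCv,
          Matrix.mul_add, Matrix.mul_smul, hp, smul_zero, add_zero]
      rw [Matrix.mul_neg, e1, Matrix.mul_zero, zero_add, Matrix.mul_one, Matrix.mul_sub,
        Matrix.mul_one, Matrix.smul_mul]; abel

end XRED1

/-- RED1: one adds a transvection -/
theorem I_Red1 (hC : StMconj) (hP : StMpivot) (hD : StMdrop) : StRed1 := by
  intro k C N ℓ v ψ h hN hψ hM
  set e1 : Unit ⊕ Fin k → ℤ := Sum.elim (fun _ => 1) (fun _ => 0) with he1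
  refine XRED1.main hC hP hD C N ℓ (Matrix.replicateCol Unit v) (Matrix.replicateCol Unit e1)
    (Matrix.replicateRow Unit ψ) h ?_ ?_ ?_
  · ext i j
    have := congrFun hN i
    simpa [Matrix.mul_apply, Matrix.mulVec, dotProduct] using this
  · ext i j
    simp [Matrix.mul_apply, he1, hψ]
  · have e2 : Matrix.replicateCol Unit e1 * (Matrix.replicateRow Unit ψ * C) =
        Matrix.vecMulVec e1 (Matrix.vecMul ψ C) := by
      ext i j
      simp [Matrix.mul_apply, Matrix.vecMulVec_apply, Matrix.vecMul, dotProduct]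
    rw [e2]
    exact hM

end Pool.Agent.StabComm
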