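import Pool.Agent.Work.MP_584b0c_al.Stab.Defs

/-!
MP_584b0c_al (stable commutators): RED2, a vector `w = (1, ω)` with `(C w)₁ = 1`.
-/

set_option autoImplicit false

namespace Pool.Agent.StabComm

open Matrix

namespace XRED2

/-- a matrix with the entry `1` in the corner -/
theorem blocks {k : ℕ} (D : Matrix (Unit ⊕ Fin k) (Unit ⊕ Fin k) ℤ)
    (h : D (Sum.inl ()) (Sum.inl ()) = 1) :
    D = Matrix.fromBlocks 1 D.toBlocks₁₂ D.toBlocks₂₁
      ((D.toBlocks₂₂ - D.toBlocks₂₁ * D.toBlocks₁₂) + D.toBlocks₂₁ * D.toBlocks₁₂) := by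
  rw [sub_add_cancel]
  have h1 : (1 : Matrix Unit Unit ℤ) = D.toBlocks₁₁ := by
    ext i j
    cases i; cases j
    rw [Matrix.one_apply_eq]
    exact h.symm
  rw [h1, Matrix.fromBlocks_toBlocks]

end XRED2

theorem I_Red2 (hC : StMconj) (hP : StMpivot) : StRed2 := by
  intro k C w hdet hw hCw
  obtain ⟨z, hz⟩ : ∃ z : Unit ⊕ Fin k → ℤ, z = w - Pi.single (Sum.inl ()) 1 := ⟨_, rfl⟩
  have hz0 : z (Sum.inl ()) = 0 := by simp [hz, hw]
  obtain ⟨N, hN⟩ : ∃ N : Matrix (Unit ⊕ Fin k) (Unit ⊕ Fin k) ℤ,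
      N = Matrix.vecMulVec z (Pi.single (Sum.inl ()) 1) := ⟨_, rfl⟩
  have hNN : N * N = 0 := by
    rw [hN, Matrix.vecMulVec_mul_vecMulVec]
    simp [hz0]
  have h1 : (1 - N) * (1 + N) = 1 := by
    rw [sub_mul, one_mul, mul_add, mul_one, hNN, add_zero, add_sub_cancel_right]
  have h2 : (1 + N) * (1 - N) = 1 := by
    rw [mul_sub, mul_one, add_mul, one_mul, hNN, add_zero, add_sub_cancel_right]
  obtain ⟨D, hD⟩ : ∃ D : Matrix (Unit ⊕ Fin k) (Unit ⊕ Fin k) ℤ, D = (1 - N) * C * (1 + N) :=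
    ⟨_, rfl⟩
  have hDdet : D.det = 1 := by
    have h3 := congrArg Matrix.det h1
    rw [Matrix.det_mul, Matrix.det_one] at h3
    rw [hD, Matrix.det_mul, Matrix.det_mul, hdet, mul_one, h3]
  have hE : (1 + N).mulVec (Pi.single (Sum.inl ()) 1) = w := by
    rw [Matrix.add_mulVec, Matrix.one_mulVec, hN, Matrix.vecMulVec_mulVec]
    simp [hz]
  have hD1 : D (Sum.inl ()) (Sum.inl ()) = 1 := by
    have h3 : D (Sum.inl ()) (Sum.inl ()) = D.mulVec (Pi.single (Sum.inl ()) 1) (Sum.inl ()) := by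
      rw [Matrix.mulVec_single_one]; rfl
    rw [h3, hD, ← Matrix.mulVec_mulVec, ← Matrix.mulVec_mulVec, hE, Matrix.sub_mulVec,
      Matrix.one_mulVec, Pi.sub_apply, hCw, hN, Matrix.vecMulVec_mulVec]
    simp [hz0]
  have hb := XRED2.blocks D hD1
  refine ⟨D.toBlocks₂₂ - D.toBlocks₂₁ * D.toBlocks₁₂, ?_, fun h => ?_⟩
  · rw [← hDdet]
    conv_rhs => rw [hb]
    rw [Matrix.det_fromBlocks_one₁₁, add_sub_cancel_right]
  · refine hC _ _ C D (1 - N) (1 + N) h1 h2 ?_ ?_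
    · rw [hD, mul_assoc ((1 - N) * C), h2, mul_one]
    · rw [hb]
      exact hP _ _ _ _ _ h

end Pool.Agent.StabComm
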