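import Pool.Agent.Work.MP_584b0c_al.Stab.Defs

set_option autoImplicit false

/-! MP_584b0c_al, Stab, item REL: relations of `D₂`. -/

namespace Pool.Agent.StabComm

open Polynomial

namespace XREL

variable {m : ℕ}

theorem coe_aeval (D : L m →ₗ[ℤ] L m) (q : ℤ[X]) (e : L m) (n : ℕ) (hn : q.natDegree < n) :
    ((aeval D q e : L m) : ℤ[X]) =
      ∑ i ∈ Finset.range n, C (q.coeff i) * (((D ^ i) e : L m) : ℤ[X]) := by
  rw [aeval_eq_sum_range' hn, LinearMap.sum_apply]
  rw [AddSubmonoidClass.coe_finsetSum]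
  refine Finset.sum_congr rfl fun i _ => ?_
  rw [LinearMap.smul_apply, Submodule.coe_smul, smul_eq_C_mul]

theorem pow_e {a b c d : ℤ} {u f : ℤ[X]} {X₂ D₂ : L m →ₗ[ℤ] L m} {e : L m} (hm : 3 ≤ m)
    (hX : IsMul m f X₂) (hD : IsD2 m a b c d u X₂ D₂) (he : (e : ℤ[X]) = 1) :
    ∀ i, i ≤ m - 2 → (((D₂ ^ i) e : L m) : ℤ[X]) = X ^ i := by
  intro i
  induction i with
  | zero => intro _; simpa using he
  | succ i ih =>
    intro hi
    have h1 := ih (by omega)
    have h2 : ((X₂ ((D₂ ^ i) e) : L m) : ℤ[X]) = X ^ (i + 1) := by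
      rw [hX, h1, coeff_X_pow, if_neg (by omega)]
      simp [pow_succ']
    rw [pow_succ', Module.End.mul_apply, hD, h2, coeff_X_pow, coeff_X_pow, if_neg (by omega),
      if_neg (by omega)]
    simp

theorem pow_top {a b c d : ℤ} {u f : ℤ[X]} {X₂ D₂ : L m →ₗ[ℤ] L m} {e : L m} (hm : 3 ≤ m)
    (hX : IsMul m f X₂) (hD : IsD2 m a b c d u X₂ D₂) (he : (e : ℤ[X]) = 1) :
    (((D₂ ^ (m - 1)) e : L m) : ℤ[X]) = X ^ (m - 1) + C (a - 1) * (C c - u) + C c := by
  obtain ⟨k, rfl⟩ : ∃ k, m = k + 2 := ⟨m - 2, by omega⟩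
  have h1 := pow_e hm hX hD he k (by omega)
  have h2 : ((X₂ ((D₂ ^ k) e) : L (k + 2)) : ℤ[X]) = X ^ (k + 1) := by
    rw [hX, h1, coeff_X_pow, if_neg (by omega)]
    simp [pow_succ']
  show (((D₂ ^ (k + 1)) e : L (k + 2)) : ℤ[X]) = X ^ (k + 1) + C (a - 1) * (C c - u) + C c
  rw [pow_succ', Module.End.mul_apply, hD, h2, coeff_X_pow, coeff_X_pow, if_pos (by omega),
    if_neg (by omega)]
  simp

end XREL

theorem I_Rel : StRel := by
  intro m a b c d u w X₂ D₂ e g hm hu hud hwd hu0 hw0 hX hD he hg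
  have hum : u.coeff (m - 1) = -1 := by
    have h1 : (-u).coeff (m - 1) = 1 := by
      have h2 := hu.coeff_natDegree
      rwa [natDegree_neg, hud] at h2
    rw [coeff_neg] at h1
    omega
  refine ⟨XREL.pow_e hm hX hD he, ?_, ?_⟩
  · apply Subtype.ext
    have h1 : ((aeval D₂ u e : L m) : ℤ[X]) = u - (C (a - 1) * (C c - u) + C c) := by
      have h2 : m - 1 + 1 = m := by omega
      have hlt : u.natDegree < m - 1 + 1 := by omega
      rw [XREL.coe_aeval D₂ u e (m - 1 + 1) hlt, Finset.sum_range_succ, XREL.pow_top hm hX hD he,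
        Finset.sum_congr rfl (fun i hi => by
          rw [XREL.pow_e hm hX hD he i (by have := Finset.mem_range.1 hi; omega)])]
      have h3 : u = ∑ i ∈ Finset.range (m - 1), C (u.coeff i) * X ^ i +
          C (u.coeff (m - 1)) * X ^ (m - 1) := by
        rw [← Finset.sum_range_succ]
        conv_lhs => rw [as_sum_range' u (m - 1 + 1) hlt]
        exact Finset.sum_congr rfl fun i _ => (C_mul_X_pow_eq_monomial).symm
      rw [hum, map_neg, map_one] at h3
      have h4 : ∑ i ∈ Finset.range (m - 1), C (u.coeff i) * X ^ i = u + X ^ (m - 1) := by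
        linear_combination -h3
      rw [h4, hum, map_neg, map_one]
      ring
    rw [Submodule.coe_add, Submodule.coe_smul, h1, hg, smul_eq_C_mul]
    simp only [map_sub, map_one, Submodule.coe_zero]
    ring
  · apply Subtype.ext
    have h1 : ((aeval D₂ w e : L m) : ℤ[X]) = w := by
      have hlt : w.natDegree < m - 1 := by omega
      rw [XREL.coe_aeval D₂ w e (m - 1) hlt,
        Finset.sum_congr rfl (fun i hi => by
          rw [XREL.pow_e hm hX hD he i (by have := Finset.mem_range.1 hi; omega)])]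
      conv_rhs => rw [as_sum_range' w (m - 1) hlt]
      exact Finset.sum_congr rfl fun i _ => C_mul_X_pow_eq_monomial
    have hgm : ((g : L m) : ℤ[X]).coeff (m - 1) = 1 := by
      rw [hg, coeff_sub, hum, coeff_C, if_neg (by omega)]
      ring
    have h2 : ((X₂ g : L m) : ℤ[X]) = -w + C (d - 1) := by
      rw [hX, hgm, hg]
      simp only [map_sub, map_one]
      ring
    have h3 : (-w + C (d - 1) : ℤ[X]).coeff (m - 1) = 0 := by
      rw [coeff_add, coeff_neg, coeff_C, if_neg (by omega),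
        coeff_eq_zero_of_natDegree_lt (by omega : w.natDegree < m - 1)]
      ring
    have h4 : (-w + C (d - 1) : ℤ[X]).coeff 0 = -1 := by
      rw [coeff_add, coeff_neg, coeff_C, if_pos rfl, hw0]
      ring
    have h5 : ((D₂ g : L m) : ℤ[X]) = -w - C b * (C c - u) := by
      rw [hD, h2, h3, h4]
      simp only [map_sub, map_one, map_mul, map_neg, mul_zero, zero_add]
      ring
    rw [Submodule.coe_add, Submodule.coe_add, Submodule.coe_smul, h1, h5, hg, smul_eq_C_mul]
    simp only [Submodule.coe_zero]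
    ring

end Pool.Agent.StabComm
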