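import Pool.Agent.Work.MP_584b0c_al.Stab.Defs

set_option autoImplicit false

/-! Item SY: Sylvester's equation for a special right hand side. -/

namespace Pool.Agent.StabComm

open Polynomial

theorem I_Sy (h : StPoly) : StSy := by
  intro V W _ _ D₁ D₂ φ a₁ a₂ e f h1 h2
  obtain ⟨Z2, hZ2⟩ := h W V D₂ D₁ f (φ.smulRight e)
  refine ⟨φ.smulRight a₁ - Z2, fun y => ?_⟩
  have h3 := hZ2 y
  rw [h1] at h3
  simp only [LinearMap.smulRight_apply, LinearMap.zero_apply, map_smul, map_zero, sub_zero,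
    h2] at h3
  simp only [LinearMap.sub_apply, LinearMap.smulRight_apply, map_sub, map_smul]
  have h4 : D₂ (Z2 y) = Z2 (D₁ y) + φ y • (D₂ a₁ - a₂) := by
    rw [← h3]; abel
  rw [h4, smul_sub]
  abel

end Pool.Agent.StabComm
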