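import Pool.Agent.Work.MP_584b0c_al.Stab.Defs

set_option autoImplicit false

/-!
MP_584b0c_al, item SYA: the first Sylvester equation.
-/

namespace Pool.Agent.StabComm

open Polynomial

namespace XSYA

theorem mem_of_natDegree {m k : ℕ} {p : ℤ[X]} (h : p.natDegree ≤ k) (hk : k < m) :
    p ∈ Polynomial.degreeLT ℤ m := by
  rw [Polynomial.mem_degreeLT, Polynomial.degree_lt_iff_coeff_zero]
  intro j hj
  exact Polynomial.coeff_eq_zero_of_natDegree_lt (by omega)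

/-- the coefficient of degree `m - 1` as a linear map -/
noncomputable def top (m : ℕ) : L m →ₗ[ℤ] ℤ :=
  (Polynomial.lcoeff ℤ (m - 1)).comp (Polynomial.degreeLT ℤ m).subtype

theorem top_apply (m : ℕ) (y : L m) : top m y = (y : ℤ[X]).coeff (m - 1) := rfl

theorem natDegree_Cmul (l : ℤ) (p : ℤ[X]) : (C l * p).natDegree ≤ p.natDegree :=
  Polynomial.natDegree_C_mul_le l p

end XSYA

open XSYA

theorem I_SyA (hS : StSy) (hQ : StMulQ) : StSyA := by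
  intro m l f₁ f₂ B₁ B₂ X₁ X₂ R hm hf₁ hd₁ hc₁ hf₂ hd₂ hc₂ hB₁ hB₂ hff hX₁ hX₂ hR
  -- the elements
  have ha₁ : C l * B₁ ∈ Polynomial.degreeLT ℤ m :=
    mem_of_natDegree ((natDegree_Cmul l B₁).trans hB₁) (by omega)
  have ha₂ : C l * B₂ ∈ Polynomial.degreeLT ℤ m :=
    mem_of_natDegree ((natDegree_Cmul l B₂).trans hB₂) (by omega)
  have he : -divX f₁ ∈ Polynomial.degreeLT ℤ m := by
    refine mem_of_natDegree (k := m - 1) ?_ (by omega)
    rw [natDegree_neg, natDegree_divX_eq_natDegree_tsub_one, hd₁]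
  have hXe : X * (-divX f₁) = 1 - f₁ := by
    have h := divX_mul_X_add f₁
    rw [hc₁, C_1] at h
    linear_combination -h
  have hann : aeval X₂ f₂ = 0 := by
    ext y : 1
    apply Subtype.ext
    rw [hQ m f₂ X₂ (by omega) hf₂ hd₂ hX₂ f₂ y]
    rw [(modByMonic_eq_zero_iff_dvd hf₂).mpr (Dvd.intro _ rfl)]
    rfl
  have hP : (C l * (X * B₁ - B₂)).degree < f₁.degree := by
    rw [degree_eq_natDegree hf₁.ne_zero, hd₁, ← mem_degreeLT]
    refine mem_of_natDegree (k := m - 2) ((natDegree_Cmul _ _).trans ?_) (by omega)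
    refine (natDegree_sub_le _ _).trans (max_le ?_ (by omega))
    refine natDegree_mul_le.trans ?_
    have := natDegree_X_le (R := ℤ)
    omega
  have heq : aeval X₁ f₂ (⟨-divX f₁, he⟩ : L m) = X₁ ⟨C l * B₁, ha₁⟩ - ⟨C l * B₂, ha₂⟩ := by
    apply Subtype.ext
    rw [hQ m f₁ X₁ (by omega) hf₁ hd₁ hX₁ f₂ _]
    have h1 : ((X₁ ⟨C l * B₁, ha₁⟩ - ⟨C l * B₂, ha₂⟩ : L m) : ℤ[X]) =
        ((X₁ ⟨C l * B₁, ha₁⟩ : L m) : ℤ[X]) - C l * B₂ := rfl
    have h2 : (C l * B₁).coeff (m - 1) = 0 :=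
      coeff_eq_zero_of_natDegree_lt (lt_of_le_of_lt ((natDegree_Cmul l B₁).trans hB₁) (by omega))
    rw [h1, hX₁]
    show (f₂ * -divX f₁) %ₘ f₁ = X * (C l * B₁) - C ((C l * B₁).coeff (m - 1)) * f₁ - C l * B₂
    rw [h2, C_0, zero_mul, sub_zero]
    have h3 := (div_modByMonic_unique (f := f₂ * -divX f₁) (-divX f₁ + C l * (B₂ - X * B₁))
      (C l * (X * B₁ - B₂)) hf₁ ⟨?_, hP⟩).2
    · rw [h3]
      ring
    · linear_combination C l * (B₂ - X * B₁) * hXe + divX f₁ * hff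
  obtain ⟨Z, hZ⟩ := hS (L m) (L m) X₂ X₁ (top m) ⟨C l * B₁, ha₁⟩ ⟨C l * B₂, ha₂⟩
    ⟨-divX f₁, he⟩ f₂ hann heq
  refine ⟨Z, fun y => ?_⟩
  rw [hZ y]
  apply Subtype.ext
  have h1 : ((-R (X₂ y) : L m) : ℤ[X]) = -((R (X₂ y) : L m) : ℤ[X]) := rfl
  have h2 : ((top m y • (⟨C l * B₂, ha₂⟩ : L m) - top m (X₂ y) • (⟨C l * B₁, ha₁⟩ : L m) : L m) :
      ℤ[X]) = (top m y) • (C l * B₂) - (top m (X₂ y)) • (C l * B₁) := rfl
  have h3 : ((X₂ y : L m) : ℤ[X]).coeff 0 = -(y : ℤ[X]).coeff (m - 1) := by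
    rw [hX₂ y, coeff_sub, mul_coeff_zero, coeff_X_zero, zero_mul, coeff_C_mul, hc₂, mul_one,
      zero_sub]
  rw [h1, h2, hR, h3, top_apply, top_apply, zsmul_eq_mul, zsmul_eq_mul]
  simp only [C_mul, C_neg, ← Polynomial.C_eq_intCast, Int.cast_id]
  ring

end Pool.Agent.StabComm
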