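import Pool.Agent.Work.MP_584b0c_al.Stab.Defs

/-! MP_584b0c_al, SYB. -/

set_option autoImplicit false

namespace Pool.Agent.StabComm

open Polynomial

namespace XSYB

theorem ae_mul {V : Type} [AddCommGroup V] (D : V →ₗ[ℤ] V) (p q : ℤ[X]) (v : V) :
    aeval D (p * q) v = aeval D p (aeval D q v) := by
  rw [map_mul, Module.End.mul_apply]

theorem ae_C {V : Type} [AddCommGroup V] (D : V →ₗ[ℤ] V) (n : ℤ) (v : V) :
    aeval D (C n) v = n • v := by
  rw [aeval_C, Module.algebraMap_end_apply]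

theorem ae_X {V : Type} [AddCommGroup V] (D : V →ₗ[ℤ] V) (v : V) :
    aeval D (X : ℤ[X]) v = D v := by
  rw [aeval_X]

/-- conjugation -/
theorem ae_conj {V W : Type} [AddCommGroup V] [AddCommGroup W] (D : V →ₗ[ℤ] V) (E : W →ₗ[ℤ] W)
    (Θ : V ≃ₗ[ℤ] W) (h : ∀ y, Θ (D y) = E (Θ y)) (q : ℤ[X]) :
    ∀ y, Θ (aeval D q y) = aeval E q (Θ y) := by
  induction q using Polynomial.induction_on' with
  | add p q hp hq =>
    intro y
    rw [map_add, map_add, LinearMap.add_apply, LinearMap.add_apply, map_add, hp, hq]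
  | monomial n a =>
    intro y
    rw [← C_mul_X_pow_eq_monomial, ae_mul, ae_C, ae_mul, ae_C, map_smul]
    congr 1
    induction n generalizing y with
    | zero => simp
    | succ n ih =>
      rw [pow_succ', ae_mul, ae_X, ae_mul, ae_X, h, ih]

/-- the coefficient of degree `m - 1` -/
noncomputable def top (m : ℕ) : L m →ₗ[ℤ] ℤ where
  toFun y := (y : ℤ[X]).coeff (m - 1)
  map_add' y z := by
    rw [Submodule.coe_add, coeff_add]
  map_smul' n y := by
    rw [Submodule.coe_smul, coeff_smul]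
    rfl

theorem top_apply (m : ℕ) (y : L m) : top m y = (y : ℤ[X]).coeff (m - 1) := rfl

theorem top_X {m : ℕ} {f : ℤ[X]} {Xf : L m → L m} (hm : 3 ≤ m) (h : IsMul m f Xf) (y : L m) :
    top m (Xf y) = (y : ℤ[X]).coeff (m - 2) - (y : ℤ[X]).coeff (m - 1) * f.coeff (m - 1) := by
  rw [top_apply, h y, coeff_sub, coeff_C_mul]
  congr 1
  obtain ⟨n, rfl⟩ : ∃ n, m = n + 2 := ⟨m - 2, by omega⟩
  exact coeff_X_mul _ _

theorem main (hS : StSy) (hQ : StMulQ) (hT : StTheta) (hR : StRel) : StSyB := by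
  intro m a b c d ℓ u w f₁ B₁ B₂ X₁ X₂ D₁ D₂ S hm hu hud hwd hu0 hw0 hB₁ hB₂ hf hX₁ hX₂ hD₂ hD₁ hSS
  set f₂ : ℤ[X] := w - C d + 1 - X * (u - C c) with hf₂
  have he : (1 : ℤ[X]) ∈ degreeLT ℤ m := by
    rw [mem_degreeLT]
    refine lt_of_le_of_lt degree_one_le ?_
    exact_mod_cast (by omega : 0 < m)
  have hg : (C c - u : ℤ[X]) ∈ degreeLT ℤ m := by
    rw [mem_degreeLT]
    refine lt_of_le_of_lt (degree_sub_le _ _) (max_lt ?_ ?_)
    · refine lt_of_le_of_lt degree_C_le ?_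
      exact_mod_cast (by omega : 0 < m)
    · refine lt_of_le_of_lt degree_le_natDegree ?_
      rw [hud]
      exact_mod_cast (by omega : m - 1 < m)
  set e : L m := ⟨1, he⟩ with hee
  set g : L m := ⟨C c - u, hg⟩ with hgg
  obtain ⟨_, h2, h3⟩ := hR m a b c d u w X₂ D₂ e g hm hu hud hwd hu0 hw0 hX₂ hD₂ rfl rfl
  -- `f₂` is monic of degree `m`
  have hlow : (w - C d + 1 + X * C c : ℤ[X]).degree < (m : WithBot ℕ) := by
    have g1 : w.degree < (m : WithBot ℕ) := by
      refine lt_of_le_of_lt degree_le_natDegree ?_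
      exact_mod_cast (by omega : w.natDegree < m)
    have g2 : (C d : ℤ[X]).degree < (m : WithBot ℕ) := lt_of_le_of_lt degree_C_le (by
      exact_mod_cast (by omega : 0 < m))
    have g3 : (1 : ℤ[X]).degree < (m : WithBot ℕ) := lt_of_le_of_lt degree_one_le (by
      exact_mod_cast (by omega : 0 < m))
    have g4 : (X * C c : ℤ[X]).degree < (m : WithBot ℕ) := by
      have : (X * C c : ℤ[X]) = C c * X := mul_comm _ _
      rw [this]
      refine lt_of_le_of_lt (degree_C_mul_X_le c) ?_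
      exact_mod_cast (by omega : 1 < m)
    exact lt_of_le_of_lt (degree_add_le _ _) (max_lt (lt_of_le_of_lt (degree_add_le _ _)
      (max_lt (lt_of_le_of_lt (degree_sub_le _ _) (max_lt g1 g2)) g3)) g4)
  have hXu : (X * -u : ℤ[X]).Monic := monic_X.mul hu
  have hXud : (X * -u : ℤ[X]).natDegree = m := by
    rw [Monic.natDegree_mul monic_X hu, natDegree_X, natDegree_neg, hud]
    omega
  have hdeg : (X * -u : ℤ[X]).degree = (m : WithBot ℕ) := by
    rw [degree_eq_natDegree hXu.ne_zero, hXud]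
  have hf₂' : f₂ = X * -u + (w - C d + 1 + X * C c) := by
    rw [hf₂]; ring
  have hmon : f₂.Monic := by
    rw [hf₂']
    exact hXu.add_of_left (by rw [hdeg]; exact hlow)
  have hnat : f₂.natDegree = m := by
    rw [hf₂']
    rw [natDegree_add_eq_left_of_degree_lt (by rw [hdeg]; exact hlow), hXud]
  -- `f₂(D₁) = 0`
  obtain ⟨Θ, hΘ⟩ := hT m ℓ f₁ f₂ B₁ B₂ X₁ X₂ D₁ hm hB₁ hB₂ hf hX₁ hX₂ hD₁
  have hX0 : ∀ y, aeval X₂ f₂ y = 0 := by
    intro y
    apply Subtype.ext
    rw [hQ m f₂ X₂ (by omega) hmon hnat hX₂ f₂ y, Submodule.coe_zero]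
    exact (modByMonic_eq_zero_iff_dvd hmon).2 (dvd_mul_right _ _)
  have hD0 : aeval D₁ f₂ = 0 := by
    ext1 y
    apply Θ.injective
    rw [ae_conj D₁ X₂ Θ hΘ, hX0]
    simp
  -- `f₂(D₂) e`
  have hDe : aeval D₂ f₂ e = D₂ ((a - 1) • g + c • e) - (b • g + (d - 1) • e) := by
    have e2 : aeval D₂ u e = -(a • g) := eq_neg_of_add_eq_zero_right h2
    have e3 : aeval D₂ w e = -(b • g + D₂ g) := eq_neg_of_add_eq_zero_right h3
    rw [hf₂, map_sub, LinearMap.sub_apply, map_add, LinearMap.add_apply, map_sub,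
      LinearMap.sub_apply, map_one, ae_C, ae_mul, ae_X, map_sub, LinearMap.sub_apply, ae_C, e2, e3,
      map_sub, map_neg, map_smul, map_smul, map_add, map_smul, map_smul]
    show _ + e - _ = _
    module
  obtain ⟨Z, hZ⟩ := hS (L m) (L m) D₁ D₂ ((top m).comp X₁) ((a - 1) • g + c • e)
    (b • g + (d - 1) • e) e f₂ hD0 hDe
  refine ⟨Z, fun y => ?_⟩
  rw [hZ y]
  have hphi : ((top m).comp X₁) (D₁ y) = top m (X₁ (X₁ y)) := by
    rw [LinearMap.comp_apply, top_X hm hX₁, top_X hm hX₁, hD₁ y]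
    have k1 : B₁.coeff (m - 1) = 0 := coeff_eq_zero_of_natDegree_lt (by omega)
    have k2 : B₂.coeff (m - 1) = 0 := coeff_eq_zero_of_natDegree_lt (by omega)
    have k3 : B₁.coeff (m - 2) = 0 := coeff_eq_zero_of_natDegree_lt (by omega)
    have k4 : B₂.coeff (m - 2) = 0 := coeff_eq_zero_of_natDegree_lt (by omega)
    simp only [coeff_sub, coeff_add, coeff_C_mul, k1, k2, k3, k4, mul_zero, add_zero, sub_zero]
  rw [hphi]
  apply Subtype.ext
  rw [hSS (X₁ y)]
  show (top m (X₁ y)) • (b • (C c - u) + (d - 1) • (1 : ℤ[X])) -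
    (top m (X₁ (X₁ y))) • ((a - 1) • (C c - u) + c • (1 : ℤ[X])) = _
  rw [top_apply, top_apply]
  simp only [smul_eq_C_mul, mul_one]

end XSYB

theorem I_SyB (hS : StSy) (hQ : StMulQ) (hT : StTheta) (hR : StRel) : StSyB :=
  XSYB.main hS hQ hT hR

end Pool.Agent.StabComm
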