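import Pool.Agent.Work.MP_584b0c_al.Stab.Defs

set_option autoImplicit false

namespace Pool.Agent.StabComm

open Polynomial

theorem I_Sylv (h : StPoly) : StSylv := by
  intro V W _ _ A D f g hf hg hfg Y
  obtain ⟨u, v, huv⟩ := hfg
  obtain ⟨Z, hZ⟩ := h V W A D (v * g) Y
  refine ⟨Z, fun y => ?_⟩
  have h1 : aeval A (v * g) = (1 : V →ₗ[ℤ] V) := by
    have h2 := congrArg (aeval A) huv
    rw [map_add, map_mul, hf, mul_zero, zero_add, map_one] at h2
    exact h2
  have h3 : aeval D (v * g) = (0 : W →ₗ[ℤ] W) := by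
    rw [map_mul, hg, mul_zero]
  rw [hZ y, h1, h3]
  simp

end Pool.Agent.StabComm
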