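import Pool.Agent.Work.MP_584b0c_al.Stab.Defs

set_option autoImplicit false

/-! Size two: assembly. -/

namespace Pool.Agent.StabComm

open Polynomial

namespace XTWO

/-- coefficient functional -/
noncomputable def cf (m i : ℕ) : L m →ₗ[ℤ] ℤ := (lcoeff ℤ i).comp (degreeLT ℤ m).subtype

@[simp] theorem cf_apply (m i : ℕ) (y : L m) : cf m i y = (y : ℤ[X]).coeff i := rfl

theorem mem_of_natDegree {m k : ℕ} {p : ℤ[X]} (h : p.natDegree ≤ k) (hk : k < m) :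
    p ∈ degreeLT ℤ m := by
  rw [mem_degreeLT]
  exact lt_of_le_of_lt (degree_le_of_natDegree_le h) (by exact_mod_cast hk)

/-- element of `L m` -/
def mk {m k : ℕ} (p : ℤ[X]) (h : p.natDegree ≤ k) (hk : k < m) : L m :=
  ⟨p, mem_of_natDegree h hk⟩

@[simp] theorem coe_mk' {m k : ℕ} (p : ℤ[X]) (h : p.natDegree ≤ k) (hk : k < m) :
    ((mk p h hk : L m) : ℤ[X]) = p := rfl

theorem coe_smul' {m : ℕ} (a : ℤ) (y : L m) : ((a • y : L m) : ℤ[X]) = C a * (y : ℤ[X]) := by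
  rw [Submodule.coe_smul, ← smul_eq_C_mul]

theorem coeff_top_lt {p : ℤ[X]} {k n : ℕ} (h : p.natDegree ≤ k) (hn : k < n) : p.coeff n = 0 :=
  coeff_eq_zero_of_natDegree_lt (lt_of_le_of_lt h hn)

theorem top_mul {m : ℕ} {f : ℤ[X]} {X₁ : L m → L m} (hm : 2 ≤ m) (h : IsMul m f X₁) {y : L m}
    {k : ℕ} (hy : (y : ℤ[X]).natDegree ≤ k) (hk : k + 2 < m) :
    ((X₁ y : L m) : ℤ[X]).coeff (m - 1) = 0 := by
  rw [h y, coeff_sub, coeff_top_lt hy (by omega : k < m - 1), C_0, zero_mul, coeff_zero, sub_zero]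
  obtain ⟨m, rfl⟩ : ∃ m', m = m' + 2 := ⟨m - 2, by omega⟩
  rw [show m + 2 - 1 = m + 1 by omega, coeff_X_mul]
  exact coeff_top_lt hy (by omega)

theorem mst_one (n : Type) [Fintype n] [DecidableEq n] : MSt (1 : Matrix n n ℤ) := by
  refine ⟨0, LinearEquiv.refl ℤ _, LinearEquiv.refl ℤ _, ?_⟩
  rintro ⟨v, t⟩
  have h : (0 : Fin 0 → ℤ) = t := Subsingleton.elim _ _
  subst h
  simp

end XTWO

open XTWO in
theorem I_Two (hN : StNf) (hP : StPair) (hs : StPsi) (hX : StMulX) (hT : StTheta) (hK : StKry)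
    (hA : StSyA) (hB : StSyB) (hG : StGlue) (hR : StRank) (hC : StMconj) : StTwo := by
  intro M hM
  obtain ⟨P, G, ℓ, δ, hPG⟩ := hN (M - 1)
  -- reduction to the normal form
  have hred : MSt (1 + ℓ • ((G : Matrix (Fin 2) (Fin 2) ℤ) * !![1, 1; 0, δ])) → MSt M := by
    refine hC _ _ M _ (P : Matrix (Fin 2) (Fin 2) ℤ) ((P⁻¹ : (Matrix (Fin 2) (Fin 2) ℤ)ˣ) :
      Matrix (Fin 2) (Fin 2) ℤ) (Units.mul_inv P) (Units.inv_mul P) ?_
    rw [Matrix.add_mul, ← hPG, Matrix.one_mul, Matrix.mul_sub, Matrix.mul_one]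
    abel
  apply hred
  have hdet : (1 + ℓ • ((G : Matrix (Fin 2) (Fin 2) ℤ) * !![1, 1; 0, δ])).det = 1 := by
    have h1 : (P : Matrix (Fin 2) (Fin 2) ℤ) * M =
        (1 + ℓ • ((G : Matrix (Fin 2) (Fin 2) ℤ) * !![1, 1; 0, δ])) *
          (P : Matrix (Fin 2) (Fin 2) ℤ) := by
      rw [Matrix.add_mul, ← hPG, Matrix.one_mul, Matrix.mul_sub, Matrix.mul_one]
      abel
    have h2 := congrArg Matrix.det h1
    rw [Matrix.det_mul, Matrix.det_mul, hM, mul_one, mul_comm] at h2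
    have h3 : IsUnit (P : Matrix (Fin 2) (Fin 2) ℤ).det :=
      (Matrix.isUnit_iff_isUnit_det _).1 P.isUnit
    have h4 : (1 + ℓ • ((G : Matrix (Fin 2) (Fin 2) ℤ) * !![1, 1; 0, δ])).det *
        (P : Matrix (Fin 2) (Fin 2) ℤ).det = 1 * (P : Matrix (Fin 2) (Fin 2) ℤ).det := by
      rw [mul_comm, ← h2, mul_comm 1, mul_one]
    exact h3.mul_left_injective h4
  by_cases hℓ : ℓ = 0
  · rw [hℓ, zero_smul, add_zero]
    exact mst_one _
  have hGdet : IsUnit (G : Matrix (Fin 2) (Fin 2) ℤ).det :=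
    (Matrix.isUnit_iff_isUnit_det _).1 G.isUnit
  generalize (G : Matrix (Fin 2) (Fin 2) ℤ) = G' at *
  obtain ⟨p, q, r, s, rfl⟩ : ∃ p q r s, G' = !![p, q; r, s] :=
    ⟨_, _, _, _, Matrix.eta_fin_two G'⟩
  have hM' : (1 + ℓ • (!![p, q; r, s] * !![1, 1; 0, δ]) : Matrix (Fin 2) (Fin 2) ℤ) =
      !![1 + ℓ * p, ℓ * (p + δ * q); ℓ * r, 1 + ℓ * (r + δ * s)] := by
    rw [Matrix.mul_fin_two, Matrix.one_fin_two]
    ext i j
    fin_cases i <;> fin_cases j <;> simp [mul_comm]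
  rw [hM'] at hdet ⊢
  rw [Matrix.det_fin_two_of] at hdet hGdet
  clear hred hPG hM' hM
  have htr : p + (r + δ * s) + ℓ * (p * (r + δ * s) - (p + δ * q) * r) = 0 := by
    have h1 : ℓ * (p + (r + δ * s) + ℓ * (p * (r + δ * s) - (p + δ * q) * r)) = 0 := by
      linear_combination hdet
    rcases mul_eq_zero.1 h1 with h2 | h2
    · exact absurd h2 hℓ
    · exact h2
  have hcd : IsCoprime (ℓ * r) (1 + ℓ * (r + δ * s)) :=
    ⟨-(ℓ * (p + δ * q)), 1 + ℓ * p, by linear_combination hdet⟩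
  obtain ⟨m, u, w, hm, huw, humon, hud, hwd, hu0, hw0, hu1, hw1⟩ := hP _ _ hcd
  obtain ⟨ψ₁, ψ₂, hψ₁, hψ₂, hψ⟩ := hs m u w ℓ δ p q r s hm hGdet htr hud hwd hu0 hw0 hu1 hw1
  set a := 1 + ℓ * p with ha
  set b := ℓ * (p + δ * q) with hb
  set c := ℓ * r with hc
  set d := 1 + ℓ * (r + δ * s) with hd
  set B₁ := C p * ψ₁ + C r * ψ₂ with hB₁
  set B₂ := C (p + δ * q) * ψ₁ + C (r + δ * s) * ψ₂ with hB₂
  set f₁ := C a * w - (C b + X) * u with hf₁
  set f₂ := w - C d + 1 - X * (u - C c) with hf₂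
  have hlin : ∀ x y : ℤ, (C x * ψ₁ + C y * ψ₂).natDegree ≤ m - 3 := by
    intro x y
    refine natDegree_add_le_of_degree_le ?_ ?_
    · exact (natDegree_C_mul_le _ _).trans hψ₁
    · exact (natDegree_C_mul_le _ _).trans hψ₂
  have hB₁d : B₁.natDegree ≤ m - 3 := hlin _ _
  have hB₂d : B₂.natDegree ≤ m - 3 := hlin _ _
  have hff : C ℓ * X * (B₂ - X * B₁) = f₁ - f₂ := by
    rw [mul_assoc, hψ, hf₁, hf₂, ha, hb, hc, hd]
    simp only [C_add, C_mul, C_1]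
    ring
  -- monic
  have hXu : (X * (-u)).Monic := monic_X.mul humon
  have hXud : (X * (-u)).natDegree = m := by
    rw [natDegree_X_mul (by
      intro h
      rw [h] at humon
      exact not_monic_zero humon), natDegree_neg, hud]
    omega
  have hlow : ∀ g : ℤ[X], g.natDegree ≤ m - 1 → (X * (-u) + g).Monic ∧
      (X * (-u) + g).natDegree = m := by
    intro g hg
    have h1 : g.degree < (X * (-u)).degree := by
      rw [degree_eq_natDegree hXu.ne_zero, hXud]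
      exact lt_of_le_of_lt (degree_le_of_natDegree_le hg) (by exact_mod_cast (by omega : m - 1 < m))
    refine ⟨hXu.add_of_left h1, ?_⟩
    rw [natDegree_add_eq_left_of_degree_lt h1, hXud]
  have hwd' : w.natDegree ≤ m - 1 := hwd.trans (by omega)
  have hf₁' : f₁.Monic ∧ f₁.natDegree = m := by
    have h1 : f₁ = X * (-u) + (C a * w - C b * u) := by rw [hf₁]; ring
    rw [h1]
    apply hlow
    refine (natDegree_sub_le _ _).trans (max_le ?_ ?_)
    · exact (natDegree_C_mul_le _ _).trans hwd'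
    · exact (natDegree_C_mul_le _ _).trans hud.le
  have hf₂' : f₂.Monic ∧ f₂.natDegree = m := by
    have h1 : f₂ = X * (-u) + (w + C (1 - d) + C c * X) := by
      rw [hf₂]
      simp only [C_sub, C_1]
      ring
    rw [h1]
    apply hlow
    refine (natDegree_add_le _ _).trans (max_le ?_ ?_)
    · refine (natDegree_add_le _ _).trans (max_le hwd' ?_)
      rw [natDegree_C]
      omega
    · exact (natDegree_C_mul_le _ _).trans (natDegree_X_le.trans (by omega))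
  have hf₁0 : f₁.coeff 0 = 1 := by
    rw [hf₁]
    simp only [coeff_sub, mul_coeff_zero, coeff_add, coeff_C_zero, coeff_X_zero, hu0, hw0]
    linear_combination hdet
  have hf₂0 : f₂.coeff 0 = 1 := by
    rw [hf₂]
    simp only [coeff_sub, mul_coeff_zero, coeff_add, coeff_C_zero, coeff_X_zero, coeff_one_zero,
      hu0, hw0]
    ring
  obtain ⟨X₁, hX₁⟩ := hX m f₁ (by omega) hf₁'.1 hf₁'.2 hf₁0
  obtain ⟨X₂, hX₂⟩ := hX m f₂ (by omega) hf₂'.1 hf₂'.2 hf₂0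
  -- elements and maps
  have hm3 : m - 3 < m := by omega
  have hgd : (C c - u).natDegree ≤ m - 1 := by
    refine (natDegree_sub_le _ _).trans (max_le ?_ hud.le)
    rw [natDegree_C]
    omega
  have hm1 : m - 1 < m := by omega
  have hoo : (1 : ℤ[X]).natDegree ≤ m - 1 := by
    rw [natDegree_one]
    omega
  let bB₁ : L m := mk B₁ hB₁d hm3
  let bB₂ : L m := mk B₂ hB₂d hm3
  let p₁ : L m := mk ψ₁ hψ₁ hm3
  let p₂ : L m := mk ψ₂ hψ₂ hm3
  let g₁ : L m := mk (C c - u) hgd hm1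
  let e₁ : L m := mk 1 hoo hm1
  let X₁' : L m →ₗ[ℤ] L m := X₁
  let X₂' : L m →ₗ[ℤ] L m := X₂
  let D₁ : L m →ₗ[ℤ] L m := X₁' + ((ℓ • (cf m (m - 1)).comp X₁').smulRight bB₂ -
    (ℓ • (cf m (m - 1)).comp (X₁'.comp X₁')).smulRight bB₁)
  let D₂ : L m →ₗ[ℤ] L m := X₂' +
    (((a - 1) • cf m (m - 1) + b • cf m 0).comp X₂').smulRight g₁ +
    ((c • cf m (m - 1) + (d - 1) • cf m 0).comp X₂').smulRight e₁
  let R : L m →ₗ[ℤ] L m := (ℓ • cf m (m - 1)).smulRight bB₁ + (ℓ • cf m 0).smulRight bB₂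
  let S : L m →ₗ[ℤ] L m := (cf m (m - 1)).smulRight (b • g₁ + (d - 1) • e₁) -
    ((cf m (m - 1)).comp X₁').smulRight ((a - 1) • g₁ + c • e₁)
  have hD₁ : ∀ y : L m, ((D₁ y : L m) : ℤ[X]) =
      X₁ y + C (ℓ * ((X₁ y : L m) : ℤ[X]).coeff (m - 1)) * B₂
        - C (ℓ * ((X₁ (X₁ y) : L m) : ℤ[X]).coeff (m - 1)) * B₁ := by
    intro y
    simp only [D₁, X₁', bB₁, bB₂, LinearMap.add_apply, LinearMap.sub_apply,
      LinearMap.smulRight_apply, LinearMap.smul_apply, LinearMap.comp_apply, cf_apply,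
      LinearEquiv.coe_coe, Submodule.coe_add, Submodule.coe_sub, coe_smul', coe_mk', smul_eq_mul]
    ring
  have hD₂ : IsD2 m a b c d u X₂' D₂ := by
    intro y
    simp only [D₂, X₂', g₁, e₁, LinearMap.add_apply, LinearMap.sub_apply,
      LinearMap.smulRight_apply, LinearMap.smul_apply, LinearMap.comp_apply, cf_apply,
      LinearEquiv.coe_coe, Submodule.coe_add, Submodule.coe_sub, coe_smul', coe_mk', smul_eq_mul]
    ring
  have hRy : ∀ y : L m, ((R y : L m) : ℤ[X]) =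
      C (ℓ * (y : ℤ[X]).coeff (m - 1)) * B₁ + C (ℓ * (y : ℤ[X]).coeff 0) * B₂ := by
    intro y
    simp only [R, bB₁, bB₂, LinearMap.add_apply, LinearMap.sub_apply,
      LinearMap.smulRight_apply, LinearMap.smul_apply, LinearMap.comp_apply, cf_apply,
      LinearEquiv.coe_coe, Submodule.coe_add, Submodule.coe_sub, coe_smul', coe_mk', smul_eq_mul]
  have hSy : ∀ y : L m, ((S y : L m) : ℤ[X]) =
      C ((y : ℤ[X]).coeff (m - 1)) * (C b * (C c - u) + C (d - 1)) -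
      C (((X₁ y : L m) : ℤ[X]).coeff (m - 1)) * (C (a - 1) * (C c - u) + C c) := by
    intro y
    simp only [S, X₁', g₁, e₁, LinearMap.add_apply, LinearMap.sub_apply,
      LinearMap.smulRight_apply, LinearMap.smul_apply, LinearMap.comp_apply, cf_apply,
      LinearEquiv.coe_coe, Submodule.coe_add, Submodule.coe_sub, coe_smul', coe_mk', smul_eq_mul]
    ring
  obtain ⟨Θ, hΘ⟩ := hT m ℓ f₁ f₂ B₁ B₂ X₁' X₂' D₁ (by omega) hB₁d hB₂d hff hX₁ hX₂ hD₁
  obtain ⟨K, hKK⟩ := hK m a b c d u w X₁' X₂' D₂ (by omega) humon hud hwd hu0 hw0 huw hX₁ hX₂ hD₂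
  obtain ⟨Z, hZ⟩ := hA m ℓ f₁ f₂ B₁ B₂ X₁' X₂' R (by omega) hf₁'.1 hf₁'.2 hf₁0 hf₂'.1 hf₂'.2 hf₂0
    hB₁d hB₂d hff hX₁ hX₂ hRy
  obtain ⟨Z', hZ'⟩ := hB m a b c d ℓ u w f₁ B₁ B₂ X₁' X₂' D₁ D₂ S (by omega) humon hud hwd hu0 hw0
    hB₁d hB₂d hff hX₁ hX₂ hD₂ hD₁ hSy
  let V : (Fin 2 → ℤ) →ₗ[ℤ] (L m × L m) :=
    ((LinearMap.proj 0 : (Fin 2 → ℤ) →ₗ[ℤ] ℤ).smulRight p₁ +
      (LinearMap.proj 1 : (Fin 2 → ℤ) →ₗ[ℤ] ℤ).smulRight p₂).prod
    ((LinearMap.proj 0 : (Fin 2 → ℤ) →ₗ[ℤ] ℤ).smulRight g₁ +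
      (LinearMap.proj 1 : (Fin 2 → ℤ) →ₗ[ℤ] ℤ).smulRight e₁)
  let Φ : (L m × L m) →ₗ[ℤ] (Fin 2 → ℤ) := LinearMap.pi
    ![(-(cf m (m - 1)).comp X₁').coprod (cf m (m - 1)), (cf m (m - 1)).coprod (cf m 0)]
  have hV : ∀ t, V t = (t 0 • p₁ + t 1 • p₂, t 0 • g₁ + t 1 • e₁) := fun t => rfl
  have hΦ : ∀ y z : L m, Φ (y, z) = ![-((X₁ y : L m) : ℤ[X]).coeff (m - 1) +
      (z : ℤ[X]).coeff (m - 1), (y : ℤ[X]).coeff (m - 1) + (z : ℤ[X]).coeff 0] := by
    intro y z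
    funext i
    fin_cases i <;> rfl
  let g : (L m × L m) →ₗ[ℤ] (L m × L m) := LinearMap.id +
    V.comp (((Matrix.toLin' !![a, b; c, d]) - LinearMap.id).comp Φ)
  have hg : ∀ y, g y = y + V ((!![a, b; c, d] : Matrix (Fin 2) (Fin 2) ℤ).mulVec (Φ y) - Φ y) :=
    fun y => rfl
  -- values of the functionals
  have htp : ∀ (x y : ℤ), ((x • p₁ + y • p₂ : L m) : ℤ[X]).natDegree ≤ m - 3 := by
    intro x y
    have h1 : ((x • p₁ + y • p₂ : L m) : ℤ[X]) = C x * ψ₁ + C y * ψ₂ := by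
      simp only [p₁, p₂, Submodule.coe_add, coe_smul', coe_mk']
    rw [h1]
    exact hlin x y
  have hΦV : ∀ t, Φ (V t) = t := by
    intro t
    rw [hV, hΦ]
    have h1 : ((X₁ (t 0 • p₁ + t 1 • p₂) : L m) : ℤ[X]).coeff (m - 1) = 0 :=
      top_mul (by omega) hX₁ (htp _ _) (by omega)
    have h2 : ((t 0 • p₁ + t 1 • p₂ : L m) : ℤ[X]).coeff (m - 1) = 0 :=
      coeff_top_lt (htp _ _) (by omega)
    have h3 : u.coeff (m - 1) = -1 := by
      have := humon.coeff_natDegree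
      rw [natDegree_neg, hud, coeff_neg] at this
      linarith
    have h4 : ((t 0 • g₁ + t 1 • e₁ : L m) : ℤ[X]) = C (t 0) * (C c - u) + C (t 1) := by
      simp only [g₁, e₁, Submodule.coe_add, coe_smul', coe_mk', mul_one]
    have h5 : m - 1 ≠ 0 := by omega
    have h6 : (C (t 0) * (C c - u) + C (t 1)).coeff (m - 1) = t 0 := by
      rw [coeff_add, coeff_C_mul, coeff_sub, coeff_C_ne_zero h5, coeff_C_ne_zero h5, h3]
      ring
    have h7 : (C (t 0) * (C c - u) + C (t 1)).coeff 0 = t 1 := by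
      rw [coeff_add, coeff_C_mul, coeff_sub, coeff_C_zero, coeff_C_zero, hu0]
      ring
    rw [h1, h2, h4, h6, h7]
    funext i
    fin_cases i <;> simp
  apply hR 2 (L m × L m) _ V Φ g hΦV hg
  let T : (L m × L m) ≃ₗ[ℤ] (L m × L m) :=
    (LinearEquiv.prodComm ℤ (L m) (L m)).trans (Θ.symm.prodCongr K)
  have hT' : ∀ y, T y = (Θ.symm y.2, K y.1) := fun y => rfl
  refine hG (L m) (L m) X₁ X₂ D₁ D₂ T R Z S Z' g ?_ hZ hZ' ?_
  · intro y
    rw [hT', hT']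
    ext1
    · show Θ.symm (X₂ y.2) = D₁ (Θ.symm y.2)
      rw [LinearEquiv.symm_apply_eq, hΘ, LinearEquiv.apply_symm_apply]
      rfl
    · show K (X₁ y.1) = D₂ (K y.1)
      rw [hKK]
      rfl
  · intro y z
    rw [hg, hΦ]
    have hR0 : ((X₁ (R (X₂ z)) : L m) : ℤ[X]).coeff (m - 1) = 0 := by
      refine top_mul (by omega) hX₁ (k := m - 3) ?_ (by omega)
      rw [hRy]
      refine natDegree_add_le_of_degree_le ?_ ?_
      · exact (natDegree_C_mul_le _ _).trans hB₁d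
      · exact (natDegree_C_mul_le _ _).trans hB₂d
    have hR1 : ((R (X₂ z) : L m) : ℤ[X]).coeff (m - 1) = 0 := by
      refine coeff_top_lt (k := m - 3) ?_ (by omega)
      rw [hRy]
      refine natDegree_add_le_of_degree_le ?_ ?_
      · exact (natDegree_C_mul_le _ _).trans hB₁d
      · exact (natDegree_C_mul_le _ _).trans hB₂d
    have h1 : ((X₁ (X₁ y - R (X₂ z)) : L m) : ℤ[X]).coeff (m - 1) =
        ((X₁ (X₁ y) : L m) : ℤ[X]).coeff (m - 1) := by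
      rw [map_sub, Submodule.coe_sub, coeff_sub, hR0, sub_zero]
    have h2 : ((X₁ y - R (X₂ z) : L m) : ℤ[X]).coeff (m - 1) =
        ((X₁ y : L m) : ℤ[X]).coeff (m - 1) := by
      rw [Submodule.coe_sub, coeff_sub, hR1, sub_zero]
    rw [h1, h2, hV]
    have h3 := hRy (X₂ z)
    have h4 := hD₁ y
    have h5 := hD₂ z
    have h6 := hSy (X₁ y)
    have hX₂z : ((X₂' z : L m) : ℤ[X]) = ((X₂ z : L m) : ℤ[X]) := rfl
    rw [hX₂z] at h5
    generalize ((X₁ (X₁ y) : L m) : ℤ[X]).coeff (m - 1) = α at *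
    generalize ((X₁ y : L m) : ℤ[X]).coeff (m - 1) = β at *
    generalize ((X₂ z : L m) : ℤ[X]).coeff (m - 1) = γ at *
    generalize ((X₂ z : L m) : ℤ[X]).coeff 0 = ε at *
    ext1
    · apply Subtype.ext
      show ((X₁ y - R (X₂ z) + (_ • p₁ + _ • p₂) : L m) : ℤ[X]) = _
      rw [h4]
      simp only [Matrix.mulVec, dotProduct, Fin.sum_univ_two, Pi.sub_apply, Matrix.of_apply,
        Matrix.cons_val_zero, Matrix.cons_val_one, Submodule.coe_add, Submodule.coe_sub, coe_smul',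
        p₁, p₂, coe_mk', h3]
      rw [hB₁, hB₂, ha, hb, hc, hd]
      simp only [C_add, C_mul, C_1, C_sub, C_neg]
      ring
    · apply Subtype.ext
      show ((X₂ z + (_ • g₁ + _ • e₁) : L m) : ℤ[X]) = ((S (X₁ y) + D₂ z : L m) : ℤ[X])
      rw [Submodule.coe_add (S (X₁ y)), h5, h6]
      simp only [Matrix.mulVec, dotProduct, Fin.sum_univ_two, Pi.sub_apply, Matrix.of_apply,
        Matrix.cons_val_zero, Matrix.cons_val_one, Submodule.coe_add, Submodule.coe_sub, coe_smul',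
        g₁, e₁, coe_mk']
      simp only [C_add, C_mul, C_1, C_sub, C_neg]
      ring

end Pool.Agent.StabComm
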