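import Pool.Agent.Work.MP_584b0c_al.Stab.P_BIL
import Pool.Agent.Work.MP_584b0c_al.Stab.P_COMP
import Pool.Agent.Work.MP_584b0c_al.Stab.P_DROP
import Pool.Agent.Work.MP_584b0c_al.Stab.P_FIN
import Pool.Agent.Work.MP_584b0c_al.Stab.P_GLUE
import Pool.Agent.Work.MP_584b0c_al.Stab.P_GLUE1
import Pool.Agent.Work.MP_584b0c_al.Stab.P_KRY
import Pool.Agent.Work.MP_584b0c_al.Stab.P_LIFT
import Pool.Agent.Work.MP_584b0c_al.Stab.P_MCONJ
import Pool.Agent.Work.MP_584b0c_al.Stab.P_MDROP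
import Pool.Agent.Work.MP_584b0c_al.Stab.P_MFIN
import Pool.Agent.Work.MP_584b0c_al.Stab.P_MPIVOT
import Pool.Agent.Work.MP_584b0c_al.Stab.P_MULQ
import Pool.Agent.Work.MP_584b0c_al.Stab.P_MULX
import Pool.Agent.Work.MP_584b0c_al.Stab.P_NF
import Pool.Agent.Work.MP_584b0c_al.Stab.P_PAD
import Pool.Agent.Work.MP_584b0c_al.Stab.P_PAIR
import Pool.Agent.Work.MP_584b0c_al.Stab.P_PIVOT
import Pool.Agent.Work.MP_584b0c_al.Stab.P_POLY
import Pool.Agent.Work.MP_584b0c_al.Stab.P_PSI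
import Pool.Agent.Work.MP_584b0c_al.Stab.P_RANK
import Pool.Agent.Work.MP_584b0c_al.Stab.P_RED
import Pool.Agent.Work.MP_584b0c_al.Stab.P_RED1
import Pool.Agent.Work.MP_584b0c_al.Stab.P_RED2
import Pool.Agent.Work.MP_584b0c_al.Stab.P_REL
import Pool.Agent.Work.MP_584b0c_al.Stab.P_SY
import Pool.Agent.Work.MP_584b0c_al.Stab.P_SYA
import Pool.Agent.Work.MP_584b0c_al.Stab.P_SYB
import Pool.Agent.Work.MP_584b0c_al.Stab.P_SYLV
import Pool.Agent.Work.MP_584b0c_al.Stab.P_THETA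
import Pool.Agent.Work.MP_584b0c_al.Stab.P_TWO

set_option autoImplicit false

/-! Assembly of the stable commutator theorem. -/

namespace Pool.Agent.StabComm

theorem stPoly : StPoly := I_Poly
theorem stSylv : StSylv := I_Sylv stPoly
theorem stGlue1 : StGlue1 := I_Glue1 I_Glue stSylv
theorem stPivot : StPivot := I_Pivot stGlue1
theorem stMconj : StMconj := I_Mconj
theorem stMpivot : StMpivot := I_Mpivot stPivot
theorem stMdrop : StMdrop := I_Mdrop I_Drop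
theorem stMfin : StMfin := I_Mfin (I_Pad stGlue1)
theorem stRed : StRed :=
  I_Red I_Bil I_Comp I_Lift stMconj (I_Red1 stMconj stMpivot stMdrop) (I_Red2 stMconj stMpivot)
theorem stSy : StSy := I_Sy stPoly
theorem stTwo : StTwo :=
  I_Two (I_Nf I_Bil I_Comp) I_Pair I_Psi I_MulX I_Theta (I_Kry I_Rel) (I_SyA stSy I_MulQ)
    (I_SyB stSy I_MulQ I_Theta I_Rel) I_Glue I_Rank stMconj

/-- Every matrix of determinant one is stably a commutator. -/
theorem stable_commutators : ∀ (k : ℕ) (C : Matrix (Fin k) (Fin k) ℤ), C.det = 1 →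
    ∃ j₀ : ℕ, ∀ j, j₀ ≤ j → ∃ A B : (Matrix (Fin k ⊕ Fin j) (Fin k ⊕ Fin j) ℤ)ˣ,
      ((A * B * A⁻¹ * B⁻¹ : (Matrix (Fin k ⊕ Fin j) (Fin k ⊕ Fin j) ℤ)ˣ) :
        Matrix (Fin k ⊕ Fin j) (Fin k ⊕ Fin j) ℤ) = Matrix.fromBlocks C 0 0 1 :=
  I_Fin stRed stTwo stMfin

end Pool.Agent.StabComm
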