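import Mathlib

set_option autoImplicit false

/-!
MP_584b0c_al (integral commutators), owner helper42.
For every C in SL_k(Z) the matrix C ⊕ 1_j is a commutator in GL_{k+j}(Z) for all large j.
-/

namespace Pool.Agent.StabComm

open Polynomial

section modules

variable {V W : Type} [AddCommGroup V] [AddCommGroup W]

/-- `g` is a commutator of automorphisms, `g = P X P⁻¹ X⁻¹`. -/
def IsC (g : V →ₗ[ℤ] V) : Prop :=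
  ∃ X P : V ≃ₗ[ℤ] V, ∀ v, g (X (P v)) = P (X v)

/-- `g` becomes a commutator after adding an identity block. -/
def St (g : V →ₗ[ℤ] V) : Prop :=
  ∃ j : ℕ, IsC (g.prodMap (LinearMap.id : (Fin j → ℤ) →ₗ[ℤ] (Fin j → ℤ)))

theorem IsC.conj (e : V ≃ₗ[ℤ] W) {g : V →ₗ[ℤ] V} {h : W →ₗ[ℤ] W} (H : ∀ v, e (g v) = h (e v))
    (hg : IsC g) : IsC h := by
  obtain ⟨X, P, hXP⟩ := hg
  refine ⟨e.symm.trans (X.trans e), e.symm.trans (P.trans e), fun w => ?_⟩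
  simp only [LinearEquiv.trans_apply, LinearEquiv.symm_apply_apply]
  rw [← H, hXP]

theorem St.conj (e : V ≃ₗ[ℤ] W) {g : V →ₗ[ℤ] V} {h : W →ₗ[ℤ] W} (H : ∀ v, e (g v) = h (e v))
    (hg : St g) : St h := by
  obtain ⟨j, hj⟩ := hg
  refine ⟨j, IsC.conj (e.prodCongr (LinearEquiv.refl ℤ (Fin j → ℤ))) ?_ hj⟩
  rintro ⟨v, t⟩
  simp [H]

end modules

/-- Stability for matrices. -/
def MSt {n : Type} [Fintype n] [DecidableEq n] (C : Matrix n n ℤ) : Prop :=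
  St (Matrix.toLin' C)

/-- Polynomials of degree less than `m`. -/
abbrev L (m : ℕ) : Type := ↥(Polynomial.degreeLT ℤ m)

/-- `Xf` is multiplication by `X` modulo the polynomial `f` (monic of degree `m`). -/
def IsMul (m : ℕ) (f : ℤ[X]) (Xf : L m → L m) : Prop :=
  ∀ y : L m, ((Xf y : L m) : ℤ[X]) = X * (y : ℤ[X]) - C ((y : ℤ[X]).coeff (m - 1)) * f

/-! ### gluing -/

/-- POLY: Sylvester's equation, polynomial form. -/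
def StPoly : Prop := ∀ (V W : Type) [AddCommGroup V] [AddCommGroup W] (A : V →ₗ[ℤ] V)
  (D : W →ₗ[ℤ] W) (f : ℤ[X]) (Y : W →ₗ[ℤ] V), ∃ Z : W →ₗ[ℤ] V,
  ∀ y, A (Z y) - Z (D y) = aeval A f (Y y) - Y (aeval D f y)

/-- SYLV: Sylvester's equation for comaximal annihilators. -/
def StSylv : Prop := ∀ (V W : Type) [AddCommGroup V] [AddCommGroup W] (A : V →ₗ[ℤ] V)
  (D : W →ₗ[ℤ] W) (f g : ℤ[X]), aeval A f = 0 → aeval D g = 0 → IsCoprime f g →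
  ∀ Y : W →ₗ[ℤ] V, ∃ Z : W →ₗ[ℤ] V, ∀ y, A (Z y) - Z (D y) = Y y

/-- GLUE. -/
def StGlue : Prop := ∀ (V W : Type) [AddCommGroup V] [AddCommGroup W]
  (X₁ : V ≃ₗ[ℤ] V) (X₂ : W ≃ₗ[ℤ] W) (D₁ : V →ₗ[ℤ] V) (D₂ : W →ₗ[ℤ] W)
  (T : (V × W) ≃ₗ[ℤ] (V × W)) (R Z : W →ₗ[ℤ] V) (S Z' : V →ₗ[ℤ] W) (g : V × W →ₗ[ℤ] V × W),
  (∀ y : V × W, T (X₁ y.1, X₂ y.2) = (D₁ (T y).1, D₂ (T y).2)) →
  (∀ y, X₁ (Z y) - Z (X₂ y) = -R (X₂ y)) →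
  (∀ y, D₂ (Z' y) - Z' (D₁ y) = S (X₁ y)) →
  (∀ y z, g (X₁ y - R (X₂ z), X₂ z) = (D₁ y, S (X₁ y) + D₂ z)) → IsC g

/-- GLUE1: the first block is the identity. -/
def StGlue1 : Prop := ∀ (V W : Type) [AddCommGroup V] [AddCommGroup W] [Module.Free ℤ V]
  [Module.Finite ℤ V] [Module.Free ℤ W] [Module.Finite ℤ W],
  Module.finrank ℤ W + 1 ≤ Module.finrank ℤ V → ∀ h : W →ₗ[ℤ] W, IsC h →
  ∀ (R : W →ₗ[ℤ] V) (S : V →ₗ[ℤ] W) (g : V × W →ₗ[ℤ] V × W),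
  (∀ y z, g (y, z) = (y + R z, S y + h z + S (R z))) → IsC g

/-- PIVOT. -/
def StPivot : Prop := ∀ (V W : Type) [AddCommGroup V] [AddCommGroup W] [Module.Free ℤ V]
  [Module.Finite ℤ V] [Module.Free ℤ W] [Module.Finite ℤ W]
  (h : W →ₗ[ℤ] W) (R : W →ₗ[ℤ] V) (S : V →ₗ[ℤ] W) (g : V × W →ₗ[ℤ] V × W),
  (∀ y z, g (y, z) = (y + R z, S y + h z + S (R z))) → St h → St g

/-- PAD: identity blocks of every large size. -/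
def StPad : Prop := ∀ (V : Type) [AddCommGroup V] [Module.Free ℤ V] [Module.Finite ℤ V]
  (g : V →ₗ[ℤ] V), IsC g → ∀ j : ℕ, Module.finrank ℤ V + 1 ≤ j →
  IsC (g.prodMap (LinearMap.id : (Fin j → ℤ) →ₗ[ℤ] (Fin j → ℤ)))

/-- DROP. -/
def StDrop : Prop := ∀ (V W : Type) [AddCommGroup V] [AddCommGroup W] [Module.Free ℤ W]
  [Module.Finite ℤ W] (g : V →ₗ[ℤ] V), St (g.prodMap (LinearMap.id : W →ₗ[ℤ] W)) → St g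

/-- RANK: `1 + V (M - 1) Φ` with `Φ V = 1`. -/
def StRank : Prop := ∀ (n : ℕ) (U : Type) [AddCommGroup U] [Module.Free ℤ U] [Module.Finite ℤ U]
  (M : Matrix (Fin n) (Fin n) ℤ) (V : (Fin n → ℤ) →ₗ[ℤ] U) (Φ : U →ₗ[ℤ] (Fin n → ℤ))
  (g : U →ₗ[ℤ] U), (∀ t, Φ (V t) = t) → (∀ y, g y = y + V (M.mulVec (Φ y) - Φ y)) → IsC g →
  MSt M

/-! ### matrices -/

/-- MCONJ. -/
def StMconj : Prop := ∀ (n m : Type) [Fintype n] [DecidableEq n] [Fintype m] [DecidableEq m]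
  (C : Matrix n n ℤ) (D : Matrix m m ℤ) (P : Matrix m n ℤ) (Q : Matrix n m ℤ),
  P * Q = 1 → Q * P = 1 → P * C = D * P → MSt D → MSt C

/-- MPIVOT. -/
def StMpivot : Prop := ∀ (p n : Type) [Fintype p] [DecidableEq p] [Fintype n] [DecidableEq n]
  (R : Matrix p n ℤ) (S : Matrix n p ℤ) (C : Matrix n n ℤ), MSt C →
  MSt (Matrix.fromBlocks 1 R S (C + S * R))

/-- MDROP. -/
def StMdrop : Prop := ∀ (n p : Type) [Fintype n] [DecidableEq n] [Fintype p] [DecidableEq p]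
  (C : Matrix n n ℤ), MSt (Matrix.fromBlocks C 0 0 (1 : Matrix p p ℤ)) → MSt C

/-- MFIN: from `MSt` to commutators. -/
def StMfin : Prop := ∀ (k : ℕ) (C : Matrix (Fin k) (Fin k) ℤ), MSt C → ∃ j₀ : ℕ, ∀ j, j₀ ≤ j →
  ∃ A B : (Matrix (Fin k ⊕ Fin j) (Fin k ⊕ Fin j) ℤ)ˣ,
    ((A * B * A⁻¹ * B⁻¹ : (Matrix (Fin k ⊕ Fin j) (Fin k ⊕ Fin j) ℤ)ˣ) :
      Matrix (Fin k ⊕ Fin j) (Fin k ⊕ Fin j) ℤ) = Matrix.fromBlocks C 0 0 1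

/-! ### the reduction step -/

/-- BIL: a nonzero matrix is `ℓ N`, where `N` has the value `1`. -/
def StBil : Prop := ∀ (n : Type) [Fintype n] [DecidableEq n] (K : Matrix n n ℤ), K ≠ 0 →
  ∃ (ℓ : ℤ) (N : Matrix n n ℤ) (ψ v : n → ℤ), K = ℓ • N ∧ ψ ⬝ᵥ N.mulVec v = 1

/-- COMP: a unimodular vector is the first vector of a basis. -/
def StComp : Prop := ∀ (k : ℕ) (ψ y : Fin (k + 1) → ℤ), ψ ⬝ᵥ y = 1 →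
  ∃ (P : Matrix (Unit ⊕ Fin k) (Fin (k + 1)) ℤ) (Q : Matrix (Fin (k + 1)) (Unit ⊕ Fin k) ℤ),
    P * Q = 1 ∧ Q * P = 1 ∧ P.mulVec y = Sum.elim (fun _ => 1) (fun _ => 0) ∧
      ∀ x, P.mulVec x (Sum.inl ()) = ψ ⬝ᵥ x

/-- LIFT: unimodular vectors modulo `a`. -/
def StLift : Prop := ∀ (k : ℕ), 2 ≤ k → ∀ (a c₀ : ℤ) (h c : Fin k → ℤ), c₀ * a + c ⬝ᵥ h = 1 →
  ∃ ω θ : Fin k → ℤ, θ ⬝ᵥ (h - a • ω) = 1

/-- RED1: one adds a transvection. -/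
def StRed1 : Prop := ∀ (k : ℕ) (C N : Matrix (Unit ⊕ Fin k) (Unit ⊕ Fin k) ℤ) (ℓ : ℤ)
  (v ψ : Unit ⊕ Fin k → ℤ), C = 1 + ℓ • N →
  N.mulVec v = Sum.elim (fun _ => 1) (fun _ => 0) → ψ (Sum.inl ()) = 0 →
  MSt (C - ℓ • Matrix.vecMulVec (Sum.elim (fun _ => 1) (fun _ => 0)) (Matrix.vecMul ψ C)) → MSt C

/-- RED2: a vector `w = (1, ω)` with `(C w)₁ = 1`. -/
def StRed2 : Prop := ∀ (k : ℕ) (C : Matrix (Unit ⊕ Fin k) (Unit ⊕ Fin k) ℤ) (w : Unit ⊕ Fin k → ℤ),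
  C.det = 1 → w (Sum.inl ()) = 1 → C.mulVec w (Sum.inl ()) = 1 →
  ∃ C' : Matrix (Fin k) (Fin k) ℤ, C'.det = 1 ∧ (MSt C' → MSt C)

/-- RED: from size `k + 1` to size `k`. -/
def StRed : Prop := ∀ (k : ℕ), 2 ≤ k → ∀ C : Matrix (Fin (k + 1)) (Fin (k + 1)) ℤ, C.det = 1 →
  ∃ C' : Matrix (Fin k) (Fin k) ℤ, C'.det = 1 ∧ (MSt C' → MSt C)

/-! ### size two -/

/-- NF: normal form of a matrix of size two. -/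
def StNf : Prop := ∀ K : Matrix (Fin 2) (Fin 2) ℤ, ∃ (P G : (Matrix (Fin 2) (Fin 2) ℤ)ˣ) (ℓ δ : ℤ),
  (P : Matrix (Fin 2) (Fin 2) ℤ) * K =
    (ℓ • ((G : Matrix (Fin 2) (Fin 2) ℤ) * !![1, 1; 0, δ])) * (P : Matrix (Fin 2) (Fin 2) ℤ)

/-- PAIR: coprime polynomials with prescribed values at `0` and `1`. -/
def StPair : Prop := ∀ c d : ℤ, IsCoprime c d → ∃ (m : ℕ) (u w : ℤ[X]), 4 ≤ m ∧ IsCoprime u w ∧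
  (-u).Monic ∧ u.natDegree = m - 1 ∧ w.natDegree ≤ m - 2 ∧ u.coeff 0 = c ∧ w.coeff 0 = d ∧
  u.eval 1 = 1 ∧ w.eval 1 = 1

/-- PSI: the polynomials `ψ₁`, `ψ₂`. -/
def StPsi : Prop := ∀ (m : ℕ) (u w : ℤ[X]) (ℓ δ p q r s : ℤ), 4 ≤ m → IsUnit (p * s - q * r) →
  p + (r + δ * s) + ℓ * (p * (r + δ * s) - (p + δ * q) * r) = 0 →
  u.natDegree = m - 1 → w.natDegree ≤ m - 2 → u.coeff 0 = ℓ * r → w.coeff 0 = 1 + ℓ * (r + δ * s) →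
  u.eval 1 = 1 → w.eval 1 = 1 → ∃ ψ₁ ψ₂ : ℤ[X], ψ₁.natDegree ≤ m - 3 ∧ ψ₂.natDegree ≤ m - 3 ∧
  X * ((C (p + δ * q) * ψ₁ + C (r + δ * s) * ψ₂) - X * (C p * ψ₁ + C r * ψ₂)) =
    C p * w - C (p + δ * q) * u + C (r + δ * s) - C r * X

/-- MULX. -/
def StMulX : Prop := ∀ (m : ℕ) (f : ℤ[X]), 1 ≤ m → f.Monic → f.natDegree = m → f.coeff 0 = 1 →
  ∃ Xf : L m ≃ₗ[ℤ] L m, IsMul m f Xf

/-- MULQ: polynomials in multiplication by `X`. -/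
def StMulQ : Prop := ∀ (m : ℕ) (f : ℤ[X]) (Xf : L m →ₗ[ℤ] L m), 1 ≤ m → f.Monic →
  f.natDegree = m → IsMul m f Xf →
  ∀ (q : ℤ[X]) (y : L m), ((aeval Xf q y : L m) : ℤ[X]) = (q * (y : ℤ[X])) %ₘ f

/-- THETA: `D₁` is conjugate to multiplication by `X` modulo `f₂`. -/
def StTheta : Prop := ∀ (m : ℕ) (ℓ : ℤ) (f₁ f₂ B₁ B₂ : ℤ[X]) (X₁ X₂ D₁ : L m →ₗ[ℤ] L m), 3 ≤ m →
  B₁.natDegree ≤ m - 3 → B₂.natDegree ≤ m - 3 → C ℓ * X * (B₂ - X * B₁) = f₁ - f₂ →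
  IsMul m f₁ X₁ → IsMul m f₂ X₂ →
  (∀ y : L m, ((D₁ y : L m) : ℤ[X]) = X₁ y + C (ℓ * ((X₁ y : L m) : ℤ[X]).coeff (m - 1)) * B₂
    - C (ℓ * ((X₁ (X₁ y) : L m) : ℤ[X]).coeff (m - 1)) * B₁) →
  ∃ Θ : L m ≃ₗ[ℤ] L m, ∀ y, Θ (D₁ y) = X₂ (Θ y)

/-- The map `D₂`: `C₂` after multiplication by `X`. -/
def IsD2 (m : ℕ) (a b c d : ℤ) (u : ℤ[X]) (X₂ D₂ : L m →ₗ[ℤ] L m) : Prop :=
  ∀ y : L m, ((D₂ y : L m) : ℤ[X]) = X₂ y +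
    C ((a - 1) * ((X₂ y : L m) : ℤ[X]).coeff (m - 1) + b * ((X₂ y : L m) : ℤ[X]).coeff 0) *
      (C c - u) +
    C (c * ((X₂ y : L m) : ℤ[X]).coeff (m - 1) + (d - 1) * ((X₂ y : L m) : ℤ[X]).coeff 0)

/-- REL: relations of `D₂`. -/
def StRel : Prop := ∀ (m : ℕ) (a b c d : ℤ) (u w : ℤ[X]) (X₂ D₂ : L m →ₗ[ℤ] L m)
  (e g : L m), 3 ≤ m → (-u).Monic → u.natDegree = m - 1 → w.natDegree ≤ m - 2 → u.coeff 0 = c →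
  w.coeff 0 = d → IsMul m (w - C d + 1 - X * (u - C c)) X₂ → IsD2 m a b c d u X₂ D₂ →
  (e : ℤ[X]) = 1 → (g : ℤ[X]) = C c - u →
  (∀ i, i ≤ m - 2 → (((D₂ ^ i) e : L m) : ℤ[X]) = X ^ i) ∧
  a • g + aeval D₂ u e = 0 ∧ b • g + D₂ g + aeval D₂ w e = 0

/-- KRY: `D₂` is conjugate to multiplication by `X` modulo `f₁`. -/
def StKry : Prop := ∀ (m : ℕ) (a b c d : ℤ) (u w : ℤ[X]) (X₁ X₂ D₂ : L m →ₗ[ℤ] L m), 3 ≤ m →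
  (-u).Monic → u.natDegree = m - 1 → w.natDegree ≤ m - 2 → u.coeff 0 = c → w.coeff 0 = d →
  IsCoprime u w → IsMul m (C a * w - (C b + X) * u) X₁ →
  IsMul m (w - C d + 1 - X * (u - C c)) X₂ → IsD2 m a b c d u X₂ D₂ →
  ∃ K : L m ≃ₗ[ℤ] L m, ∀ y, D₂ (K y) = K (X₁ y)

/-- SY: Sylvester's equation for a special right hand side. -/
def StSy : Prop := ∀ (V W : Type) [AddCommGroup V] [AddCommGroup W] (D₁ : V →ₗ[ℤ] V)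
  (D₂ : W →ₗ[ℤ] W) (φ : V →ₗ[ℤ] ℤ) (a₁ a₂ e : W) (f : ℤ[X]), aeval D₁ f = 0 →
  aeval D₂ f e = D₂ a₁ - a₂ →
  ∃ Z : V →ₗ[ℤ] W, ∀ y, D₂ (Z y) - Z (D₁ y) = φ y • a₂ - φ (D₁ y) • a₁

/-- SYA: the first Sylvester equation. -/
def StSyA : Prop := ∀ (m : ℕ) (ℓ : ℤ) (f₁ f₂ B₁ B₂ : ℤ[X]) (X₁ X₂ R : L m →ₗ[ℤ] L m), 3 ≤ m →
  f₁.Monic → f₁.natDegree = m → f₁.coeff 0 = 1 → f₂.Monic → f₂.natDegree = m → f₂.coeff 0 = 1 →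
  B₁.natDegree ≤ m - 3 → B₂.natDegree ≤ m - 3 → C ℓ * X * (B₂ - X * B₁) = f₁ - f₂ →
  IsMul m f₁ X₁ → IsMul m f₂ X₂ →
  (∀ y : L m, ((R y : L m) : ℤ[X]) =
    C (ℓ * (y : ℤ[X]).coeff (m - 1)) * B₁ + C (ℓ * (y : ℤ[X]).coeff 0) * B₂) →
  ∃ Z : L m →ₗ[ℤ] L m, ∀ y, X₁ (Z y) - Z (X₂ y) = -R (X₂ y)

/-- SYB: the second Sylvester equation. -/
def StSyB : Prop := ∀ (m : ℕ) (a b c d ℓ : ℤ) (u w f₁ B₁ B₂ : ℤ[X])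
  (X₁ X₂ D₁ D₂ S : L m →ₗ[ℤ] L m), 3 ≤ m →
  (-u).Monic → u.natDegree = m - 1 → w.natDegree ≤ m - 2 → u.coeff 0 = c → w.coeff 0 = d →
  B₁.natDegree ≤ m - 3 → B₂.natDegree ≤ m - 3 →
  C ℓ * X * (B₂ - X * B₁) = f₁ - (w - C d + 1 - X * (u - C c)) →
  IsMul m f₁ X₁ → IsMul m (w - C d + 1 - X * (u - C c)) X₂ → IsD2 m a b c d u X₂ D₂ →
  (∀ y : L m, ((D₁ y : L m) : ℤ[X]) = X₁ y + C (ℓ * ((X₁ y : L m) : ℤ[X]).coeff (m - 1)) * B₂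
    - C (ℓ * ((X₁ (X₁ y) : L m) : ℤ[X]).coeff (m - 1)) * B₁) →
  (∀ y : L m, ((S y : L m) : ℤ[X]) =
    C ((y : ℤ[X]).coeff (m - 1)) * (C b * (C c - u) + C (d - 1)) -
    C (((X₁ y : L m) : ℤ[X]).coeff (m - 1)) * (C (a - 1) * (C c - u) + C c)) →
  ∃ Z' : L m →ₗ[ℤ] L m, ∀ y, D₂ (Z' y) - Z' (D₁ y) = S (X₁ y)

/-- TWO: size two. -/
def StTwo : Prop := ∀ M : Matrix (Fin 2) (Fin 2) ℤ, M.det = 1 → MSt M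

end Pool.Agent.StabComm
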