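import Pool.Agent.Work.MP_584b0c_al.Stab.Defs

set_option autoImplicit false

namespace Pool.Agent.StabComm

namespace XBIL

/-- The values of a nonzero bilinear form over the integers are the multiples of one value. -/
theorem core {V W : Type} [AddCommGroup V] [AddCommGroup W] (B : V →ₗ[ℤ] W →ₗ[ℤ] ℤ)
    (hB : ∃ a b, B a b ≠ 0) :
    ∃ (d : ℤ) (a : V) (b : W), 0 < d ∧ B a b = d ∧ ∀ x y, d ∣ B x y := by
  classical
  have hex : ∃ m : ℕ, 0 < m ∧ ∃ a b, B a b = (m : ℤ) := by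
    obtain ⟨a, b, hab⟩ := hB
    rcases lt_or_gt_of_ne hab with h | h
    · refine ⟨(B a b).natAbs, Int.natAbs_pos.2 hab, -a, b, ?_⟩
      have h1 : B (-a) b = -(B a b) := by simp
      rw [h1]
      omega
    · refine ⟨(B a b).natAbs, Int.natAbs_pos.2 hab, a, b, ?_⟩
      omega
  have hm : 0 < Nat.find hex := (Nat.find_spec hex).1
  obtain ⟨a, b, hab⟩ := (Nat.find_spec hex).2
  have hmin : ∀ x y, 0 < B x y → ((Nat.find hex : ℕ) : ℤ) ≤ B x y := by
    intro x y hxy
    have h1 : Nat.find hex ≤ (B x y).natAbs :=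
      Nat.find_min' hex ⟨Int.natAbs_pos.2 hxy.ne', x, y, by omega⟩
    omega
  generalize Nat.find hex = m at hm hab hmin
  have hd : (0 : ℤ) < (m : ℤ) := by exact_mod_cast hm
  have hr : ∀ y, (m : ℤ) ∣ B a y := by
    intro y
    by_contra hn
    have h1 : B a (y - (B a y / (m : ℤ)) • b) = B a y % (m : ℤ) := by
      rw [map_sub, map_smul, hab, smul_eq_mul, Int.emod_def]
      ring
    have h2 : 0 ≤ B a y % (m : ℤ) := Int.emod_nonneg _ hd.ne'
    have h3 : B a y % (m : ℤ) < (m : ℤ) := Int.emod_lt_of_pos _ hd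
    have h4 : B a y % (m : ℤ) ≠ 0 := fun h => hn (Int.dvd_of_emod_eq_zero h)
    have h5 := hmin a (y - (B a y / (m : ℤ)) • b) (by rw [h1]; omega)
    rw [h1] at h5
    omega
  have hl : ∀ x, (m : ℤ) ∣ B x b := by
    intro x
    by_contra hn
    have h1 : B (x - (B x b / (m : ℤ)) • a) b = B x b % (m : ℤ) := by
      rw [map_sub, map_smul, LinearMap.sub_apply, LinearMap.smul_apply, hab, smul_eq_mul,
        Int.emod_def]
      ring
    have h2 : 0 ≤ B x b % (m : ℤ) := Int.emod_nonneg _ hd.ne'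
    have h3 : B x b % (m : ℤ) < (m : ℤ) := Int.emod_lt_of_pos _ hd
    have h4 : B x b % (m : ℤ) ≠ 0 := fun h => hn (Int.dvd_of_emod_eq_zero h)
    have h5 := hmin (x - (B x b / (m : ℤ)) • a) b (by rw [h1]; omega)
    rw [h1] at h5
    omega
  refine ⟨(m : ℤ), a, b, hd, hab, fun x y => ?_⟩
  obtain ⟨s, hs⟩ := hl x
  obtain ⟨t, ht⟩ := hr y
  have e1 : B (x - s • a) b = 0 := by
    rw [map_sub, map_smul, LinearMap.sub_apply, LinearMap.smul_apply, hab, smul_eq_mul, hs]
    ring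
  have e2 : B a (y - t • b) = 0 := by
    rw [map_sub, map_smul, hab, smul_eq_mul, ht]
    ring
  have e3 : B (x - s • a) (y - t • b) = B x y - s * (m : ℤ) * t := by
    simp only [map_sub, map_smul, LinearMap.sub_apply, LinearMap.smul_apply, hab, smul_eq_mul,
      hs, ht]
    ring
  have hc : (m : ℤ) ∣ B (x - s • a) (y - t • b) := by
    have g1 := Int.gcd_eq_gcd_ab (m : ℤ) (B (x - s • a) (y - t • b))
    have g2 : B (Int.gcdA (m : ℤ) (B (x - s • a) (y - t • b)) • a +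
        Int.gcdB (m : ℤ) (B (x - s • a) (y - t • b)) • (x - s • a)) (b + (y - t • b)) =
        ((Int.gcd (m : ℤ) (B (x - s • a) (y - t • b)) : ℕ) : ℤ) := by
      rw [g1]
      simp only [LinearMap.add_apply, LinearMap.smul_apply, smul_eq_mul, map_add,
        (map_smul B _ _ : B (Int.gcdA (m : ℤ) (B (x - s • a) (y - t • b)) • a) = _),
        (map_smul B _ _ : B (Int.gcdB (m : ℤ) (B (x - s • a) (y - t • b)) • (x - s • a)) = _),
        e1, e2, hab]
      ring
    have g3 : 0 < Int.gcd (m : ℤ) (B (x - s • a) (y - t • b)) :=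
      Int.gcd_pos_of_ne_zero_left _ hd.ne'
    have g4 := hmin _ _ (lt_of_lt_of_eq (by exact_mod_cast g3) g2.symm)
    rw [g2] at g4
    have g5 : ((Int.gcd (m : ℤ) (B (x - s • a) (y - t • b)) : ℕ) : ℤ) ∣ (m : ℤ) :=
      Int.gcd_dvd_left _ _
    have g6 : ((Int.gcd (m : ℤ) (B (x - s • a) (y - t • b)) : ℕ) : ℤ) = (m : ℤ) :=
      le_antisymm (Int.le_of_dvd hd g5) g4
    have g7 : ((Int.gcd (m : ℤ) (B (x - s • a) (y - t • b)) : ℕ) : ℤ) ∣
        B (x - s • a) (y - t • b) := Int.gcd_dvd_right _ _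
    rwa [g6] at g7
  rw [e3] at hc
  have h6 : (m : ℤ) ∣ s * (m : ℤ) * t := ⟨s * t, by ring⟩
  have h7 := dvd_add hc h6
  simpa using h7

end XBIL

theorem I_Bil : StBil := by
  intro n _ _ K hK
  have hent : ∀ i j, (Matrix.toLinearMap₂' ℤ K : (n → ℤ) →ₗ[ℤ] (n → ℤ) →ₗ[ℤ] ℤ)
      (Pi.single i 1) (Pi.single j 1) = K i j := by
    intro i j
    rw [Matrix.toLinearMap₂'_apply']
    simp
  have hex : ∃ a b, (Matrix.toLinearMap₂' ℤ K : (n → ℤ) →ₗ[ℤ] (n → ℤ) →ₗ[ℤ] ℤ) a b ≠ 0 := by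
    by_contra hn
    push Not at hn
    apply hK
    ext i j
    have h1 := hn (Pi.single i 1) (Pi.single j 1)
    rw [hent] at h1
    simpa using h1
  obtain ⟨d, a, b, hd, hab, hdiv⟩ := XBIL.core _ hex
  have hij : ∀ i j, d ∣ K i j := by
    intro i j
    have h1 := hdiv (Pi.single i 1) (Pi.single j 1)
    rw [hent] at h1
    exact h1
  have hKN : K = d • Matrix.of (fun i j => K i j / d) := by
    ext i j
    simp only [Matrix.smul_apply, Matrix.of_apply, smul_eq_mul]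
    exact (Int.mul_ediv_cancel' (hij i j)).symm
  refine ⟨d, Matrix.of (fun i j => K i j / d), a, b, hKN, ?_⟩
  have h2 : a ⬝ᵥ K.mulVec b = d := by
    rw [← hab, Matrix.toLinearMap₂'_apply']
  rw [hKN, Matrix.smul_mulVec, dotProduct_smul, smul_eq_mul] at h2
  exact mul_left_cancel₀ hd.ne' (by rw [h2, mul_one])

end Pool.Agent.StabComm
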