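import Pool.Agent.Work.MP_584b0c_al.Stab.Defs

set_option autoImplicit false

/-!
MP_584b0c_al, block ST, item MDROP.
-/

namespace Pool.Agent.StabComm

namespace XMDROP

/-- Splitting of functions on a sum, as an equivalence of integer modules. -/
def split (n p : Type) : (n ⊕ p → ℤ) ≃ₗ[ℤ] (n → ℤ) × (p → ℤ) :=
  LinearEquiv.sumArrowLequivProdArrow n p ℤ ℤ

theorem split_apply (n p : Type) (v : n ⊕ p → ℤ) :
    split n p v = (fun i => v (Sum.inl i), fun i => v (Sum.inr i)) := by
  rfl

end XMDROP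

theorem I_Mdrop (h : StDrop) : StMdrop := by
  intro n p _ _ _ _ C hC
  refine h (n → ℤ) (p → ℤ) (Matrix.toLin' C) ?_
  refine St.conj (XMDROP.split n p) ?_ hC
  intro v
  rw [XMDROP.split_apply, XMDROP.split_apply]
  simp only [Matrix.toLin'_apply, LinearMap.prodMap_apply, LinearMap.id_coe, id_eq]
  have hv : v = Sum.elim (fun i => v (Sum.inl i)) (fun i => v (Sum.inr i)) := by
    funext i
    cases i <;> rfl
  rw [hv, Matrix.fromBlocks_mulVec]
  simp

end Pool.Agent.StabComm
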