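import Pool.Agent.Work.MP_584b0c_al.Stab.Defs

set_option autoImplicit false

/-!
MP_584b0c_al, item PSI: the polynomials `ψ₁`, `ψ₂`.
-/

namespace Pool.Agent.StabComm

open Polynomial

namespace XPSI

theorem natDegree_divX_le (Q : ℤ[X]) (k : ℕ) (h : Q.natDegree ≤ k) :
    Q.divX.natDegree ≤ k - 1 := by
  rw [natDegree_divX_eq_natDegree_tsub_one]
  omega

theorem natDegree_lin (a b : ℤ) (f g : ℤ[X]) (k : ℕ) (hf : f.natDegree ≤ k)
    (hg : g.natDegree ≤ k) : (C a * f + C b * g).natDegree ≤ k :=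
  (natDegree_add_le_of_degree_le ((natDegree_C_mul_le a f).trans hf)
    ((natDegree_C_mul_le b g).trans hg))

end XPSI

open XPSI in
theorem I_Psi : StPsi := by
  intro m u w ℓ δ p q r s hm hU htr hu hw hu0 hw0 hu1 hw1
  have hε : (p * s - q * r) * (p * s - q * r) = 1 := by
    rcases Int.isUnit_iff.1 hU with h | h <;> rw [h] <;> norm_num
  obtain ⟨Q, hQ⟩ : ∃ Q : ℤ[X], Q = C p * w - C (p + δ * q) * u + C (r + δ * s) - C r * X :=
    ⟨_, rfl⟩
  have hQ0 : Q.coeff 0 = 0 := by
    rw [hQ]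
    simp only [coeff_add, coeff_sub, coeff_C_mul, coeff_C_zero, coeff_X_zero, hu0, hw0]
    linear_combination htr
  have hQ1 : Q.eval 1 = δ * (s - q) := by
    rw [hQ]
    simp only [eval_add, eval_sub, eval_mul, eval_C, eval_X, hu1, hw1]
    ring
  have hQd : Q.natDegree ≤ m - 1 := by
    rw [hQ]
    have h1 : (C p * w).natDegree ≤ m - 1 := (natDegree_C_mul_le _ _).trans (by omega)
    have h2 : (C (p + δ * q) * u).natDegree ≤ m - 1 := (natDegree_C_mul_le _ _).trans (by omega)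
    have h3 : (C (r + δ * s) : ℤ[X]).natDegree ≤ m - 1 := by
      rw [natDegree_C]
      omega
    have h4 : (C r * X : ℤ[X]).natDegree ≤ m - 1 :=
      (natDegree_C_mul_le _ _).trans (natDegree_X_le.trans (by omega))
    have h5 : (C p * w - C (p + δ * q) * u).natDegree ≤ m - 1 :=
      (natDegree_sub_le_of_le h1 h2).trans (by simp)
    have h6 : (C p * w - C (p + δ * q) * u + C (r + δ * s)).natDegree ≤ m - 1 :=
      natDegree_add_le_of_degree_le h5 h3
    exact (natDegree_sub_le_of_le h6 h4).trans (by simp)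
  obtain ⟨P, hP⟩ : ∃ P : ℤ[X], P = Q.divX := ⟨_, rfl⟩
  have hXP : X * P = Q := by
    have h := divX_mul_X_add Q
    rw [hQ0, C_0, add_zero] at h
    rw [hP, mul_comm]
    exact h
  have hPd : P.natDegree ≤ m - 2 := by
    rw [hP]
    exact (natDegree_divX_le Q (m - 1) hQd).trans (by omega)
  have hP1 : P.eval 1 = δ * (s - q) := by
    rw [← hQ1, ← hXP]
    simp
  obtain ⟨T, hT⟩ : ∃ T : ℤ[X], T = P /ₘ (X - C 1) := ⟨_, rfl⟩
  have hPT : P = C (δ * (s - q)) + (X - C 1) * T := by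
    have h := modByMonic_add_div P (X - C (1 : ℤ))
    rw [modByMonic_X_sub_C_eq_C_eval, hP1] at h
    rw [hT]
    exact h.symm
  have hTd : T.natDegree ≤ m - 3 := by
    rw [hT, natDegree_divByMonic P (monic_X_sub_C 1), natDegree_X_sub_C]
    omega
  have hcd : (C (s - q) : ℤ[X]).natDegree ≤ m - 3 := by
    rw [natDegree_C]
    omega
  refine ⟨C (-(p * s - q * r) * s) * T + C (-(p * s - q * r) * r) * C (s - q),
    C ((p * s - q * r) * q) * T + C ((p * s - q * r) * p) * C (s - q),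
    natDegree_lin _ _ _ _ _ hTd hcd, natDegree_lin _ _ _ _ _ hTd hcd, ?_⟩
  rw [← hQ, ← hXP, hPT]
  have hε' : (C p * C s - C q * C r) * (C p * C s - C q * C r) = (1 : ℤ[X]) := by
    rw [← C_mul, ← C_mul, ← C_sub, ← C_mul, hε, C_1]
  simp only [C_mul, C_add, C_sub, C_neg, C_1]
  linear_combination (X * (C δ * (C s - C q) + (X - 1) * T)) * hε'

end Pool.Agent.StabComm
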