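import Pool.Agent.Work.MP_584b0c_al.Stab.Defs

set_option autoImplicit false

/-! MP_584b0c_al: THETA, `D₁` is conjugate to multiplication by `X` modulo `f₂`. -/

namespace Pool.Agent.StabComm

open Polynomial

namespace XTHETA

/-- the top coefficient -/
noncomputable def phi (m : ℕ) : L m →ₗ[ℤ] ℤ :=
  (Polynomial.lcoeff ℤ (m - 1)).comp (Submodule.subtype (Polynomial.degreeLT ℤ m))

theorem phi_apply (m : ℕ) (y : L m) : phi m y = (y : ℤ[X]).coeff (m - 1) := rfl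

theorem mem_of_natDegree {m : ℕ} {f : ℤ[X]} (h : f.natDegree < m) :
    f ∈ Polynomial.degreeLT ℤ m := by
  rw [Polynomial.mem_degreeLT]
  exact lt_of_le_of_lt Polynomial.degree_le_natDegree (by exact_mod_cast h)

/-- the nilpotent part -/
noncomputable def nil (m : ℕ) (ℓ : ℤ) (X₁ : L m →ₗ[ℤ] L m) (b p : L m) : L m →ₗ[ℤ] L m :=
  ((phi m).comp X₁).smulRight (ℓ • b) - (phi m).smulRight (ℓ • p)

theorem nil_apply (m : ℕ) (ℓ : ℤ) (X₁ : L m →ₗ[ℤ] L m) (b p : L m) (y : L m) :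
    nil m ℓ X₁ b p y = phi m (X₁ y) • (ℓ • b) - phi m y • (ℓ • p) := rfl

theorem coe_nil (m : ℕ) (ℓ : ℤ) (X₁ : L m →ₗ[ℤ] L m) (b p : L m) (y : L m) :
    ((nil m ℓ X₁ b p y : L m) : ℤ[X]) =
      C (ℓ * phi m (X₁ y)) * (b : ℤ[X]) - C (ℓ * phi m y) * (p : ℤ[X]) := by
  rw [nil_apply]
  have h : ((phi m (X₁ y) • (ℓ • b) - phi m y • (ℓ • p) : L m) : ℤ[X]) =
      phi m (X₁ y) • (ℓ • (b : ℤ[X])) - phi m y • (ℓ • (p : ℤ[X])) := rfl
  rw [h]
  simp only [zsmul_eq_mul, map_mul, eq_intCast]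
  ring

theorem phi_mul {m : ℕ} (hm : 3 ≤ m) {f₁ : ℤ[X]} {X₁ : L m →ₗ[ℤ] L m} (h₁ : IsMul m f₁ X₁)
    (z : L m) : phi m (X₁ z) = (z : ℤ[X]).coeff (m - 2) - phi m z * f₁.coeff (m - 1) := by
  rw [phi_apply, h₁ z, coeff_sub, coeff_C_mul, phi_apply]
  congr 1
  have : m - 1 = (m - 2) + 1 := by omega
  rw [this, coeff_X_mul]

end XTHETA

open XTHETA in
theorem I_Theta : StTheta := by
  intro m ℓ f₁ f₂ B₁ B₂ X₁ X₂ D₁ hm hB₁ hB₂ hf h₁ h₂ hD
  have hP : (B₂ - X * B₁).natDegree ≤ m - 2 := by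
    refine (natDegree_sub_le _ _).trans (max_le (by omega) ?_)
    refine natDegree_mul_le.trans ?_
    have := natDegree_X_le (R := ℤ)
    omega
  have hb : B₁ ∈ Polynomial.degreeLT ℤ m := mem_of_natDegree (by omega)
  have hp : B₂ - X * B₁ ∈ Polynomial.degreeLT ℤ m := mem_of_natDegree (by omega)
  set b : L m := ⟨B₁, hb⟩ with hbdef
  set p : L m := ⟨B₂ - X * B₁, hp⟩ with hpdef
  have hbc : (b : ℤ[X]) = B₁ := rfl
  have hpc : (p : ℤ[X]) = B₂ - X * B₁ := rfl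
  have hφb : phi m b = 0 := by
    rw [phi_apply, hbc]; exact coeff_eq_zero_of_natDegree_lt (by omega)
  have hφp : phi m p = 0 := by
    rw [phi_apply, hpc]; exact coeff_eq_zero_of_natDegree_lt (by omega)
  have hb2 : (b : ℤ[X]).coeff (m - 2) = 0 := by
    rw [hbc]; exact coeff_eq_zero_of_natDegree_lt (by omega)
  have hφXb : phi m (X₁ b) = 0 := by
    rw [phi_mul hm h₁, hb2, hφb, zero_mul, sub_zero]
  have hN : ∀ y, nil m ℓ X₁ b p y = phi m (X₁ y) • (ℓ • b) - phi m y • (ℓ • p) :=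
    nil_apply m ℓ X₁ b p
  set N := nil m ℓ X₁ b p with hNdef
  have hφN : ∀ y, phi m (N y) = 0 := by
    intro y
    rw [hN, map_sub, map_zsmul, map_zsmul, map_zsmul, map_zsmul, hφb, hφp]
    simp
  have hN2 : ∀ y, N (N y) = phi m (X₁ (N y)) • (ℓ • b) := by
    intro y
    rw [hN (N y), hφN, zero_smul, sub_zero]
  have hN3 : ∀ y, N (N (N y)) = 0 := by
    intro y
    rw [hN2 (N y), hN2 y, map_zsmul, map_zsmul, map_zsmul, map_zsmul, hφXb]
    simp
  have e1 : ((LinearMap.id + N).comp (LinearMap.id - N + N.comp N)) = LinearMap.id := by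
    apply LinearMap.ext
    intro y
    simp only [LinearMap.comp_apply, LinearMap.add_apply, LinearMap.sub_apply, LinearMap.id_apply,
      map_add, map_sub, hN3]
    abel
  have e2 : ((LinearMap.id - N + N.comp N).comp (LinearMap.id + N)) = LinearMap.id := by
    apply LinearMap.ext
    intro y
    simp only [LinearMap.comp_apply, LinearMap.add_apply, LinearMap.sub_apply, LinearMap.id_apply,
      map_add, map_sub, hN3]
    abel
  obtain ⟨T, hT⟩ : ∃ T : L m →ₗ[ℤ] L m, T = LinearMap.id + N := ⟨_, rfl⟩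
  rw [← hT] at e1 e2
  refine ⟨LinearEquiv.ofLinearMap T (LinearMap.id - N + N.comp N) e1 e2, ?_⟩
  intro y
  change T (D₁ y) = X₂ (T y)
  have hφD : phi m (D₁ y) = phi m (X₁ y) := by
    rw [phi_apply, phi_apply, hD, coeff_sub, coeff_add, coeff_C_mul, coeff_C_mul,
      coeff_eq_zero_of_natDegree_lt (p := B₁) (by omega),
      coeff_eq_zero_of_natDegree_lt (p := B₂) (by omega)]
    ring
  have hcD : ((D₁ y : L m) : ℤ[X]).coeff (m - 2) = ((X₁ y : L m) : ℤ[X]).coeff (m - 2) := by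
    rw [hD, coeff_sub, coeff_add, coeff_C_mul, coeff_C_mul,
      coeff_eq_zero_of_natDegree_lt (p := B₁) (by omega),
      coeff_eq_zero_of_natDegree_lt (p := B₂) (by omega)]
    ring
  have hφXD : phi m (X₁ (D₁ y)) = phi m (X₁ (X₁ y)) := by
    rw [phi_mul hm h₁, phi_mul hm h₁, hφD, hcD]
  apply Subtype.ext
  have hTa : ∀ z : L m, ((T z : L m) : ℤ[X]) = (z : ℤ[X]) + ((N z : L m) : ℤ[X]) := by
    intro z
    rw [hT]
    rfl
  have hφΘ : ((T y : L m) : ℤ[X]).coeff (m - 1) = phi m y := by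
    have : phi m (T y) = phi m y := by
      rw [hT, LinearMap.add_apply, LinearMap.id_apply, map_add, hφN, add_zero]
    rw [← this, phi_apply]
  rw [h₂ (T y), hφΘ, hTa, hTa, hNdef, coe_nil, coe_nil, hφD, hφXD, hD, hbc, hpc]
  have hX : ((X₁ y : L m) : ℤ[X]) = X * (y : ℤ[X]) - C (phi m y) * f₁ := h₁ y
  have hf2 : f₂ = f₁ - C ℓ * X * (B₂ - X * B₁) := by rw [hf]; ring
  rw [hf2, ← phi_apply, ← phi_apply, hX]
  simp only [map_mul]
  ring

end Pool.Agent.StabComm
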